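import Mathlib

-- part Pool.Agent.Lib.MP_be0860_lc.Walk
section

/-!
Walks in digraphs as lists of labelled arcs, and the permutations given by simple closed walks.
-/

set_option autoImplicit false

namespace Pool.Agent.Lib.MP_be0860_lc

open Finset

variable {α : Type}

/-- `Ch s l t`: the arcs of `l` form a walk from `s` to `t`. -/
def Ch : α → List (α × α × Bool) → α → Prop
  | s, [], t => s = t
  | s, p :: l, t => p.1 = s ∧ Ch p.2.1 l t

theorem ch_append {s t : α} {l m : List (α × α × Bool)} :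
    Ch s (l ++ m) t ↔ ∃ u, Ch s l u ∧ Ch u m t := by
  induction l generalizing s with
  | nil => simp [Ch]
  | cons p l ih => simp [Ch, ih, and_assoc]

theorem exists_dup {β : Type} (f : β → α) :
    ∀ l : List β, ¬ (l.map f).Nodup → ∃ l₁ p l₂ p' l₃, l = l₁ ++ (p :: l₂) ++ (p' :: l₃) ∧
      f p = f p'
  | [], h => absurd List.nodup_nil h
  | p :: l, h => by
    rw [List.map_cons, List.nodup_cons, not_and_or, not_not] at h
    rcases h with h | h
    · obtain ⟨p', hp', e⟩ := List.mem_map.1 h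
      obtain ⟨l₂, l₃, rfl⟩ := List.append_of_mem hp'
      exact ⟨[], p, l₂, p', l₃, by simp, e.symm⟩
    · obtain ⟨l₁, q, l₂, q', l₃, rfl, e⟩ := exists_dup f l h
      exact ⟨p :: l₁, q, l₂, q', l₃, by simp, e⟩

/-- A walk that repeats a vertex splits off a closed walk. -/
theorem ch_split {s t : α} {l : List (α × α × Bool)} (h : Ch s l t)
    (hn : ¬ (l.map Prod.fst).Nodup) :
    ∃ A B u, Ch u A u ∧ Ch s B t ∧ A ≠ [] ∧ B ≠ [] ∧ l.Perm (A ++ B) := by
  obtain ⟨l₁, p, l₂, p', l₃, rfl, e⟩ := exists_dup _ l hn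
  obtain ⟨u, h1, h2⟩ := ch_append.1 h
  obtain ⟨v, h3, h4⟩ := ch_append.1 h1
  have e1 : p.1 = v := h4.1
  have e2 : p'.1 = u := h2.1
  have e3 : v = u := by rw [← e1, e, e2]
  subst e3
  refine ⟨p :: l₂, l₁ ++ p' :: l₃, v, h4, ch_append.2 ⟨v, h3, h2⟩, by simp, by simp, ?_⟩
  rw [← List.append_assoc]
  exact List.perm_append_comm.append_right _

/-- A closed walk contains a simple closed walk with the same base point. -/
theorem ch_simple {s : α} : ∀ (n : ℕ) (l : List (α × α × Bool)), l.length ≤ n → Ch s l s →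
    l ≠ [] → ∃ B A, Ch s B s ∧ B ≠ [] ∧ (B.map Prod.fst).Nodup ∧ l.Perm (A ++ B) := by
  intro n
  induction n with
  | zero => intro l hl _ h; exact absurd (List.length_eq_zero_iff.1 (by omega)) h
  | succ n ih =>
    intro l hl h hne
    by_cases hn : (l.map Prod.fst).Nodup
    · exact ⟨l, [], h, hne, hn, by simp⟩
    obtain ⟨A, B, u, -, h2, h3, h4, h5⟩ := ch_split h hn
    have h6 := h5.length_eq
    have h7 := List.length_pos_iff.2 h3
    rw [List.length_append] at h6
    obtain ⟨B', A', h8, h9, h10, h11⟩ := ih B (by omega) h2 h4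
    exact ⟨B', A ++ A', h8, h9, h10, by
      rw [List.append_assoc]; exact h5.trans (h11.append_left A)⟩

variable [DecidableEq α]

theorem exists_perm_path : ∀ (l : List (α × α × Bool)) (s t : α), Ch s l t →
    (l.map Prod.fst).Nodup → t ∉ l.map Prod.fst → ∃ π : Equiv.Perm α,
      (∀ p ∈ l, π p.1 = p.2.1) ∧ π t = s ∧ ∀ x, x ∉ l.map Prod.fst → x ≠ t → π x = x
  | [], s, t, h, _, _ => ⟨1, by simp, h.symm, fun _ _ _ => rfl⟩
  | p :: l, s, t, h, hn, ht => by
    rw [List.map_cons, List.nodup_cons] at hn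
    rw [List.map_cons, List.mem_cons, not_or] at ht
    obtain ⟨π, h1, h2, h3⟩ := exists_perm_path l p.2.1 t h.2 hn.2 ht.2
    refine ⟨π * Equiv.swap p.1 t, fun p' hp' => ?_, ?_, fun x hx hxt => ?_⟩
    · rcases List.mem_cons.1 hp' with rfl | hp'
      · simp [h2]
      · have hm : p'.1 ∈ l.map Prod.fst := List.mem_map_of_mem hp'
        rw [Equiv.Perm.mul_apply, Equiv.swap_apply_of_ne_of_ne
          (fun e : p'.1 = p.1 => hn.1 (e ▸ hm)) (fun e : p'.1 = t => ht.2 (e ▸ hm)), h1 p' hp']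
    · rw [Equiv.Perm.mul_apply, Equiv.swap_apply_right, h3 _ hn.1 (Ne.symm ht.1), h.1]
    · rw [List.map_cons, List.mem_cons, not_or] at hx
      rw [Equiv.Perm.mul_apply, Equiv.swap_apply_of_ne_of_ne hx.1 hxt, h3 x hx.2 hxt]

/-- Rotating a permutation along a simple closed walk. -/
theorem exists_move (σ : Equiv.Perm α) {l : List (α × α × Bool)} {s : α} (h : Ch s l s)
    (hn : (l.map Prod.fst).Nodup) : ∃ σ' : Equiv.Perm α,
      (∀ p ∈ l, σ' p.1 = σ p.2.1) ∧ ∀ x, x ∉ l.map Prod.fst → σ' x = σ x := by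
  rcases l with _ | ⟨p, l⟩
  · exact ⟨σ, by simp, fun _ _ => rfl⟩
  rw [List.map_cons, List.nodup_cons] at hn
  obtain ⟨π, h1, h2, h3⟩ := exists_perm_path l p.2.1 p.1 (h.1 ▸ h.2) hn.2 hn.1
  refine ⟨σ * π, fun p' hp' => ?_, fun x hx => ?_⟩
  · rcases List.mem_cons.1 hp' with rfl | hp'
    · simp [h2]
    · simp [h1 p' hp']
  · rw [List.map_cons, List.mem_cons, not_or] at hx
    simp [h3 x hx.2 hx.1]

/-- The walk along an orbit. -/
def orb (τ : α → α) (b : α → Bool) (x : α) (c : ℕ) : List (α × α × Bool) :=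
  (List.range c).map fun i => (τ^[i] x, τ^[i + 1] x, b (τ^[i] x))

omit [DecidableEq α] in
theorem ch_orb (τ : α → α) (b : α → Bool) (x : α) (c : ℕ) : Ch x (orb τ b x c) (τ^[c] x) := by
  induction c with
  | zero => rfl
  | succ c ih =>
    rw [orb, List.range_succ, List.map_append]
    exact ch_append.2 ⟨_, ih, rfl, rfl⟩

omit [DecidableEq α] in
theorem nodup_orb {τ : α → α} (b : α → Bool) {x : α} {c : ℕ}
    (h : Set.InjOn (fun i => τ^[i] x) (Set.Iio c)) : ((orb τ b x c).map Prod.fst).Nodup := by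
  rw [orb, List.map_map]
  exact List.Nodup.map_on (fun i hi j hj e => h (List.mem_range.1 hi) (List.mem_range.1 hj) e)
    List.nodup_range

omit [DecidableEq α] in
theorem mem_orb {τ : α → α} {b : α → Bool} {x y : α} {c : ℕ} :
    y ∈ (orb τ b x c).map Prod.fst ↔ ∃ i < c, τ^[i] x = y := by
  simp [orb]

/-- Closing up a segment of an orbit. -/
theorem exists_window (σ : Equiv.Perm α) {τ : α → α} {x : α} {c : ℕ}
    (h : Set.InjOn (fun i => τ^[i] x) (Set.Iio (c + 1))) : ∃ T : Equiv.Perm α,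
      (∀ i < c, T (τ^[i] x) = σ (τ^[i + 1] x)) ∧ T (τ^[c] x) = σ x ∧
      ∀ y, (∀ i ≤ c, τ^[i] x ≠ y) → T y = σ y := by
  obtain ⟨π, h1, h2, h3⟩ := exists_perm_path _ _ _ (ch_orb τ (fun _ => false) x c)
    (nodup_orb _ (h.mono fun i hi => lt_trans hi (Nat.lt_succ_self c))) (by
      rw [mem_orb]
      rintro ⟨i, hi, e⟩
      exact hi.ne (h (lt_trans hi (Nat.lt_succ_self c)) (Nat.lt_succ_self c) e))
  refine ⟨σ * π, fun i hi => ?_, by simp [h2], fun y hy => ?_⟩
  · rw [Equiv.Perm.mul_apply,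
      h1 (τ^[i] x, τ^[i + 1] x, false) (List.mem_map.2 ⟨i, List.mem_range.2 hi, rfl⟩)]
  · rw [Equiv.Perm.mul_apply, h3 y (by
      rw [mem_orb]; rintro ⟨i, hi, e⟩; exact hy i hi.le e) (hy c le_rfl).symm]

variable [Fintype α]

omit [DecidableEq α] in
theorem period_pos (τ : Equiv.Perm α) (x : α) : 0 < Function.minimalPeriod τ x :=
  Function.minimalPeriod_pos_of_mem_periodicPts (τ.injective.mem_periodicPts x)

omit [DecidableEq α] in
/-- A sum is at most zero when it is so along every orbit of a permutation. -/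
theorem sum_nonpos_of_orbits (τ : Equiv.Perm α) (f : α → ℝ)
    (h : ∀ x, ∑ i ∈ range (Function.minimalPeriod τ x), f (τ^[i] x) ≤ 0) : ∑ x, f x ≤ 0 := by
  set P := ∏ x, Function.minimalPeriod τ x with hP
  have hP0 : 0 < P := Finset.prod_pos fun x _ => period_pos τ x
  have h1 : ∀ x, ∑ i ∈ range P, f (τ^[i] x) ≤ 0 := by
    intro x
    obtain ⟨c, hc⟩ : Function.minimalPeriod τ x ∣ P := Finset.dvd_prod_of_mem _ (mem_univ x)
    rw [hc]
    clear hc
    induction c with
    | zero => simp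
    | succ c ih =>
      rw [Nat.mul_succ, Finset.sum_range_add]
      have : ∀ i, τ^[Function.minimalPeriod τ x * c + i] x = τ^[i] x := fun i => by
        rw [add_comm, Function.iterate_add_apply,
          ((Function.isPeriodicPt_minimalPeriod τ x).mul_const c).eq]
      simp only [this]
      linarith [h x]
  have h2 : ∑ x, ∑ i ∈ range P, f (τ^[i] x) = P * ∑ x, f x := by
    rw [Finset.sum_comm]
    have : ∀ i, ∑ x, f (τ^[i] x) = ∑ x, f x := fun i => by
      rw [Equiv.Perm.iterate_eq_pow]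
      exact Equiv.sum_comp (τ ^ i) f
    simp [this]
  have h3 : (P : ℝ) * ∑ x, f x ≤ 0 := h2 ▸ Finset.sum_nonpos fun x _ => h1 x
  by_contra h4
  push Not at h4
  have := mul_pos (Nat.cast_pos.2 hP0 : (0 : ℝ) < P) h4
  linarith

theorem sum_list {β : Type} (g : β → α) (l : List β) (hn : (l.map g).Nodup) (f : α → ℝ) :
    ∑ x, (if x ∈ l.map g then f x else 0) = (l.map fun p => f (g p)).sum := by
  rw [← Finset.sum_filter, show (l.map fun p => f (g p)) = (l.map g).map f by simp,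
    ← List.sum_toFinset f hn]
  congr 1
  ext x
  simp

end Pool.Agent.Lib.MP_be0860_lc
end

-- part Pool.Agent.Lib.MP_be0860_lc.Grow
section

/-!
Forcing edges of a fixed perfect matching, the connectivity potential, region growing and
partitions of sequences into windows.
-/

set_option autoImplicit false

namespace Pool.Agent.Lib.MP_be0860_lc

open Finset

variable {α : Type} [Fintype α] [DecidableEq α]

/-- The edges left after forcing the edges of `s` at the vertices of `F`. -/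
def force (s : Equiv.Perm α) (E : α → α → Prop) (F : Finset α) (x y : α) : Prop :=
  E x y ∧ ∀ z ∈ F, (x = z ↔ y = s z)

omit [Fintype α] in
theorem force_force (s : Equiv.Perm α) (E : α → α → Prop) (F G : Finset α) :
    force s (force s E F) G = force s E (F ∪ G) := by
  funext x y
  simp only [force, Finset.mem_union, or_imp, forall_and, and_assoc]

omit [Fintype α] [DecidableEq α] in
theorem force_self {s : Equiv.Perm α} {E : α → α → Prop} (hs : ∀ x, E x (s x)) (F : Finset α)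
    (x : α) : force s E F x (s x) :=
  ⟨hs x, fun _ _ => s.injective.eq_iff.symm⟩

/-- Reachability along alternating paths. -/
def Rel (s : Equiv.Perm α) (E : α → α → Prop) : α → α → Prop :=
  Relation.ReflTransGen fun y z => E y (s z)

open Classical in
/-- The connectivity potential. -/
noncomputable def Phi (s : Equiv.Perm α) (m : α → ℝ) (E : α → α → Prop) : ℝ :=
  ∑ y, ∑ z, if Rel s E y z then m y * m z else 0

omit [DecidableEq α] in
theorem phi_nonneg (s : Equiv.Perm α) {m : α → ℝ} (hm : ∀ x, 0 ≤ m x) (E : α → α → Prop) :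
    0 ≤ Phi s m E :=
  Finset.sum_nonneg fun y _ => Finset.sum_nonneg fun z _ => by
    split_ifs
    · exact mul_nonneg (hm y) (hm z)
    · exact le_rfl

omit [DecidableEq α] in
theorem phi_le (s : Equiv.Perm α) {m : α → ℝ} (hm : ∀ x, 0 ≤ m x) (E : α → α → Prop) :
    Phi s m E ≤ (∑ x, m x) * ∑ x, m x := by
  rw [Finset.sum_mul_sum]
  refine Finset.sum_le_sum fun y _ => Finset.sum_le_sum fun z _ => ?_
  split_ifs
  · exact le_rfl
  · exact mul_nonneg (hm y) (hm z)

theorem phi_drop (s : Equiv.Perm α) {m : α → ℝ} (hm : ∀ x, 0 ≤ m x) (E : α → α → Prop)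
    (G : Finset α) (A : Set α) (hA : ∀ y ∈ A, ∀ z, force s E G y (s z) → z ∈ A)
    (J I : Finset α) (hJ : ∀ y ∈ J, y ∈ A) (hI : ∀ z ∈ I, z ∉ A)
    (hr : ∀ y ∈ J, ∀ z ∈ I, Rel s E y z) :
    Phi s m (force s E G) + (∑ y ∈ J, m y) * ∑ z ∈ I, m z ≤ Phi s m E := by
  have g1 : ∀ y z, Rel s (force s E G) y z → Rel s E y z := by
    intro y z h1
    induction h1 with
    | refl => exact Relation.ReflTransGen.refl
    | tail _ h ih => exact Relation.ReflTransGen.tail ih h.1
  have g2 : ∀ y ∈ A, ∀ z, Rel s (force s E G) y z → z ∈ A := by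
    intro y hy z h1
    induction h1 with
    | refl => exact hy
    | tail _ h ih => exact hA _ ih _ h
  have e : (∑ y ∈ J, m y) * ∑ z ∈ I, m z =
      ∑ y, ∑ z, if y ∈ J ∧ z ∈ I then m y * m z else 0 := by
    rw [← Finset.sum_ite_mem_eq, ← Finset.sum_ite_mem_eq I, Finset.sum_mul_sum]
    refine Finset.sum_congr rfl fun y _ => Finset.sum_congr rfl fun z _ => ?_
    by_cases h1 : y ∈ J <;> by_cases h2 : z ∈ I <;> simp [h1, h2]
  rw [e, Phi, Phi, ← Finset.sum_add_distrib]
  refine Finset.sum_le_sum fun y _ => ?_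
  rw [← Finset.sum_add_distrib]
  refine Finset.sum_le_sum fun z _ => ?_
  have h0 := mul_nonneg (hm y) (hm z)
  by_cases h1 : Rel s (force s E G) y z
  · have h2 := g1 y z h1
    have h3 : ¬ (y ∈ J ∧ z ∈ I) := fun h => hI z h.2 (g2 y (hJ y h.1) z h1)
    simp [h1, h2, h3]
  · by_cases h3 : y ∈ J ∧ z ∈ I
    · simp [h1, h3, hr y h3.1 z h3.2]
    · rw [if_neg h1, if_neg h3, add_zero]
      split_ifs
      · exact h0
      · exact le_rfl

omit [DecidableEq α] in
open Classical in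
/-- Region growing. -/
theorem grow (P : α → ℕ → Prop) (c : α → ℕ) (β δ r : ℕ) (hδ : 0 < δ) (h : ∑ z, c z ≤ r * δ) :
    ∃ t, β ≤ t ∧ t < β + δ ∧ #{z | P z t ∧ ¬ ∃ t', P z t' ∧ t' + c z ≤ t} ≤ r := by
  have h1 : ∀ z, #{t ∈ Ico β (β + δ) | P z t ∧ ¬ ∃ t', P z t' ∧ t' + c z ≤ t} ≤ c z := by
    intro z
    by_cases hz : ∃ t, P z t
    · refine le_trans (Finset.card_le_card (t := Ico (Nat.find hz) (Nat.find hz + c z)) ?_)
        (by simp)
      intro t ht
      rw [Finset.mem_filter] at ht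
      rw [Finset.mem_Ico]
      refine ⟨Nat.find_min' hz ht.2.1, ?_⟩
      by_contra h2
      exact ht.2.2 ⟨_, Nat.find_spec hz, not_lt.1 h2⟩
    · rw [Finset.card_eq_zero.2]
      · exact Nat.zero_le _
      · exact Finset.filter_eq_empty_iff.2 fun t _ ht => hz ⟨t, ht.1⟩
  have h2 : ∑ t ∈ Ico β (β + δ), #{z | P z t ∧ ¬ ∃ t', P z t' ∧ t' + c z ≤ t} ≤
      ∑ _t ∈ Ico β (β + δ), r := by
    simp only [Finset.card_filter] at h1 ⊢
    rw [Finset.sum_comm]
    refine (Finset.sum_le_sum fun z _ => h1 z).trans (h.trans ?_)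
    simp [mul_comm]
  obtain ⟨t, ht, h3⟩ := Finset.exists_le_of_sum_le (by simp; omega) h2
  rw [Finset.mem_Ico] at ht
  exact ⟨t, ht.1, ht.2, h3⟩

theorem exists_prefix {f : ℕ → ℝ} {η θ : ℝ} (hη : 0 ≤ η) (hθ : 0 ≤ θ) : ∀ c : ℕ,
    (∀ i < c, f i ≤ η) → θ ≤ ∑ i ∈ range c, f i →
    ∃ j ≤ c, θ ≤ ∑ i ∈ range j, f i ∧ ∑ i ∈ range j, f i ≤ θ + η := by
  intro c
  induction c with
  | zero => intro _ h; exact ⟨0, le_rfl, h, by simp; linarith⟩
  | succ c ih =>
    intro hf h
    by_cases h1 : θ ≤ ∑ i ∈ range c, f i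
    · obtain ⟨j, hj, h2⟩ := ih (fun i hi => hf i (by omega)) h1
      exact ⟨j, by omega, h2⟩
    · refine ⟨c + 1, le_rfl, h, ?_⟩
      rw [Finset.sum_range_succ]
      linarith [hf c (by omega)]

/-- Cutting a sequence into windows of moderate measure. -/
theorem windows {f g : ℕ → ℝ} {θ D : ℝ} {L : ℕ} (hθ : 0 < θ) (hD : 0 ≤ D)
    (hf : ∀ i < L, f i ≤ θ)
    (H : ∀ i c, i + c ≤ L → θ ≤ ∑ j ∈ range c, f (i + j) → ∑ j ∈ range c, f (i + j) ≤ 3 * θ →
      ∑ j ∈ range c, g (i + j) ≤ D) : ∀ c i, i + c ≤ L → θ ≤ ∑ j ∈ range c, f (i + j) →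
      θ * ∑ j ∈ range c, g (i + j) ≤ D * ∑ j ∈ range c, f (i + j) := by
  intro c
  induction c using Nat.strong_induction_on with
  | _ c ih =>
    intro i hi h
    by_cases h1 : ∑ j ∈ range c, f (i + j) ≤ 3 * θ
    · have := H i c hi h h1
      nlinarith
    obtain ⟨j, hj, h2, h3⟩ := exists_prefix (f := fun j => f (i + j)) hθ.le hθ.le c
      (fun j hj => hf _ (by omega)) h
    obtain ⟨d, rfl⟩ := Nat.exists_eq_add_of_le hj
    have hj0 : 0 < j := by
      rcases Nat.eq_zero_or_pos j with rfl | h4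
      · simp at h2; linarith
      · exact h4
    simp only [Finset.sum_range_add, ← add_assoc] at h1 h ⊢
    have h4 := H i j (by omega) h2 (by linarith)
    have h5 := ih d (by omega) (i + j) (by omega) (by linarith)
    nlinarith

end Pool.Agent.Lib.MP_be0860_lc
end

-- part Pool.Agent.Lib.MP_be0860_lc.Core
section

/-!
The structure theorem: after forcing boundedly many edges of an optimal solution, every labelled
perfect matching that is far from the optimum is improved by a move with few new red edges.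
-/

set_option autoImplicit false

namespace Pool.Agent.Lib.MP_be0860_lc

open Finset

variable {α : Type} [Fintype α] [DecidableEq α]

/-- The value of a vertex matched along a red or a blue copy of an edge. -/
def nv (w : α → α → ℕ) (a b : ℝ) (x y : α) (c : Bool) : ℝ := if c then a * w x y else b

/-- The weight of the red edges. -/
def wt (w : α → α → ℕ) (σ : Equiv.Perm α) (ρ : α → Bool) : ℕ :=
  ∑ x, if ρ x then w x (σ x) else 0

/-- No move with at most `N` new red edges improves the value. -/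
def Stuck (E : α → α → Prop) (w : α → α → ℕ) (a b : ℝ) (N : ℕ) (σ : Equiv.Perm α)
    (ρ : α → Bool) : Prop :=
  ∀ (σ' : Equiv.Perm α) (ρ' : α → Bool), (∀ x, E x (σ' x)) → #{x | ρ' x ∧ σ' x ≠ σ x} ≤ N →
    ∑ x, nv w a b x (σ' x) (ρ' x) ≤ ∑ x, nv w a b x (σ x) (ρ x)

/-- The measure carried by the optimal solution. -/
noncomputable def ms (w : α → α → ℕ) (s : Equiv.Perm α) (R : α → Bool) (x : α) : ℝ :=
  if R x then 1 / (#{x | R x} : ℕ) + w x (s x) / (wt w s R : ℕ) else 0

section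
variable {w : α → α → ℕ} {s : Equiv.Perm α} {R : α → Bool}

omit [DecidableEq α] in
theorem ms_nonneg (x : α) : 0 ≤ ms w s R x := by
  unfold ms
  split_ifs <;> positivity

omit [DecidableEq α] in
theorem sum_ms (Q : Finset α) : ∑ x ∈ Q, ms w s R x = (#{x ∈ Q | R x} : ℕ) / (#{x | R x} : ℕ) +
    ((∑ x ∈ Q, if R x then w x (s x) else 0 : ℕ) : ℝ) / (wt w s R : ℕ) := by
  rw [Finset.card_filter]
  push_cast
  rw [Finset.sum_div, Finset.sum_div, ← Finset.sum_add_distrib]
  refine Finset.sum_congr rfl fun x _ => ?_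
  unfold ms
  split_ifs <;> simp

omit [DecidableEq α] in
theorem sum_ms_le : ∑ x, ms w s R x ≤ 2 := by
  rw [sum_ms]
  have h1 := div_self_le_one ((#{x | R x} : ℕ) : ℝ)
  have h2 := div_self_le_one ((wt w s R : ℕ) : ℝ)
  unfold wt at h2 ⊢
  linarith

variable {E : α → α → Prop} {a b : ℝ} {N q : ℕ} {σ : Equiv.Perm α} {ρ : α → Bool}

/-- The cost of giving up the target edge at a vertex. -/
def cst (w : α → α → ℕ) (s : Equiv.Perm α) (R : α → Bool) (σ : Equiv.Perm α) (ρ : α → Bool)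
    (Q : Finset α) (x : α) : ℕ :=
  if x ∈ Q then (if R x then w x (s x) else 0) else if ρ x then w x (σ x) else 0

theorem use_move (hb : 0 ≤ b) (hst : Stuck E w a b N σ ρ) (Q X : Finset α) (σ' : Equiv.Perm α)
    (hE : ∀ x, E x (σ' x)) (h : ∀ x, x ∉ X → σ' x = if x ∈ Q then s x else σ x)
    (hQ : #{x ∈ Q | R x} ≤ N) :
    ∑ x ∈ Q, (nv w a b x (s x) (R x) - nv w a b x (σ x) (ρ x)) ≤
      a * (∑ x ∈ X, cst w s R σ ρ Q x : ℕ) := by
  have h1 := hst σ' (fun x => if x ∈ X then false else if x ∈ Q then R x else ρ x) hE (by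
    refine le_trans (Finset.card_le_card fun x hx => ?_) hQ
    simp only [Finset.mem_filter, Finset.mem_univ, true_and] at hx ⊢
    by_cases h1 : x ∈ X
    · simp [h1] at hx
    by_cases h2 : x ∈ Q
    · exact ⟨h2, by simpa [h1, h2] using hx.1⟩
    · simp [h x h1, h2] at hx)
  push_cast
  rw [Finset.mul_sum, ← Finset.sum_ite_mem_eq, ← Finset.sum_ite_mem_eq X]
  have h2 : ∑ x, (nv w a b x (σ x) (ρ x) + ((if x ∈ Q then
      (nv w a b x (s x) (R x) - nv w a b x (σ x) (ρ x)) else 0) -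
      if x ∈ X then a * (cst w s R σ ρ Q x : ℝ) else 0)) ≤ ∑ x, nv w a b x (σ' x)
        (if x ∈ X then false else if x ∈ Q then R x else ρ x) := by
    refine Finset.sum_le_sum fun x _ => ?_
    by_cases h1 : x ∈ X
    · by_cases h2 : x ∈ Q
      · cases h3 : R x <;> simp [h1, h2, h3, nv, cst, hb]
      · cases h3 : ρ x <;> simp [h1, h2, h3, nv, cst, hb]
    · by_cases h2 : x ∈ Q <;> simp [h1, h2, h x h1]
  rw [Finset.sum_add_distrib, Finset.sum_sub_distrib] at h2
  linarith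

omit [Fintype α] [DecidableEq α] in
theorem orbit_succ (σ s : Equiv.Perm α) (x : α) (i : ℕ) :
    σ ((σ⁻¹ * s : Equiv.Perm α)^[i + 1] x) = s ((σ⁻¹ * s : Equiv.Perm α)^[i] x) := by
  rw [Function.iterate_succ_apply']
  exact σ.apply_symm_apply _

omit [Fintype α] [DecidableEq α] in
theorem rel_orbit (hσ : ∀ x, E x (σ x)) (x : α) {i j : ℕ} (h : i ≤ j) :
    Rel s E ((σ⁻¹ * s : Equiv.Perm α)^[j] x) ((σ⁻¹ * s : Equiv.Perm α)^[i] x) := by
  induction j, h using Nat.le_induction with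
  | base => exact Relation.ReflTransGen.refl
  | succ j _ ih =>
    refine Relation.ReflTransGen.head ?_ ih
    rw [← orbit_succ]
    exact hσ _

/-- A window of an orbit can be patched cheaply, or a small set of edges separates its ends. -/
theorem window (hs : ∀ x, E x (s x)) (hσ : ∀ x, E x (σ x)) (hO : 0 < wt w s R)
    (hW : wt w σ ρ ≤ wt w s R) (ha : 0 ≤ a) (hb : 0 ≤ b) (hq : 2 ≤ q)
    (hk : 0 < #{x | R x}) (hN : 3 * #{x | R x} ≤ q * N) (hst : Stuck E w a b N σ ρ)
    (x : α) (c : ℕ)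
    (hi : Set.InjOn (fun i => (σ⁻¹ * s : Equiv.Perm α)^[i] x) (Set.Iio c))
    (hm : ∀ i < c, ms w s R ((σ⁻¹ * s : Equiv.Perm α)^[i] x) ≤ 1 / (q : ℝ) ^ 2)
    (h1 : 1 / (q : ℝ) ≤ ∑ i ∈ range c, ms w s R ((σ⁻¹ * s : Equiv.Perm α)^[i] x))
    (h3 : ∑ i ∈ range c, ms w s R ((σ⁻¹ * s : Equiv.Perm α)^[i] x) ≤ 3 * (1 / (q : ℝ))) :
    (∑ i ∈ range c, (nv w a b ((σ⁻¹ * s : Equiv.Perm α)^[i] x)
        (s ((σ⁻¹ * s : Equiv.Perm α)^[i] x)) (R ((σ⁻¹ * s : Equiv.Perm α)^[i] x)) -
      nv w a b ((σ⁻¹ * s : Equiv.Perm α)^[i] x) (σ ((σ⁻¹ * s : Equiv.Perm α)^[i] x))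
        (ρ ((σ⁻¹ * s : Equiv.Perm α)^[i] x))) ≤ 6 * a * wt w s R / (q : ℝ) ^ 2) ∨
    ∃ G : Finset α, #G ≤ q ^ 2 ∧
      Phi s (ms w s R) (force s E G) + 1 / (q : ℝ) ^ 4 ≤ Phi s (ms w s R) E := by
  classical
  have hq0 : (0 : ℝ) < q := by positivity
  have hq2 : (2 : ℝ) ≤ q := by exact_mod_cast hq
  set τ : Equiv.Perm α := σ⁻¹ * s with hτ
  set u : ℕ → α := fun i => τ^[i] x with hu
  have hsu : ∀ i, σ (u (i + 1)) = s (u i) := orbit_succ σ s x
  change ∀ i < c, ms w s R (u i) ≤ _ at hm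
  change _ ≤ ∑ i ∈ range c, ms w s R (u i) at h1
  change ∑ i ∈ range c, ms w s R (u i) ≤ _ at h3
  change (∑ i ∈ range c, (nv w a b (u i) (s (u i)) (R (u i)) -
    nv w a b (u i) (σ (u i)) (ρ (u i))) ≤ _) ∨ _
  have hη : (0 : ℝ) < 1 / (q : ℝ) ^ 2 := by positivity
  have hη2 : 2 * (1 / (q : ℝ) ^ 2) ≤ 1 / (q : ℝ) := by
    rw [mul_one_div, div_le_div_iff₀ (by positivity) hq0]
    nlinarith
  obtain ⟨c, rfl⟩ : ∃ d, c = d + 1 := by
    rcases c with _ | d
    · simp only [range_zero, sum_empty] at h1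
      linarith
    · exact ⟨d, rfl⟩
  have himg : ∀ {S : Finset ℕ} {M : Type} [AddCommMonoid M] (f : α → M), S ⊆ range (c + 1) →
      ∑ y ∈ S.image u, f y = ∑ i ∈ S, f (u i) := fun f hS =>
    Finset.sum_image fun i hi' j hj e => hi (mem_range.1 (hS hi')) (mem_range.1 (hS hj)) e
  obtain ⟨T, hT1, hT2, hT3⟩ := exists_window σ hi
  change ∀ i < c, T (u i) = σ (u (i + 1)) at hT1
  change T (u c) = σ (u 0) at hT2
  change ∀ y, (∀ i ≤ c, u i ≠ y) → T y = σ y at hT3
  set Q := (range (c + 1)).image u with hQ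
  have hT4 : ∀ y, y ≠ u c → T y = if y ∈ Q then s y else σ y := by
    intro y hy
    split_ifs with h
    · obtain ⟨i, hi', rfl⟩ := Finset.mem_image.1 h
      have : i ≠ c := fun e => hy (e ▸ rfl)
      rw [hT1 i (by have := mem_range.1 hi'; omega), hsu]
    · exact hT3 y fun i hi' e => h (Finset.mem_image.2 ⟨i, mem_range.2 (by omega), e⟩)
  have hQN : #{x ∈ Q | R x} ≤ N := by
    have e1 := sum_ms (w := w) (s := s) (R := R) Q
    rw [himg _ subset_rfl] at e1
    have e2 : ((#{x ∈ Q | R x} : ℕ) : ℝ) / (#{x | R x} : ℕ) ≤ 3 * (1 / (q : ℝ)) := by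
      have : (0 : ℝ) ≤ ((∑ x ∈ Q, if R x then w x (s x) else 0 : ℕ) : ℝ) / (wt w s R : ℕ) := by
        positivity
      linarith
    rw [mul_one_div, div_le_div_iff₀ (by exact_mod_cast hk) hq0] at e2
    have e3 : #{x ∈ Q | R x} * q ≤ 3 * #{x | R x} := by exact_mod_cast e2
    exact Nat.le_of_mul_le_mul_left (by linarith) (by omega : 0 < q)
  set ct := cst w s R σ ρ Q with hct
  have hcs : ∀ S ⊆ range (c + 1), ∑ i ∈ S, ms w s R (u i) ≤ 2 * (1 / (q : ℝ) ^ 2) →
      q ^ 2 * ∑ i ∈ S, ct (u i) ≤ 2 * wt w s R := by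
    intro S hS h
    have e1 := sum_ms (w := w) (s := s) (R := R) (S.image u)
    rw [himg _ hS, himg _ hS] at e1
    have e2 : ∑ i ∈ S, ct (u i) = ∑ i ∈ S, if R (u i) then w (u i) (s (u i)) else 0 :=
      Finset.sum_congr rfl fun i hi' => by
        rw [hct, cst, if_pos (Finset.mem_image_of_mem _ (hS hi'))]
    rw [← e2] at e1
    have e3 : ((∑ i ∈ S, ct (u i) : ℕ) : ℝ) / (wt w s R : ℕ) ≤ 2 * (1 / (q : ℝ) ^ 2) := by
      have : (0 : ℝ) ≤ ((#{x ∈ S.image u | R x} : ℕ) : ℝ) / (#{x | R x} : ℕ) := by positivity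
      linarith
    rw [mul_one_div, div_le_div_iff₀ (by exact_mod_cast hO) (by positivity), mul_comm] at e3
    exact_mod_cast e3
  obtain ⟨i₀, hi₀, hI1, hI2⟩ := exists_prefix hη.le hη.le (c + 1) hm (by linarith)
  obtain ⟨j₀, hj₀, hJ1, hJ2⟩ := exists_prefix hη.le
    (θ := ∑ i ∈ range (c + 1), ms w s R (u i) - 2 * (1 / (q : ℝ) ^ 2)) (by linarith) (c + 1) hm
    (by linarith)
  have hsplit := Finset.sum_range_add_sum_Ico (fun i => ms w s R (u i)) hj₀
  have hJs : Ico j₀ (c + 1) ⊆ range (c + 1) := fun i hi' => mem_range.2 (mem_Ico.1 hi').2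
  have hIs : range i₀ ⊆ range (c + 1) := Finset.range_mono hi₀
  have hβI := hcs _ hIs (by linarith)
  have hβJ := hcs _ hJs (by linarith)
  -- walks starting from the end of the window
  let P : α → ℕ → Prop := fun y t => ∃ l, Ch (u c) l y ∧ (∀ p ∈ l, E p.1 (T p.2.1)) ∧
    (l.map fun p => q ^ 2 * ct p.1).sum ≤ t
  have hPs : ∀ y z t, P y t → E y (T z) → ∃ l, Ch (u c) l z ∧ (∀ p ∈ l, E p.1 (T p.2.1)) ∧
      (l.map fun p => q ^ 2 * ct p.1).sum ≤ t + q ^ 2 * ct y ∧ l ≠ [] := by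
    rintro y z t ⟨l, e1, e2, e3⟩ e
    refine ⟨l ++ [(y, z, false)], ch_append.2 ⟨y, e1, rfl, rfl⟩, fun p hp => ?_, ?_, by simp⟩
    · rcases List.mem_append.1 hp with hp | hp
      · exact e2 p hp
      · rw [List.mem_singleton.1 hp]; exact e
    · simpa using e3
  have hPs' : ∀ y z t, P y t → E y (T z) → P z (t + q ^ 2 * ct y) := fun y z t e1 e2 => by
    obtain ⟨l, e3, e4, e5, -⟩ := hPs y z t e1 e2
    exact ⟨l, e3, e4, e5⟩
  have hPm : ∀ y t t', P y t → t ≤ t' → P y t' := by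
    rintro y t t' ⟨l, e1, e2, e3⟩ e
    exact ⟨l, e1, e2, e3.trans e⟩
  have hback : ∀ i ≤ c, ∀ t, P (u i) t → ∀ d j, j + d = i →
      P (u j) (t + q ^ 2 * ∑ i' ∈ Ico (j + 1) (i + 1), ct (u i')) := by
    intro i hic t e d
    induction d with
    | zero => intro j hj; obtain rfl : j = i := hj; simpa using e
    | succ d ih =>
      intro j hj
      have e1 := hPs' _ (u j) _ (ih (j + 1) (by omega)) (by rw [hT1 j (by omega)]; exact hσ _)
      rw [Finset.sum_eq_sum_Ico_succ_bot (by omega : j + 1 < i + 1)]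
      exact hPm _ _ _ e1 (le_of_eq (by ring))
  have hsum : ∑ z, q ^ 2 * ct z ≤ q ^ 2 * (2 * wt w s R) := by
    rw [← Finset.mul_sum]
    refine Nat.mul_le_mul_left _ (le_trans ?_ (by omega : wt w s R + wt w σ ρ ≤ _))
    rw [wt, wt, ← Finset.sum_add_distrib]
    refine Finset.sum_le_sum fun z _ => ?_
    rw [hct, cst]
    split_ifs <;> omega
  obtain ⟨t, ht1, ht2, ht3⟩ := grow P (fun z => q ^ 2 * ct z)
    (q ^ 2 * ∑ i ∈ Ico j₀ (c + 1), ct (u i)) (2 * wt w s R) (q ^ 2) (by omega) hsum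
  let A : Set α := {z | ∃ t', P z t' ∧ t' + q ^ 2 * ct z ≤ t}
  by_cases hA : ∃ i < i₀, u i ∈ A
  · left
    obtain ⟨i, hi', t', e1, e2⟩ := hA
    obtain ⟨l, e3, e4, e5, e6⟩ := hPs _ (u c) _ (hback i (by omega) t' e1 i 0 (by omega))
      (by rw [hT2]; exact hσ _)
    have e7 : (l.map fun p => q ^ 2 * ct p.1).sum ≤ 6 * wt w s R := by
      have f1 : ∑ i' ∈ Ico (0 + 1) (i + 1), ct (u i') + ct (u 0) =
          ∑ i' ∈ range i, ct (u i') + ct (u i) := by
        rw [← Finset.sum_range_succ, Finset.range_eq_Ico,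
          Finset.sum_eq_sum_Ico_succ_bot (by omega : 0 < i + 1), add_comm]
      have f2 : ∑ i' ∈ range i, ct (u i') ≤ ∑ i' ∈ range i₀, ct (u i') :=
        Finset.sum_le_sum_of_subset (Finset.range_mono hi'.le)
      have f3 := Nat.mul_le_mul_left (q ^ 2) f2
      have f4 := congrArg (q ^ 2 * ·) f1
      simp only [mul_add] at f4
      omega
    obtain ⟨B, A', f1, f2, f3, f4⟩ := ch_simple _ l le_rfl e3 e6
    obtain ⟨σ', f5, f6⟩ := exists_move T f1 f3
    have hv : u c ∈ B.map Prod.fst := by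
      rcases B with _ | ⟨p, B⟩
      · exact absurd rfl f2
      · rw [← f1.1]; simp
    have f7 := use_move (s := s) (R := R) hb hst Q (B.map Prod.fst).toFinset σ' (fun y => by
      by_cases hy : y ∈ B.map Prod.fst
      · obtain ⟨p, hp, rfl⟩ := List.mem_map.1 hy
        rw [f5 p hp]
        exact e4 p (f4.symm.subset (List.mem_append_right _ hp))
      · rw [f6 y hy, hT4 y fun e => hy (e ▸ hv)]
        split_ifs
        · exact hs y
        · exact hσ y) (fun y hy => by
      rw [List.mem_toFinset] at hy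
      rw [f6 y hy, hT4 y fun e => hy (e ▸ hv)]) hQN
    rw [hQ, himg _ subset_rfl, ← hQ, ← hct] at f7
    have f8 : q ^ 2 * ∑ y ∈ (B.map Prod.fst).toFinset, ct y ≤ 6 * wt w s R := by
      rw [List.sum_toFinset _ f3, ← List.sum_map_mul_left, List.map_map]
      have := (f4.map fun p => q ^ 2 * ct p.1).sum_eq
      rw [List.map_append, List.sum_append] at this
      exact le_trans (le_trans (Nat.le_add_left _ _) this.ge) e7
    refine f7.trans ?_
    rw [le_div_iff₀ (by positivity)]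
    have f9 : (q : ℝ) ^ 2 * ((∑ y ∈ (B.map Prod.fst).toFinset, ct y : ℕ) : ℝ) ≤
        6 * (wt w s R : ℕ) := by exact_mod_cast f8
    nlinarith
  · right
    let Bs : Finset α := {z | ∃ y ∈ A, E y (s z)}
    let As : Finset α := {z | z ∈ A}
    have hAB : As ⊆ Bs := fun z hz => by
      simp only [As, Bs, mem_filter, mem_univ, true_and] at hz ⊢
      exact ⟨z, hz, hs z⟩
    have hcard : #Bs ≤ #As + q ^ 2 := by
      refine le_trans ?_ ((Finset.card_union_le _ _).trans (Nat.add_le_add_left ht3 _))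
      refine Finset.card_le_card_of_injOn (fun z => T⁻¹ (s z)) (fun z hz => ?_)
        (fun _ _ _ _ e => s.injective (T⁻¹.injective e))
      simp only [As, Bs, coe_filter, mem_univ, true_and, Set.mem_ofPred_eq, coe_union,
        Set.mem_union] at hz ⊢
      obtain ⟨y, ⟨t', e1, e2⟩, e3⟩ := hz
      by_cases h : T⁻¹ (s z) ∈ A
      · exact Or.inl h
      · exact Or.inr ⟨hPm _ _ _ (hPs' _ _ _ e1 (by simpa using e3)) e2, h⟩
    have hJA : ∀ j ∈ Ico j₀ (c + 1), u j ∈ A := by
      intro j hj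
      rw [mem_Ico] at hj
      refine ⟨_, hback c le_rfl 0 ⟨[], rfl, by simp, by simp⟩ (c - j) j (by omega),
        le_trans ?_ ht1⟩
      rw [zero_add, ← mul_add, add_comm, ← Finset.sum_eq_sum_Ico_succ_bot hj.2 fun i => ct (u i)]
      exact Nat.mul_le_mul_left _ (Finset.sum_le_sum_of_subset (Finset.Ico_subset_Ico hj.1 le_rfl))
    refine ⟨Bs \ As, by rw [Finset.card_sdiff_of_subset hAB]; omega, le_trans ?_
      (phi_drop s ms_nonneg E (Bs \ As) A (fun y hy z hz => ?_) ((Ico j₀ (c + 1)).image u)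
        ((range i₀).image u) (fun y hy => ?_) (fun z hz hz' => ?_) fun y hy z hz => ?_)⟩
    · rw [himg _ hJs, himg _ hIs]
      have : 1 / (q : ℝ) ^ 4 = 1 / (q : ℝ) ^ 2 * (1 / (q : ℝ) ^ 2) := by field_simp
      rw [this]
      gcongr
      · exact Finset.sum_nonneg fun _ _ => ms_nonneg _
      · linarith
    · by_contra h
      have h' : z ∈ Bs \ As := by
        simp only [As, Bs, mem_sdiff, mem_filter, mem_univ, true_and]
        exact ⟨⟨y, hy, hz.1⟩, h⟩
      exact h (((hz.2 z h').2 rfl) ▸ hy)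
    · obtain ⟨j, hj, rfl⟩ := Finset.mem_image.1 hy
      exact hJA j hj
    · obtain ⟨i, hi', rfl⟩ := Finset.mem_image.1 hz
      exact hA ⟨i, mem_range.1 hi', hz'⟩
    · obtain ⟨j, hj, rfl⟩ := Finset.mem_image.1 hy
      obtain ⟨i, hi', rfl⟩ := Finset.mem_image.1 hz
      refine rel_orbit hσ x ?_
      by_contra h
      rw [mem_range] at hi'
      rw [mem_Ico] at hj
      exact hA ⟨i, hi', hJA i (mem_Ico.2 ⟨by omega, by omega⟩)⟩

theorem small_cycle (hs : ∀ x, E x (s x)) (hσ : ∀ x, E x (σ x)) (hb : 0 ≤ b)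
    (hst : Stuck E w a b N σ ρ) (x : α) (c : ℕ)
    (hi : Set.InjOn (fun i => (σ⁻¹ * s : Equiv.Perm α)^[i] x) (Set.Iio (c + 1)))
    (hc : (σ⁻¹ * s : Equiv.Perm α)^[c + 1] x = x) (Q : Finset α)
    (hQ : Q = (range (c + 1)).image fun i => (σ⁻¹ * s : Equiv.Perm α)^[i] x)
    (hN : #{x ∈ Q | R x} ≤ N) :
    ∑ y ∈ Q, (nv w a b y (s y) (R y) - nv w a b y (σ y) (ρ y)) ≤ 0 := by
  obtain ⟨T, hT1, hT2, hT3⟩ := exists_window σ hi
  have hT4 : ∀ y, T y = if y ∈ Q then s y else σ y := by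
    intro y
    split_ifs with h
    · rw [hQ] at h
      obtain ⟨i, hi', rfl⟩ := Finset.mem_image.1 h
      rcases Nat.lt_succ_iff_lt_or_eq.1 (mem_range.1 hi') with h1 | rfl
      · rw [hT1 i h1, orbit_succ]
      · rw [hT2, ← orbit_succ σ s, hc]
    · exact hT3 y fun i hi' e => h (hQ ▸ Finset.mem_image.2 ⟨i, mem_range.2 (by omega), e⟩)
  simpa using use_move (s := s) (R := R) hb hst Q ∅ T (fun y => by
    rw [hT4]
    split_ifs
    · exact hs y
    · exact hσ y) (fun y _ => hT4 y) hN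

/-- A stuck solution is almost as good as the optimum, or the potential can be decreased. -/
theorem stuck_or_drop (hs : ∀ x, E x (s x)) (hσ : ∀ x, E x (σ x)) (hO : 0 < wt w s R)
    (hW : wt w σ ρ ≤ wt w s R) (ha : 0 ≤ a) (hb : 0 ≤ b) (hq : 2 ≤ q)
    (hk : 0 < #{x | R x}) (hN : 3 * #{x | R x} ≤ q * N) (hst : Stuck E w a b N σ ρ) :
    (q : ℝ) * (∑ x, nv w a b x (s x) (R x) - ∑ x, nv w a b x (σ x) (ρ x)) ≤
      12 * a * wt w s R ∨
    ∃ G : Finset α, #G ≤ q ^ 2 ∧
      Phi s (ms w s R) (force s E G) + 1 / (q : ℝ) ^ 4 ≤ Phi s (ms w s R) E := by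
  rw [or_iff_not_imp_right]
  intro hno
  have hq0 : (0 : ℝ) < q := by positivity
  have hq2 : (2 : ℝ) ≤ q := by exact_mod_cast hq
  have hk' : (0 : ℝ) < (#{x | R x} : ℕ) := by exact_mod_cast hk
  have hD : (0 : ℝ) ≤ 6 * a * wt w s R / (q : ℝ) ^ 2 := by positivity
  have hη : 1 / (q : ℝ) ^ 2 ≤ 1 / (q : ℝ) := by
    rw [div_le_div_iff₀ (by positivity) hq0]
    nlinarith
  have key := sum_nonpos_of_orbits (σ⁻¹ * s) (fun x => 1 / (q : ℝ) *
      (nv w a b x (s x) (R x) - nv w a b x (σ x) (ρ x)) -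
      6 * a * wt w s R / (q : ℝ) ^ 2 * ms w s R x) (fun x => by
    obtain ⟨c, hc⟩ : ∃ c, Function.minimalPeriod (σ⁻¹ * s : Equiv.Perm α) x = c + 1 :=
      ⟨_, (Nat.succ_pred_eq_of_pos (period_pos _ x)).symm⟩
    have hi := Function.iterate_injOn_Iio_minimalPeriod (f := (σ⁻¹ * s : Equiv.Perm α)) (x := x)
    have hp := (Function.isPeriodicPt_minimalPeriod (σ⁻¹ * s : Equiv.Perm α) x).eq
    rw [hc] at hi hp ⊢
    set u : ℕ → α := fun i => (σ⁻¹ * s : Equiv.Perm α)^[i] x with hu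
    have himg : ∀ f : α → ℝ, ∑ y ∈ (range (c + 1)).image u, f y = ∑ i ∈ range (c + 1), f (u i) :=
      fun f => Finset.sum_image fun i hi' j hj e => hi (mem_range.1 hi') (mem_range.1 hj) e
    rw [Finset.sum_sub_distrib, ← Finset.mul_sum, ← Finset.mul_sum, sub_nonpos]
    have hm0 : 0 ≤ ∑ i ∈ range (c + 1), ms w s R (u i) := Finset.sum_nonneg fun _ _ => ms_nonneg _
    by_cases hsm : #{y ∈ (range (c + 1)).image u | R y} ≤ N
    · have h1 := small_cycle hs hσ hb hst x c hi hp _ rfl hsm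
      rw [himg] at h1
      exact le_trans (mul_nonpos_of_nonneg_of_nonpos (by positivity) h1) (mul_nonneg hD hm0)
    have hbig : ∀ S : Finset α, N ≤ #{y ∈ S | R y} → 1 / (q : ℝ) ≤ ∑ y ∈ S, ms w s R y := by
      intro S hS
      rw [sum_ms]
      have e1 : 1 / (q : ℝ) ≤ (#{y ∈ S | R y} : ℕ) / (#{x | R x} : ℕ) := by
        rw [div_le_div_iff₀ hq0 hk']
        have : 1 * #{x | R x} ≤ #{y ∈ S | R y} * q := by nlinarith
        exact_mod_cast this
      have : (0 : ℝ) ≤ ((∑ x ∈ S, if R x then w x (s x) else 0 : ℕ) : ℝ) / (wt w s R : ℕ) := by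
        positivity
      linarith
    have hl : ∀ i < c + 1, ms w s R (u i) ≤ 1 / (q : ℝ) ^ 2 := by
      intro i hi'
      by_contra h
      refine hno ⟨{u i}, by simpa using Nat.one_le_pow _ _ (by omega), le_trans ?_
        (phi_drop s ms_nonneg E {u i} {u i} (fun y hy z hz => ?_) {u i}
          (((range (c + 1)).image u).erase (u i)) (by simp) (fun z hz => by
            simpa using (Finset.mem_erase.1 hz).1) fun y hy z hz => ?_)⟩
      · have e1 := hbig (((range (c + 1)).image u).erase (u i)) (by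
          rw [Finset.filter_erase]
          have := Finset.pred_card_le_card_erase (s := {y ∈ (range (c + 1)).image u | R y})
            (a := u i)
          omega)
        have : 1 / (q : ℝ) ^ 4 = 1 / (q : ℝ) ^ 2 * (1 / (q : ℝ) ^ 2) := by field_simp
        rw [this, Finset.sum_singleton]
        gcongr
        · exact ms_nonneg _
        · exact (not_le.1 h).le
        · linarith
      · exact s.injective ((hz.2 (u i) (by simp)).1 hy)
      · obtain ⟨j, hj, rfl⟩ := Finset.mem_image.1 (Finset.mem_erase.1 hz).2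
        rw [Finset.mem_singleton.1 hy]
        have e1 : u i = u (i + (c + 1)) := by
          simp only [hu]
          rw [Function.iterate_add_apply, hp]
        rw [e1]
        exact rel_orbit hσ x (by have := mem_range.1 hj; omega)
    have := windows (f := fun i => ms w s R (u i)) (g := fun i => nv w a b (u i) (s (u i))
      (R (u i)) - nv w a b (u i) (σ (u i)) (ρ (u i))) (L := c + 1) (θ := 1 / (q : ℝ))
      (by positivity) hD (fun i hi' => (hl i hi').trans hη) (fun i d hd e1 e2 => by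
        have e : ∀ j, u (i + j) = (σ⁻¹ * s : Equiv.Perm α)^[j] (u i) := fun j => by
          simp only [hu]
          rw [add_comm, Function.iterate_add_apply]
        simp only [e] at e1 e2 ⊢
        refine (window hs hσ hO hW ha hb hq hk hN hst (u i) d (fun j hj j' hj' e' => ?_)
          (fun j hj => ?_) e1 e2).resolve_right hno
        · simp only [← e] at e'
          have h1 : j < d := hj
          have h2 : j' < d := hj'
          have := hi (show i + j < c + 1 by omega) (show i + j' < c + 1 by omega) e'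
          omega
        · rw [← e]; exact hl _ (by omega)) (c + 1) 0 (by omega) (by
        simp only [zero_add]
        rw [← himg]
        exact hbig _ (not_le.1 hsm).le)
    simpa only [zero_add] using this)
  rw [Finset.sum_sub_distrib, ← Finset.mul_sum, ← Finset.mul_sum, sub_nonpos,
    Finset.sum_sub_distrib] at key
  have h2 := key.trans (mul_le_mul_of_nonneg_left sum_ms_le hD)
  rw [div_mul_eq_mul_div, div_mul_eq_mul_div, div_le_div_iff₀ hq0 (by positivity)] at h2
  nlinarith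

end

/-- The structure theorem. -/
theorem exists_force {w : α → α → ℕ} {s : Equiv.Perm α} {R : α → Bool} {E : α → α → Prop}
    {N q : ℕ} (hs : ∀ x, E x (s x)) (hO : 0 < wt w s R) (hq : 2 ≤ q) (hk : 0 < #{x | R x})
    (hN : 3 * #{x | R x} ≤ q * N) : ∃ F : Finset α, #F ≤ 5 * q ^ 6 ∧
      ∀ (σ : Equiv.Perm α) (ρ : α → Bool) (a b : ℝ), (∀ x, force s E F x (σ x)) →
        wt w σ ρ ≤ wt w s R → 0 ≤ a → 0 ≤ b → Stuck (force s E F) w a b N σ ρ →
        (q : ℝ) * (∑ x, nv w a b x (s x) (R x) - ∑ x, nv w a b x (σ x) (ρ x)) ≤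
          12 * a * wt w s R := by
  by_contra hno
  push Not at hno
  have hq0 : (0 : ℝ) < q := by positivity
  have key : ∀ j ≤ 5 * q ^ 4, ∃ F : Finset α, #F ≤ j * q ^ 2 ∧
      Phi s (ms w s R) (force s E F) + j * (1 / (q : ℝ) ^ 4) ≤ 4 := by
    intro j
    induction j with
    | zero =>
      intro _
      refine ⟨∅, by simp, ?_⟩
      have h1 := phi_le s (ms_nonneg (w := w) (s := s) (R := R)) (force s E ∅)
      have h2 := sum_ms_le (w := w) (s := s) (R := R)
      have h3 : 0 ≤ ∑ x, ms w s R x := Finset.sum_nonneg fun _ _ => ms_nonneg _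
      push_cast
      nlinarith
    | succ j ih =>
      intro hj
      obtain ⟨F, h1, h2⟩ := ih (by omega)
      obtain ⟨σ, ρ, a, b, e1, e2, e3, e4, e5, e6⟩ := hno F (h1.trans (by
        calc j * q ^ 2 ≤ 5 * q ^ 4 * q ^ 2 := Nat.mul_le_mul_right _ (by omega)
          _ = 5 * q ^ 6 := by ring))
      obtain ⟨G, h3, h4⟩ := (stuck_or_drop (force_self hs F) e1 hO e2 e3 e4 hq hk hN
        e5).resolve_left (not_le.2 e6)
      rw [force_force] at h4
      refine ⟨F ∪ G, (Finset.card_union_le _ _).trans (by rw [Nat.succ_mul]; omega), ?_⟩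
      push_cast
      linarith
  obtain ⟨F, -, h⟩ := key _ le_rfl
  have h1 := phi_nonneg s (ms_nonneg (w := w) (s := s) (R := R)) (force s E F)
  have h2 : ((5 * q ^ 4 : ℕ) : ℝ) * (1 / (q : ℝ) ^ 4) = 5 := by
    push_cast
    field_simp
  linarith

end Pool.Agent.Lib.MP_be0860_lc
end
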