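import Mathlib
import Pool.Agent.Shared.PolyTime.Enc

/-!
Maximum-weight `k`-element matchings that extend to a perfect matching of a bipartite graph.
-/

set_option autoImplicit false

namespace Pool.Agent.Lib.MP_be0860_lc

open Pool.Agent.Shared.PolyTime

/-- An instance: a bipartite graph with sides `Fin a` and `Fin b`, nonnegative rational weights
and the number `k`. -/
structure Inst : Type where
  a : ℕ
  b : ℕ
  adj : Fin a → Fin b → Bool
  w : Fin a → Fin b → ℚ≥0
  k : ℕ
  hk : 2 * k ≤ a + b

/-- The input as a bit string; numerators and denominators are written in binary. -/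
def Inst.code (I : Inst) : List Bool :=
  encPair (encNat I.a) (encPair (encNat I.b) (encPair (encNat I.k)
    (encList (encList fun c : Bool × ℚ≥0 =>
        encPair [c.1] (encPair (Nat.bits c.2.num) (Nat.bits c.2.den)))
      (List.ofFn fun i => List.ofFn fun j => (I.adj i j, I.w i j)))))

/-- The output, a flag and a list of edges, as a bit string. -/
def outCode (o : Bool × List (ℕ × ℕ)) : List Bool :=
  encPair [o.1] (encList (fun p : ℕ × ℕ => encPair (encNat p.1) (encNat p.2)) o.2)

/-- Perfect matchings: sets of pairwise disjoint edges covering all vertices. -/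
def Inst.IsPerfect (I : Inst) (P : Finset (Fin I.a × Fin I.b)) : Prop :=
  (∀ e ∈ P, I.adj e.1 e.2 = true) ∧ (∀ e ∈ P, ∀ f ∈ P, e ≠ f → e.1 ≠ f.1 ∧ e.2 ≠ f.2) ∧
    (∀ x, ∃ e ∈ P, e.1 = x) ∧ ∀ y, ∃ e ∈ P, e.2 = y

/-- Feasible solutions: `k`-element subsets of perfect matchings. -/
def Inst.Feasible (I : Inst) (M : Finset (Fin I.a × Fin I.b)) : Prop :=
  M.card = I.k ∧ ∃ P, I.IsPerfect P ∧ M ⊆ P

/-- The total weight. -/
def Inst.weight (I : Inst) (M : Finset (Fin I.a × Fin I.b)) : ℚ≥0 := ∑ e ∈ M, I.w e.1 e.2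

end Pool.Agent.Lib.MP_be0860_lc
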