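import Pool.Agent.Lib.MP_be0860_lc.Best
import Pool.Agent.Lib.MP_be0860_lc.Defs
import Pool.Agent.Shared.PolyTime.Big

/-!
Rounding the weights, and the approximation scheme.
-/

set_option autoImplicit false

namespace Pool.Agent.Lib.MP_be0860_lc

open Pool.Agent.Shared.PolyTime Finset Enc

/-- The input table. -/
abbrev Rows : Type := List (List (Bool × Big × Big))

/-- The numerator of a weight. -/
def num (T : Rows) (i j : ℕ) : ℕ := ((T.getD i []).getD j (false, ⟨0⟩, ⟨0⟩)).2.1.val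

/-- The denominator of a weight. -/
def den (T : Rows) (i j : ℕ) : ℕ := ((T.getD i []).getD j (false, ⟨0⟩, ⟨0⟩)).2.2.val

/-- The adjacency table. -/
def adjT (T : Rows) : List (List Bool) := T.map fun r => r.map fun c => c.1

/-- The edges that lie in a perfect matching. -/
def extl (n : ℕ) (E : List (List Bool)) : List (ℕ × ℕ) :=
  (prs n).filter fun f => hasPM n (forceT n E [f])

/-- The rounded weights. -/
def scale (n B : ℕ) (T : Rows) : List (List ℕ) :=
  tab n fun u v => (List.range B).countP fun j => (extl n (adjT T)).all fun f =>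
    bble ((j + 1) * num T f.1 f.2 * den T u v) (B * num T u v * den T f.1 f.2)

/-- The red edges of a state. -/
def edges (n : ℕ) (st : St) : List (ℕ × ℕ) :=
  ((List.range n).filter fun x => lab st x).map fun x => (x, mate st x)

/-- The approximation algorithm. -/
def alg (q : ℕ) (I : ℕ × ℕ × ℕ × Rows) : Bool × List (ℕ × ℕ) :=
  (I.1 == I.2.1 && hasPM I.1 (adjT I.2.2.2),
    edges I.1 (heaviest I.1 (scale I.1 (I.2.2.1 * q) I.2.2.2)
      (cands (5 * q ^ 6) I.1 (3 * I.2.2.1 / q + 1) I.2.2.1 (I.2.2.1 * q) (adjT I.2.2.2)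
        (scale I.1 (I.2.2.1 * q) I.2.2.2))))

section pf
variable {α : Type} [Enc α]

@[fun_prop] theorem pb_num {T : α → Rows} {i j : α → ℕ} (hT : PF T) (hi : PF i) (hj : PF j) :
    PB fun a => num (T a) (i a) (j a) :=
  PB.val (f := fun a => (((T a).getD (i a) []).getD (j a) (false, ⟨0⟩, ⟨0⟩)).2.1) (by fun_prop)

@[fun_prop] theorem pb_den {T : α → Rows} {i j : α → ℕ} (hT : PF T) (hi : PF i) (hj : PF j) :
    PB fun a => den (T a) (i a) (j a) :=
  PB.val (f := fun a => (((T a).getD (i a) []).getD (j a) (false, ⟨0⟩, ⟨0⟩)).2.2) (by fun_prop)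

@[fun_prop] theorem pf_adjT {T : α → Rows} (hT : PF T) : PF fun a => adjT (T a) := by
  unfold adjT
  fun_prop

@[fun_prop] theorem pf_extl {n : α → ℕ} {E : α → List (List Bool)} (hn : PF n) (hE : PF E) :
    PF fun a => extl (n a) (E a) := by
  unfold extl
  fun_prop

@[fun_prop] theorem pf_scale {n B : α → ℕ} {T : α → Rows} (hn : PF n) (hB : PF B) (hT : PF T) :
    PF fun a => scale (n a) (B a) (T a) := by
  unfold scale tab
  fun_prop

@[fun_prop] theorem pf_edges {n : α → ℕ} {st : α → St} (hn : PF n) (hs : PF st) :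
    PF fun a => edges (n a) (st a) := by
  unfold edges
  fun_prop

theorem pf_alg (q : ℕ) : PF (alg q) := by
  unfold alg
  fun_prop

end pf

theorem countP_range_bounds (p : ℕ → Bool) (hp : ∀ i j, i ≤ j → p j = true → p i = true) :
    ∀ B, (∀ j < (List.range B).countP p, p j = true) ∧
      ((List.range B).countP p = B ∨ p ((List.range B).countP p) = false) := by
  intro B
  induction B with
  | zero => simp
  | succ B ih =>
    rw [List.range_succ, List.countP_append]
    cases h : p B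
    · simp only [List.countP_singleton, h, Bool.false_eq_true, if_false, add_zero]
      refine ⟨ih.1, Or.inr ?_⟩
      rcases ih.2 with h1 | h1
      · rw [h1, h]
      · exact h1
    · have e : (List.range B).countP p = B := by
        rw [List.countP_eq_length.2 fun j hj => hp j B (List.mem_range.1 hj).le h,
          List.length_range]
      simp only [List.countP_singleton, h, if_true, e]
      exact ⟨fun j hj => hp j B (by omega) h, Or.inl trivial⟩

/-- The table of an instance. -/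
def rows {a b : ℕ} (adj : Fin a → Fin b → Bool) (w : Fin a → Fin b → ℚ≥0) : Rows :=
  List.ofFn fun i => List.ofFn fun j => (adj i j, ⟨(w i j).num⟩, ⟨(w i j).den⟩)

theorem encList_ofFn {β γ : Type} {e : β → List Bool} {e' : γ → List Bool} :
    ∀ {n : ℕ} {f : Fin n → β} {g : Fin n → γ}, (∀ i, e (f i) = e' (g i)) →
      encList e (List.ofFn f) = encList e' (List.ofFn g)
  | 0, _, _, _ => rfl
  | n + 1, f, g, h => by
    rw [List.ofFn_succ, List.ofFn_succ, encList, encList, h, encList_ofFn fun i => h i.succ]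

theorem code_eq (I : Inst) : I.code = enc (I.a, I.b, I.k, rows I.adj I.w) := by
  rw [Inst.code, enc_prod, enc_prod, enc_prod, rows]
  congr 3
  exact encList_ofFn fun _ => encList_ofFn fun _ => rfl

section
variable {n : ℕ} (adj : Fin n → Fin n → Bool) (w : Fin n → Fin n → ℚ≥0)

theorem rows_get (i j : Fin n) : entry (adjT (rows adj w)) i j = adj i j ∧
    num (rows adj w) i j = (w i j).num ∧ den (rows adj w) i j = (w i j).den := by
  simp [entry, adjT, num, den, rows, List.getD_eq_getElem?_getD]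

theorem mem_extl (f : ℕ × ℕ) : f ∈ extl n (adjT (rows adj w)) ↔
    ∃ s : Equiv.Perm (Fin n), (∀ x, adj x (s x) = true) ∧ ∃ x : Fin n, f = ((x : ℕ), (s x : ℕ)) := by
  rw [extl, List.mem_filter, mem_prs, hasPM_iff]
  simp only [entry_forceT, (rows_get adj w _ _).1, List.mem_singleton, forall_eq]
  constructor
  · rintro ⟨h1, s, h2⟩
    exact ⟨s, fun x => (h2 x).1, ⟨f.1, h1.1⟩, Prod.ext rfl (((h2 ⟨f.1, h1.1⟩).2.1 rfl).symm)⟩
  · rintro ⟨s, h1, x, rfl⟩
    exact ⟨⟨x.2, (s x).2⟩, s, fun y => ⟨h1 y, by simp [Fin.val_inj]⟩⟩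

theorem scale_le (B : ℕ) (T : Rows) (i j : ℕ) : ent (scale n B T) i j ≤ B := by
  rw [ent, scale, getD_tab]
  split_ifs
  · exact List.countP_le_length.trans (by simp)
  · exact Nat.zero_le _

theorem scale_spec (B : ℕ) {W₀ : ℝ} (h1 : ∀ s : Equiv.Perm (Fin n), (∀ x, adj x (s x) = true) →
      ∀ x, (w x (s x) : ℝ) ≤ W₀) {s₀ : Equiv.Perm (Fin n)} (h2 : ∀ x, adj x (s₀ x) = true)
    {x₀ : Fin n} (h3 : (w x₀ (s₀ x₀) : ℝ) = W₀) (u v : Fin n) :
    ent (scale n B (rows adj w)) u v * W₀ ≤ B * w u v ∧ ((w u v : ℝ) ≤ W₀ →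
      (B : ℝ) * w u v ≤ (ent (scale n B (rows adj w)) u v + 1) * W₀) := by
  have hW : 0 ≤ W₀ := h3 ▸ NNRat.cast_nonneg _
  have hw : (0 : ℝ) ≤ w u v := NNRat.cast_nonneg _
  have key : ∀ j : ℕ, ((extl n (adjT (rows adj w))).all fun f =>
      bble ((j + 1) * num (rows adj w) f.1 f.2 * den (rows adj w) u v)
        (B * num (rows adj w) u v * den (rows adj w) f.1 f.2)) = true ↔
      ((j : ℝ) + 1) * W₀ ≤ B * w u v := by
    intro j
    have e : ∀ x y : Fin n, (j + 1) * num (rows adj w) x y * den (rows adj w) u v ≤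
        B * num (rows adj w) u v * den (rows adj w) x y ↔ ((j : ℝ) + 1) * w x y ≤ B * w u v := by
      intro x y
      rw [(rows_get adj w _ _).2.1, (rows_get adj w _ _).2.1, (rows_get adj w _ _).2.2,
        (rows_get adj w _ _).2.2, NNRat.cast_def, NNRat.cast_def, ← mul_div_assoc,
        ← mul_div_assoc, div_le_div_iff₀ (by exact_mod_cast (w x y).den_pos)
          (by exact_mod_cast (w u v).den_pos)]
      exact_mod_cast Iff.rfl
    simp only [List.all_eq_true, bble_eq, mem_extl]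
    refine ⟨fun h => h3 ▸ (e _ _).1 (h _ ⟨s₀, h2, x₀, rfl⟩), ?_⟩
    rintro h f ⟨s, hs, x, rfl⟩
    exact (e _ _).2 (le_trans (mul_le_mul_of_nonneg_left (h1 s hs x) (by positivity)) h)
  rw [ent, scale, getD_tab, if_pos ⟨u.2, v.2⟩]
  obtain ⟨h4, h5⟩ := countP_range_bounds _ (fun i j hij h => (key i).2 (le_trans
    (mul_le_mul_of_nonneg_right (by exact_mod_cast Nat.succ_le_succ hij) hW) ((key j).1 h))) B
  generalize List.countP _ _ = c at h4 h5
  refine ⟨?_, fun h6 => ?_⟩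
  · rcases c with _ | c
    · simpa using mul_nonneg (Nat.cast_nonneg B) hw
    · simpa using (key c).1 (h4 c (Nat.lt_succ_self c))
  · rcases h5 with rfl | h5
    · nlinarith [mul_le_mul_of_nonneg_left h6 (Nat.cast_nonneg c : (0 : ℝ) ≤ c)]
    · exact (not_le.1 fun h => by simp [(key c).2 h] at h5).le

/-- The real weight of the red edges. -/
noncomputable def rw' (σ : Equiv.Perm (Fin n)) (ρ : Fin n → Bool) : ℝ :=
  ∑ x with ρ x, (w x (σ x) : ℝ)

theorem alg_spec {k q : ℕ} (hq : 15 ≤ q) (hk : k ≤ n)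
    (h : ∃ s : Equiv.Perm (Fin n), ∀ x, adj x (s x) = true) :
    ∃ (σ : Equiv.Perm (Fin n)) (ρ : Fin n → Bool), (∀ x, adj x (σ x) = true) ∧ #{x | ρ x} = k ∧
      (∀ p, p ∈ (alg q (n, n, k, rows adj w)).2 ↔ ∃ x, ρ x ∧ p = ((x : ℕ), (σ x : ℕ))) ∧
      ∀ (s : Equiv.Perm (Fin n)) (R : Fin n → Bool), (∀ x, adj x (s x) = true) →
        #{x | R x} = k → ((q : ℝ) - 15) * rw' w s R ≤ (q + 3) * rw' w σ ρ := by
  classical
  obtain ⟨σ, ρ, h1, h2, h3, h4⟩ := best_spec (q := q) (by omega)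
    (scale_le (k * q) (rows adj w)) hk ((hasPM_iff (adjT (rows adj w))).2
      (by simpa only [(rows_get adj w _ _).1] using h))
  simp only [(rows_get adj w _ _).1] at h2 h4
  refine ⟨σ, ρ, h2, h3, fun p => ?_, ?_⟩
  · simp only [alg, edges, List.mem_map, List.mem_filter, List.mem_range]
    constructor
    · rintro ⟨x, ⟨e1, e2⟩, rfl⟩
      exact ⟨⟨x, e1⟩, (h1 ⟨x, e1⟩).2 ▸ e2, by rw [(h1 ⟨x, e1⟩).1]⟩
    · rintro ⟨x, e1, rfl⟩
      exact ⟨x, ⟨x.2, (h1 x).2 ▸ e1⟩, by rw [(h1 x).1]⟩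
  have hnn : ∀ s R, 0 ≤ rw' w s R := fun s R => Finset.sum_nonneg fun _ _ => NNRat.cast_nonneg _
  have hq' : (15 : ℝ) ≤ q := by exact_mod_cast hq
  rcases Nat.eq_zero_or_pos k with hk0 | hk0
  · intro s R _ e
    rw [rw', Finset.card_eq_zero.1 (e.trans hk0), Finset.sum_empty, mul_zero]
    exact mul_nonneg (by positivity) (hnn _ _)
  obtain ⟨⟨s, R⟩, e1, e2⟩ := Finset.exists_max_image
    (univ.filter fun p : Equiv.Perm (Fin n) × (Fin n → Bool) =>
      (∀ x, adj x (p.1 x) = true) ∧ #{x | p.2 x} = k) (fun p => rw' w p.1 p.2)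
    ⟨(σ, ρ), by simp [h2, h3]⟩
  obtain ⟨⟨s₀, x₀⟩, e3, e4⟩ := Finset.exists_max_image
    (univ.filter fun p : Equiv.Perm (Fin n) × Fin n => ∀ x, adj x (p.1 x) = true)
    (fun p => (w p.2 (p.1 p.2) : ℝ)) ⟨(σ, ⟨0, by omega⟩), by simp [h2]⟩
  simp only [mem_filter, mem_univ, true_and, Prod.forall] at e1 e2 e3 e4
  have e5 : (w x₀ (s₀ x₀) : ℝ) ≤ rw' w s R := by
    obtain ⟨S, f1, -, f2⟩ := Finset.exists_subsuperset_card_eq (Finset.subset_univ {x₀})
      (n := k) (by rw [Finset.card_singleton]; exact hk0) (by simpa using hk)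
    refine le_trans ?_ (e2 s₀ (fun x => decide (x ∈ S)) ⟨e3, by simpa using f2⟩)
    exact Finset.single_le_sum (f := fun x => (w x (s₀ x) : ℝ)) (fun _ _ => NNRat.cast_nonneg _)
      (by simpa using f1)
  have e6 := scale_spec adj w (k * q) (fun s hs x => e4 s x hs) e3 rfl
  have hW0 : (0 : ℝ) ≤ w x₀ (s₀ x₀) := NNRat.cast_nonneg _
  generalize (w x₀ (s₀ x₀) : ℝ) = W₀ at e4 e5 e6 hW0
  have e7 : (wt (fun x y : Fin n => ent (scale n (k * q) (rows adj w)) x y) σ ρ : ℝ) * W₀ ≤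
      (k * q : ℕ) * rw' w σ ρ := by
    rw [wt, ← Finset.sum_filter, rw', Nat.cast_sum, Finset.sum_mul, Finset.mul_sum]
    exact Finset.sum_le_sum fun x _ => (e6 x _).1
  have e8 : (k * q : ℕ) * rw' w s R ≤
      ((wt (fun x y : Fin n => ent (scale n (k * q) (rows adj w)) x y) s R : ℝ) + k) * W₀ := by
    rw [wt, ← Finset.sum_filter, rw', Nat.cast_sum, Finset.mul_sum]
    refine (Finset.sum_le_sum fun x _ => (e6 x _).2 (e4 s x e1.1)).trans (le_of_eq ?_)
    rw [← Finset.sum_mul, Finset.sum_add_distrib, Finset.sum_const, e1.2]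
    simp
  have e9 := h4 s R e1.1 e1.2
  generalize wt (fun x y : Fin n => ent (scale n (k * q) (rows adj w)) x y) σ ρ = A at e7 e9
  generalize wt (fun x y : Fin n => ent (scale n (k * q) (rows adj w)) x y) s R = O at e8 e9
  have e10 : ((q : ℝ) - 13) * O ≤ (q + 3) * A + q := by
    have : (((q - 13) * O : ℕ) : ℝ) ≤ ((q + 3) * A + q : ℕ) := by exact_mod_cast e9
    rwa [Nat.cast_mul, Nat.cast_sub (by omega), Nat.cast_add, Nat.cast_mul, Nat.cast_add] at this
  intro s' R' f1 f2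
  refine le_trans (mul_le_mul_of_nonneg_left (e2 s' R' ⟨f1, f2⟩) (by linarith)) ?_
  have hk1 : (1 : ℝ) ≤ k := by exact_mod_cast hk0
  push_cast at e7 e8
  refine le_of_mul_le_mul_left ?_ (show (0 : ℝ) < k * q by positivity)
  have g1 := mul_le_mul_of_nonneg_right e10 hW0
  have g2 := mul_le_mul_of_nonneg_left e8 (show (0 : ℝ) ≤ q - 13 by linarith)
  have g3 := mul_le_mul_of_nonneg_left e7 (show (0 : ℝ) ≤ q + 3 by linarith)
  have g4 := mul_le_mul_of_nonneg_left e5 (show (0 : ℝ) ≤ 2 * (k * q) by positivity)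
  have g5 : ((q - 13) * k + q) * W₀ ≤ 2 * (k * q) * W₀ :=
    mul_le_mul_of_nonneg_right (by nlinarith) hW0
  nlinarith

end

theorem perfect_perm {I : Inst} {P : Finset (Fin I.a × Fin I.b)} (h : I.IsPerfect P) :
    ∃ s : Fin I.a ≃ Fin I.b, ∀ e, e ∈ P ↔ e.2 = s e.1 := by
  obtain ⟨-, h2, h3, h4⟩ := h
  choose f hf1 hf2 using h3
  have h5 : ∀ e ∈ P, e = f e.1 := fun e he => by
    by_contra h
    exact (h2 e he _ (hf1 _) h).1 (hf2 _).symm
  refine ⟨Equiv.ofBijective (fun x => (f x).2) ⟨fun x y e => ?_, fun y => ?_⟩, fun e => ⟨fun he =>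
    congrArg Prod.snd (h5 e he), fun he => ?_⟩⟩
  · by_contra h
    exact (h2 _ (hf1 x) _ (hf1 y) fun e' => h (by rw [← hf2 x, e', hf2])).2 e
  · obtain ⟨e, he, rfl⟩ := h4 y
    exact ⟨e.1, (congrArg Prod.snd (h5 e he)).symm⟩
  · rw [show e = f e.1 from Prod.ext (hf2 _).symm he]
    exact hf1 _

theorem perm_perfect {I : Inst} (s : Fin I.a ≃ Fin I.b) (h : ∀ x, I.adj x (s x) = true) :
    I.IsPerfect (univ.image fun x => (x, s x)) := by
  refine ⟨?_, ?_, fun x => ⟨(x, s x), by simp, rfl⟩, fun y => ⟨(s.symm y, y), by simp, rfl⟩⟩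
  · simpa using h
  · simp

theorem main (q : ℕ) (hq : 15 ≤ q) (I : Inst) :
    ((alg q (I.a, I.b, I.k, rows I.adj I.w)).1 = true ↔ ∃ P, I.IsPerfect P) ∧
    ((alg q (I.a, I.b, I.k, rows I.adj I.w)).1 = true → ∃ M, I.Feasible M ∧
      (alg q (I.a, I.b, I.k, rows I.adj I.w)).2.toFinset =
        M.image (fun e => ((e.1 : ℕ), (e.2 : ℕ))) ∧
      ∀ M', I.Feasible M' → ((q : ℝ) - 15) * I.weight M' ≤ (q + 3) * I.weight M) := by
  by_cases hab : I.a = I.b
  swap
  · have : (alg q (I.a, I.b, I.k, rows I.adj I.w)).1 = false := by simp [alg, hab]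
    rw [this]
    refine ⟨⟨fun h => absurd h (by simp), fun ⟨P, hP⟩ => ?_⟩, fun h => absurd h (by simp)⟩
    obtain ⟨s, -⟩ := perfect_perm hP
    exact absurd (by simpa using Fintype.card_congr s) hab
  obtain ⟨n, b, adj, w, k, hk⟩ := I
  obtain rfl : n = b := hab
  have h1 : (alg q (n, n, k, rows adj w)).1 = true ↔
      ∃ s : Equiv.Perm (Fin n), ∀ x, adj x (s x) = true := by
    simp only [alg, beq_self_eq_true, Bool.true_and, hasPM_iff, (rows_get adj w _ _).1]
  have hinj : ∀ s : Equiv.Perm (Fin n), Function.Injective fun x => (x, s x) :=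
    fun s x y e => congrArg Prod.fst e
  refine ⟨h1.trans ⟨fun ⟨s, hs⟩ => ⟨_, perm_perfect (I := ⟨n, n, adj, w, k, hk⟩) s hs⟩,
    fun ⟨P, hP⟩ => ?_⟩, fun h => ?_⟩
  · obtain ⟨s, hs⟩ := perfect_perm hP
    exact ⟨s, fun x => hP.1 (x, s x) ((hs _).2 rfl)⟩
  obtain ⟨σ, ρ, h2, h3, h4, h5⟩ := alg_spec adj w hq (show k ≤ n by omega) (h1.1 h)
  have hw : ∀ (s : Equiv.Perm (Fin n)) (R : Fin n → Bool),
      ((Inst.weight ⟨n, n, adj, w, k, hk⟩ ((univ.filter fun x => R x).image fun x => (x, s x)) :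
        ℚ≥0) : ℝ) = rw' w s R := fun s R => by
    rw [Inst.weight, Finset.sum_image fun _ _ _ _ e => hinj s e, NNRat.cast_sum, rw']
  refine ⟨(univ.filter fun x => ρ x).image fun x => (x, σ x),
    ⟨by rw [Finset.card_image_of_injective _ (hinj σ), h3], _,
      perm_perfect (I := ⟨n, n, adj, w, k, hk⟩) σ h2,
      Finset.image_subset_image (Finset.filter_subset _ _)⟩, ?_, ?_⟩
  · ext p
    simp only [List.mem_toFinset, h4, Finset.image_image, mem_image, mem_filter, mem_univ,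
      true_and, Function.comp_apply, eq_comm]
  · rintro M' ⟨e1, P, e2, e3⟩
    obtain ⟨s, hs⟩ := perfect_perm e2
    have e4 : M' = (univ.filter fun x => decide ((x, s x) ∈ M')).image fun x => (x, s x) := by
      ext e
      simp only [decide_eq_true_eq, mem_image, mem_filter, mem_univ, true_and]
      refine ⟨fun he => ?_, by rintro ⟨x, hx, rfl⟩; exact hx⟩
      have : e = (e.1, s e.1) := Prod.ext rfl ((hs e).1 (e3 he))
      exact ⟨e.1, this ▸ he, this.symm⟩
    rw [hw, e4, hw]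
    refine h5 s _ (fun x => e2.1 (x, s x) ((hs _).2 rfl)) ?_
    rw [← Finset.card_image_of_injective _ (hinj s), ← e4]
    exact e1

end Pool.Agent.Lib.MP_be0860_lc
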