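import Pool.Agent.Lib.MP_be0860_lc.Core
import Pool.Agent.Shared.PolyTime.Graph

-- part Pool.Agent.Lib.MP_be0860_lc.Find
section

/-!
Searching for a simple closed walk of positive gain with few red arcs.
-/

set_option autoImplicit false

namespace Pool.Agent.Lib.MP_be0860_lc

open Pool.Agent.Shared.PolyTime Polynomial Enc

/-- Lists of labelled arcs. -/
abbrev Arcs : Type := List (ℕ × ℕ × Bool)

/-- Lookup in a table of pairs. -/
def tb (S : List (List (ℕ × ℕ))) (i j : ℕ) (b : Bool) : ℕ :=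
  cond b ((S.getD i []).getD j (0, 0)).2 ((S.getD i []).getD j (0, 0)).1

/-- Total score. -/
def score (S : List (List (ℕ × ℕ))) (l : Arcs) : ℕ := (l.map fun p => tb S p.1 p.2.1 p.2.2).sum

/-- Number of red arcs. -/
def reds (l : Arcs) : ℕ := l.countP fun p => p.2.2

/-- All extensions by one arc. -/
def ext (n : ℕ) (A : List (List Bool)) (W : List (ℕ × ℕ × Arcs)) : List (ℕ × ℕ × Arcs) :=
  W.flatMap fun x => (List.range n).flatMap fun u => cond (entry A u x.1)
    [(u, x.2.1, (u, x.1, false) :: x.2.2), (u, x.2.1, (u, x.1, true) :: x.2.2)] []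

/-- All keys. -/
def keys (n H : ℕ) : List (ℕ × ℕ × ℕ × ℕ) :=
  (List.range n).flatMap fun s => (List.range n).flatMap fun t =>
    (List.range (n + 1)).flatMap fun j => (List.range (2 * H * n + 1)).map fun c => (s, t, j, c)

/-- One walk for each key. -/
def dedupe (n H : ℕ) (S : List (List (ℕ × ℕ))) (W : List (ℕ × ℕ × Arcs)) :
    List (ℕ × ℕ × Arcs) :=
  (keys n H).flatMap fun κ => (W.filter fun x => x.1 == κ.1 && x.2.1 == κ.2.1 &&
    reds x.2.2 == κ.2.2.1 && score S x.2.2 == κ.2.2.2).take 1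

/-- Representatives of the walks of a given length. -/
def layer (n H : ℕ) (A : List (List Bool)) (S : List (List (ℕ × ℕ))) (i : ℕ) :
    List (ℕ × ℕ × Arcs) :=
  (fun W => dedupe n H S (ext n A W))^[i] ((List.range n).map fun s => (s, s, []))

/-- No vertex is left twice. -/
def simple (l : Arcs) : Bool := l.all fun p => Nat.ble (l.countP fun p' => p'.1 == p.1) 1

/-- A simple closed walk with at most `N` red arcs and average score above `H`, if there is one. -/
def find (n N H : ℕ) (A : List (List Bool)) (S : List (List (ℕ × ℕ))) : Arcs :=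
  ((((List.range (n + 1)).flatMap fun i => layer n H A S i).filter fun x =>
    x.1 == x.2.1 && Nat.ble (reds x.2.2) N && Nat.blt (H * x.2.2.length) (score S x.2.2) &&
      simple x.2.2).headD (0, 0, [])).2.2

/-- Admissible arcs. -/
def Adm (n : ℕ) (A : List (List Bool)) (l : Arcs) : Prop :=
  ∀ p ∈ l, p.1 < n ∧ p.2.1 < n ∧ entry A p.1 p.2.1 = true

theorem simple_iff (l : Arcs) : simple l = true ↔ (l.map Prod.fst).Nodup := by
  rw [List.nodup_iff_count_le_one]
  simp only [simple, List.all_eq_true, Nat.ble_eq, List.count, List.countP_map]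
  refine ⟨fun h a => ?_, fun h p _ => h p.1⟩
  by_cases ha : ∃ p ∈ l, p.1 = a
  · obtain ⟨p, hp, rfl⟩ := ha
    exact h p hp
  · rw [List.countP_eq_zero.2]
    · exact Nat.zero_le _
    · intro p hp e
      exact ha ⟨p, hp, by simpa using e⟩

theorem mem_keys {n H s t j c : ℕ} :
    (s, t, j, c) ∈ keys n H ↔ s < n ∧ t < n ∧ j ≤ n ∧ c ≤ 2 * H * n := by
  simp [keys]

theorem length_keys (n H : ℕ) : (keys n H).length = n * (n * ((n + 1) * (2 * H * n + 1))) := by
  simp [keys, List.length_flatMap]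

variable {n N H : ℕ} {A : List (List Bool)} {S : List (List (ℕ × ℕ))}

theorem layer_succ (i : ℕ) : layer n H A S (i + 1) = dedupe n H S (ext n A (layer n H A S i)) :=
  Function.iterate_succ_apply' _ _ _

theorem dedupe_subset {W : List (ℕ × ℕ × Arcs)} {x} (h : x ∈ dedupe n H S W) : x ∈ W := by
  obtain ⟨κ, -, h⟩ := List.mem_flatMap.1 h
  exact (List.mem_filter.1 (List.mem_of_mem_take h)).1

theorem length_dedupe (W : List (ℕ × ℕ × Arcs)) : (dedupe n H S W).length ≤ (keys n H).length := by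
  rw [dedupe, List.length_flatMap]
  refine le_trans (List.sum_le_card_nsmul _ 1 fun x hx => ?_) (by simp)
  obtain ⟨κ, -, rfl⟩ := List.mem_map.1 hx
  simp

theorem layer_sound : ∀ i, ∀ x ∈ layer n H A S i, x.1 < n ∧ x.2.1 < n ∧ Ch x.1 x.2.2 x.2.1 ∧
    Adm n A x.2.2 ∧ x.2.2.length = i := by
  intro i
  induction i with
  | zero =>
    intro x hx
    obtain ⟨s, hs, rfl⟩ := List.mem_map.1 hx
    exact ⟨List.mem_range.1 hs, List.mem_range.1 hs, rfl, by simp [Adm], rfl⟩
  | succ i ih =>
    intro x hx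
    rw [layer_succ] at hx
    obtain ⟨y, hy, h⟩ := List.mem_flatMap.1 (dedupe_subset hx)
    obtain ⟨u, hu, h⟩ := List.mem_flatMap.1 h
    obtain ⟨h1, h2, h3, h4, h5⟩ := ih y hy
    rw [List.mem_range] at hu
    cases he : entry A u y.1
    · simp [he] at h
    · have : ∃ b, x = (u, y.2.1, (u, y.1, b) :: y.2.2) := by simpa [he] using h
      obtain ⟨b, rfl⟩ := this
      refine ⟨hu, h2, ⟨rfl, h3⟩, fun p hp => ?_, by simp [h5]⟩
      rcases List.mem_cons.1 hp with rfl | hp
      · exact ⟨hu, h1, he⟩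
      · exact h4 p hp

theorem score_le (hS : ∀ i j b, tb S i j b ≤ 2 * H) (l : Arcs) : score S l ≤ 2 * H * l.length := by
  induction l with
  | nil => simp [score]
  | cons p l ih =>
    have := hS p.1 p.2.1 p.2.2
    simp only [score, List.map_cons, List.sum_cons, List.length_cons, Nat.mul_succ] at ih ⊢
    omega

theorem layer_complete (hS : ∀ i j b, tb S i j b ≤ 2 * H) : ∀ (l : Arcs) (s t : ℕ), s < n → t < n →
    Ch s l t → Adm n A l → l.length ≤ n → ∃ l', (s, t, l') ∈ layer n H A S l.length ∧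
      reds l' = reds l ∧ score S l' = score S l
  | [], s, t, hs, _, h, _, _ => ⟨[], List.mem_map.2 ⟨s, List.mem_range.2 hs, by rw [← h]⟩, rfl, rfl⟩
  | (u, v, b) :: l, s, t, hs, ht, h, hA, hl => by
    obtain rfl : u = s := h.1
    have h0 := hA (u, v, b) (by simp)
    obtain ⟨l', h1, h2, h3⟩ := layer_complete hS l v t h0.2.1 ht h.2
      (fun p hp => hA p (by simp [hp])) (by simp at hl; omega)
    have h4 : (u, t, (u, v, b) :: l') ∈ ext n A (layer n H A S l.length) := by
      refine List.mem_flatMap.2 ⟨_, h1, List.mem_flatMap.2 ⟨u, List.mem_range.2 hs, ?_⟩⟩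
      have : entry A u v = true := h0.2.2
      cases b <;> simp [this]
    have h5 : reds ((u, v, b) :: l') = reds ((u, v, b) :: l) := by
      simp only [reds, List.countP_cons] at h2 ⊢
      rw [h2]
    have h6 : score S ((u, v, b) :: l') = score S ((u, v, b) :: l) := by
      simp only [score, List.map_cons, List.sum_cons] at h3 ⊢
      rw [h3]
    have hκ : (u, t, reds ((u, v, b) :: l), score S ((u, v, b) :: l)) ∈ keys n H :=
      mem_keys.2 ⟨hs, ht, List.countP_le_length.trans hl,
        (score_le hS _).trans (Nat.mul_le_mul_left _ hl)⟩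
    rw [List.length_cons, layer_succ]
    set F := (ext n A (layer n H A S l.length)).filter fun x => x.1 == u && x.2.1 == t &&
      reds x.2.2 == reds ((u, v, b) :: l) && score S x.2.2 == score S ((u, v, b) :: l) with hF
    have h7 : (u, t, (u, v, b) :: l') ∈ F := List.mem_filter.2 ⟨h4, by simp [h5, h6]⟩
    obtain ⟨⟨x1, x2, x3⟩, F', hx⟩ := List.exists_cons_of_ne_nil (List.ne_nil_of_mem h7)
    have h8 : (x1, x2, x3) ∈ F := by rw [hx]; simp
    have h9 := (List.mem_filter.1 h8).2
    simp only [Bool.and_eq_true, beq_iff_eq] at h9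
    obtain ⟨⟨⟨rfl, rfl⟩, e1⟩, e2⟩ := h9
    refine ⟨x3, List.mem_flatMap.2 ⟨_, hκ, ?_⟩, e1, e2⟩
    change _ ∈ F.take 1
    rw [hx]
    simp

theorem find_sound : find n N H A S = [] ∨ ∃ s, Ch s (find n N H A S) s ∧
    Adm n A (find n N H A S) ∧ ((find n N H A S).map Prod.fst).Nodup ∧
    reds (find n N H A S) ≤ N ∧ H * (find n N H A S).length < score S (find n N H A S) := by
  unfold find
  generalize hF : List.filter _ _ = F
  rcases F with _ | ⟨x, F⟩
  · exact Or.inl rfl
  · have h : x ∈ x :: F := by simp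
    rw [← hF, List.mem_filter, List.mem_flatMap] at h
    obtain ⟨⟨i, -, h1⟩, h2⟩ := h
    obtain ⟨-, -, h3, h4, -⟩ := layer_sound i x h1
    simp only [Bool.and_eq_true, beq_iff_eq, Nat.ble_eq, Nat.blt_eq, simple_iff] at h2
    exact Or.inr ⟨x.1, by rw [← h2.1.1.1] at h3; exact h3, h4, h2.2, h2.1.1.2, h2.1.2⟩

theorem find_complete (hS : ∀ i j b, tb S i j b ≤ 2 * H) : ∀ (m : ℕ) (l : Arcs) (s : ℕ),
    l.length ≤ m → m ≤ n → Ch s l s → Adm n A l → reds l ≤ N → H * l.length < score S l →
    find n N H A S ≠ [] := by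
  intro m
  induction m with
  | zero =>
    intro l s hl _ _ _ _ h
    rw [List.length_eq_zero_iff.1 (Nat.le_zero.1 hl)] at h
    simp [score] at h
  | succ m ih =>
    intro l s hl hm h1 h2 h3 h4
    have hs : s < n := by
      rcases l with _ | ⟨p, l⟩
      · simp [score] at h4
      · exact h1.1 ▸ (h2 p (by simp)).1
    obtain ⟨l', e1, e2, e3⟩ := layer_complete hS l s s hs hs h1 h2 (by omega)
    obtain ⟨-, -, e4, e5, e6⟩ := layer_sound _ _ e1
    dsimp only at e4 e5 e6
    by_cases hn : (l'.map Prod.fst).Nodup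
    · unfold find
      generalize hF : List.filter _ _ = F
      rcases F with _ | ⟨x, F⟩
      · rw [List.filter_eq_nil_iff] at hF
        refine absurd ?_ (hF (s, s, l') (List.mem_flatMap.2 ⟨_, List.mem_range.2 (by omega), e1⟩))
        simp only [Bool.and_eq_true, beq_iff_eq, Nat.ble_eq, Nat.blt_eq, simple_iff]
        exact ⟨⟨⟨trivial, by omega⟩, by rw [e6]; omega⟩, hn⟩
      · have h : x ∈ x :: F := by simp
        rw [← hF, List.mem_filter] at h
        have h5 := h.2
        simp only [Bool.and_eq_true, Nat.blt_eq] at h5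
        intro h6
        have h7 : x.2.2 = [] := h6
        rw [h7] at h5
        simp [score] at h5
    · obtain ⟨B, C, u, f1, f2, f3, f4, f5⟩ := ch_split e4 hn
      have g1 := f5.length_eq
      have g2 : reds l' = reds B + reds C := by
        rw [reds, f5.countP_eq, List.countP_append]; rfl
      have g3 : score S l' = score S B + score S C := by
        rw [score, (f5.map _).sum_eq, List.map_append, List.sum_append]; rfl
      have g4 := List.length_pos_iff.2 f3
      have g5 := List.length_pos_iff.2 f4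
      rw [List.length_append] at g1
      by_cases g6 : H * B.length < score S B
      · exact ih B u (by omega) (by omega) f1
          (fun p hp => e5 p (f5.symm.subset (List.mem_append_left _ hp))) (by omega) g6
      · refine ih C s (by omega) (by omega) f2
          (fun p hp => e5 p (f5.symm.subset (List.mem_append_right _ hp))) (by omega) ?_
        rw [← e6, g1, Nat.mul_add] at h4
        omega

section pf
variable {α : Type} [Enc α]

@[fun_prop] theorem pf_tb {S : α → List (List (ℕ × ℕ))} {i j : α → ℕ} {b : α → Bool} (hS : PF S)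
    (hi : PF i) (hj : PF j) (hb : PF b) : PF fun a => tb (S a) (i a) (j a) (b a) := by
  unfold tb
  fun_prop

@[fun_prop] theorem pf_score {S : α → List (List (ℕ × ℕ))} {l : α → Arcs} (hS : PF S)
    (hl : PF l) : PF fun a => score (S a) (l a) := by
  unfold score
  fun_prop

@[fun_prop] theorem pf_reds {l : α → Arcs} (hl : PF l) : PF fun a => reds (l a) := by
  unfold reds
  fun_prop

@[fun_prop] theorem pf_simple {l : α → Arcs} (hl : PF l) : PF fun a => simple (l a) := by
  unfold simple
  fun_prop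

@[fun_prop] theorem pf_ext {n : α → ℕ} {A : α → List (List Bool)} {W : α → List (ℕ × ℕ × Arcs)}
    (hn : PF n) (hA : PF A) (hW : PF W) : PF fun a => ext (n a) (A a) (W a) := by
  unfold ext
  fun_prop

@[fun_prop] theorem pf_keys {n H : α → ℕ} (hn : PF n) (hH : PF H) :
    PF fun a => keys (n a) (H a) := by
  unfold keys
  fun_prop

@[fun_prop] theorem pf_dedupe {n H : α → ℕ} {S : α → List (List (ℕ × ℕ))}
    {W : α → List (ℕ × ℕ × Arcs)} (hn : PF n) (hH : PF H) (hS : PF S) (hW : PF W) :
    PF fun a => dedupe (n a) (H a) (S a) (W a) := by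
  unfold dedupe
  fun_prop

@[fun_prop] theorem pf_layer {n H i : α → ℕ} {A : α → List (List Bool)}
    {S : α → List (List (ℕ × ℕ))} (hn : PF n) (hH : PF H) (hA : PF A) (hS : PF S) (hi : PF i) :
    PF fun a => layer (n a) (H a) (A a) (S a) (i a) := by
  refine PF.iterate (st := fun a W => dedupe (n a) (H a) (S a) (ext (n a) (A a) W)) hi
    (by fun_prop) (by fun_prop) ?_
  obtain ⟨p, hp⟩ := (PF.add hn (PF.add hi (pf_keys hn hH).length)).size
  refine ⟨p * (2 * (4 * p + p * (2 * (4 * p + 3) + 1) + 2) + 1), fun a j hj => ?_⟩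
  have h0 := hp a _ le_rfl
  rw [len_nat] at h0
  simp only [eval_add, eval_mul, eval_ofNat, eval_one]
  generalize eval (enc a).length p = P at h0
  change (enc (layer (n a) (H a) (A a) (S a) j)).length ≤ _
  refine (len_le_mul _ (4 * P + P * (2 * (4 * P + 3) + 1) + 2) fun x hx => ?_).trans
    (Nat.mul_le_mul_right _ ?_)
  · obtain ⟨h1, h2, -, h3, h4⟩ := layer_sound _ x hx
    obtain ⟨x1, x2, x3⟩ := x
    have h5 := len_le_mul x3 (4 * P + 3) fun y hy => by
      obtain ⟨y1, y2, y3⟩ := y
      have := h3 _ hy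
      simp only [len_prod, len_nat, len_bool] at this ⊢
      omega
    have h6 := Nat.mul_le_mul_right (2 * (4 * P + 3) + 1) (show x3.length ≤ P by
      dsimp only at h4; omega)
    simp only [len_prod, len_nat] at h1 h2 ⊢
    omega
  · rcases j with _ | j
    · simp [layer]; omega
    · rw [layer_succ]
      exact (length_dedupe _).trans (by omega)

@[fun_prop] theorem pf_find {n N H : α → ℕ} {A : α → List (List Bool)}
    {S : α → List (List (ℕ × ℕ))} (hn : PF n) (hN : PF N) (hH : PF H) (hA : PF A) (hS : PF S) :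
    PF fun a => find (n a) (N a) (H a) (A a) (S a) := by
  unfold find
  fun_prop

end pf

end Pool.Agent.Lib.MP_be0860_lc
end

-- part Pool.Agent.Lib.MP_be0860_lc.Step
section

/-!
One step of local search on labelled permutations.
-/

set_option autoImplicit false

namespace Pool.Agent.Lib.MP_be0860_lc

open Pool.Agent.Shared.PolyTime Polynomial Enc Finset

/-- States: the partner and the label of each vertex. -/
abbrev St : Type := List (ℕ × Bool)

/-- The partner. -/
def mate (st : St) (x : ℕ) : ℕ := (st.getD x (0, false)).1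

/-- The label. -/
def lab (st : St) (x : ℕ) : Bool := (st.getD x (0, false)).2

/-- The arc leaving a vertex. -/
def look (l : Arcs) (x : ℕ) (b : Bool) : ℕ × ℕ × Bool :=
  (l.filter fun p => p.1 == x).headD (x, x, b)

/-- Rotating along a closed walk. -/
def rot (n : ℕ) (st : St) (l : Arcs) : St :=
  (List.range n).map fun x =>
    (min (mate st (look l x (lab st x)).2.1) n, (look l x (lab st x)).2.2)

/-- A square table. -/
def tab {β : Type} (n : ℕ) (f : ℕ → ℕ → β) : List (List β) :=
  (List.range n).map fun i => (List.range n).map fun j => f i j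

/-- One step of local search. -/
def step (n N H : ℕ) (E : List (List Bool)) (V : List (List (ℕ × ℕ))) (st : St) : St :=
  rot n st (find n N H (tab n fun u v => entry E u (mate st v))
    (tab n fun u v => (tb V u (mate st v) false + (H - tb V u (mate st u) (lab st u)),
      tb V u (mate st v) true + (H - tb V u (mate st u) (lab st u)))))

variable {n : ℕ}

/-- A state represents a labelled permutation. -/
def Rep (st : St) (σ : Equiv.Perm (Fin n)) (ρ : Fin n → Bool) : Prop :=
  ∀ x : Fin n, mate st x = σ x ∧ lab st x = ρ x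

/-- The value of a labelled permutation. -/
def val (V : List (List (ℕ × ℕ))) (σ : Equiv.Perm (Fin n)) (ρ : Fin n → Bool) : ℕ :=
  ∑ x : Fin n, tb V x (σ x) (ρ x)

/-- Forgetting bounds. -/
def up (p : Fin n × Fin n × Bool) : ℕ × ℕ × Bool := (p.1, p.2.1, p.2.2)

theorem getD_tab {β : Type} (f : ℕ → ℕ → β) (d : β) (i j : ℕ) :
    ((tab n f).getD i []).getD j d = if i < n ∧ j < n then f i j else d := by
  by_cases hi : i < n <;> by_cases hj : j < n <;> simp [tab, List.getD_eq_getElem?_getD, hi, hj]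

theorem entry_tab (f : ℕ → ℕ → Bool) (i j : Fin n) : entry (tab n f) i j = f i j := by
  rw [entry, getD_tab, if_pos ⟨i.2, j.2⟩]

theorem tb_tab (f : ℕ → ℕ → ℕ × ℕ) (i j : ℕ) (b : Bool) :
    tb (tab n f) i j b = if i < n ∧ j < n then cond b (f i j).2 (f i j).1 else 0 := by
  rw [tb, getD_tab]
  split_ifs <;> simp

theorem exists_lift : ∀ l : Arcs, (∀ p ∈ l, p.1 < n ∧ p.2.1 < n) →
    ∃ l' : List (Fin n × Fin n × Bool), l'.map up = l
  | [], _ => ⟨[], rfl⟩
  | p :: l, h => by
    obtain ⟨l', rfl⟩ := exists_lift l fun q hq => h q (by simp [hq])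
    exact ⟨(⟨p.1, (h p (by simp)).1⟩, ⟨p.2.1, (h p (by simp)).2⟩, p.2.2) :: l', rfl⟩

theorem ch_up : ∀ (l : List (Fin n × Fin n × Bool)) (s t : Fin n),
    Ch (s : ℕ) (l.map up) t ↔ Ch s l t
  | [], _, _ => Fin.val_inj
  | p :: l, _, t => and_congr Fin.val_inj (ch_up l p.2.1 t)

theorem fst_up (l : List (Fin n × Fin n × Bool)) :
    (l.map up).map Prod.fst = (l.map Prod.fst).map Fin.val := by
  simp [up]

theorem look_mem : ∀ {l : Arcs}, (l.map Prod.fst).Nodup → ∀ p ∈ l, ∀ b, look l p.1 b = p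
  | [], _, _, hp, _ => absurd hp List.not_mem_nil
  | q :: l, h, p, hp, b => by
    rw [List.map_cons, List.nodup_cons] at h
    rcases List.mem_cons.1 hp with rfl | hp
    · simp [look]
    · have : (q.1 == p.1) = false := by
        rw [beq_eq_false_iff_ne]
        intro e
        exact h.1 (e ▸ List.mem_map_of_mem hp)
      rw [look, List.filter_cons, this]
      exact look_mem h.2 p hp b

theorem look_not_mem {l : Arcs} {x : ℕ} (h : x ∉ l.map Prod.fst) (b : Bool) :
    look l x b = (x, x, b) := by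
  rw [look, List.filter_eq_nil_iff.2]
  · rfl
  · intro p hp e
    exact h (List.mem_map.2 ⟨p, hp, by simpa using e⟩)

theorem rot_get (st : St) (l : Arcs) (x : Fin n) :
    mate (rot n st l) x = min (mate st (look l x (lab st x)).2.1) n ∧
    lab (rot n st l) x = (look l x (lab st x)).2.2 := by
  simp [mate, lab, rot, List.getD_eq_getElem?_getD]

theorem rot_spec {st : St} {σ : Equiv.Perm (Fin n)} {ρ : Fin n → Bool} (h : Rep st σ ρ)
    {l : List (Fin n × Fin n × Bool)} (hl : l = [] ∨ ∃ s, Ch s l s)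
    (hn : (l.map Prod.fst).Nodup) : ∃ σ' ρ', Rep (rot n st (l.map up)) σ' ρ' ∧
      (∀ p ∈ l, σ' p.1 = σ p.2.1 ∧ ρ' p.1 = p.2.2) ∧
      ∀ x, x ∉ l.map Prod.fst → σ' x = σ x ∧ ρ' x = ρ x := by
  have hn' : ((l.map up).map Prod.fst).Nodup := by
    rw [fst_up]; exact hn.map Fin.val_injective
  obtain ⟨σ', h1, h2⟩ : ∃ σ' : Equiv.Perm (Fin n), (∀ p ∈ l, σ' p.1 = σ p.2.1) ∧
      ∀ x, x ∉ l.map Prod.fst → σ' x = σ x := by
    rcases hl with rfl | ⟨s, hs⟩
    · exact ⟨σ, by simp, fun _ _ => rfl⟩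
    · exact exists_move σ hs hn
  have e1 : ∀ p ∈ l, ∀ b, look (l.map up) p.1 b = up p := fun p hp b =>
    look_mem hn' (up p) (List.mem_map_of_mem hp) b
  have e2 : ∀ x : Fin n, x ∉ l.map Prod.fst → ∀ b,
      look (l.map up) x b = ((x : ℕ), (x : ℕ), b) :=
    fun x hx b => look_not_mem (by
      rw [fst_up, List.mem_map_of_injective Fin.val_injective]; exact hx) b
  refine ⟨σ', fun x => (look (l.map up) x (lab st x)).2.2, fun x => ⟨?_, (rot_get _ _ x).2⟩,
    fun p hp => ⟨h1 p hp, by beta_reduce; rw [e1 p hp]; rfl⟩,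
    fun x hx => ⟨h2 x hx, by beta_reduce; rw [e2 x hx, (h x).2]⟩⟩
  rw [(rot_get _ _ x).1]
  by_cases hx : x ∈ l.map Prod.fst
  · obtain ⟨p, hp, rfl⟩ := List.mem_map.1 hx
    rw [e1 p hp, h1 p hp, up, (h _).1, min_eq_left (σ _).2.le]
  · rw [e2 x hx, h2 x hx, (h _).1, min_eq_left (σ _).2.le]

theorem rot_nil {st : St} {σ : Equiv.Perm (Fin n)} {ρ : Fin n → Bool} (h : Rep st σ ρ) :
    Rep (rot n st []) σ ρ := by
  obtain ⟨σ', ρ', h1, -, h2⟩ := rot_spec h (l := []) (Or.inl rfl) (by simp)
  intro x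
  rw [← (h2 x (by simp)).1, ← (h2 x (by simp)).2]
  exact h1 x

theorem len_rot (st : St) (l : Arcs) : (enc (rot n st l)).length ≤ n * (2 * (2 * n + 2) + 1) := by
  refine (len_le_mul _ (2 * n + 2) fun x hx => ?_).trans (by simp [rot])
  obtain ⟨y, -, rfl⟩ := List.mem_map.1 hx
  simp only [len_prod, len_nat, len_bool]
  omega

theorem step_spec {N H : ℕ} (E : List (List Bool)) {V : List (List (ℕ × ℕ))}
    (hV : ∀ i j b, tb V i j b ≤ H) (hN : 1 ≤ N) {st : St} {σ : Equiv.Perm (Fin n)}
    {ρ : Fin n → Bool} (h : Rep st σ ρ) : ∃ σ' ρ', Rep (step n N H E V st) σ' ρ' ∧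
      (∀ x, σ' x = σ x ∨ entry E x (σ' x) = true) ∧ #{x | ρ' x} ≤ #{x | ρ x} + N ∧
      (val V σ ρ < val V σ' ρ' ∨ (σ' = σ ∧ ρ' = ρ ∧ ∀ (σ'' : Equiv.Perm (Fin n))
        (ρ'' : Fin n → Bool), (∀ x : Fin n, entry E x (σ'' x) = true) →
        #{x | ρ'' x ∧ σ'' x ≠ σ x} ≤ N → val V σ'' ρ'' ≤ val V σ ρ)) := by
  unfold step
  set A := tab n fun u v => entry E u (mate st v) with hA
  set S := tab n fun u v => (tb V u (mate st v) false + (H - tb V u (mate st u) (lab st u)),
      tb V u (mate st v) true + (H - tb V u (mate st u) (lab st u))) with hS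
  have hA' : ∀ u v : Fin n, entry A u v = entry E u (σ v) := fun u v => by
    rw [hA, entry_tab, (h v).1]
  have hS' : ∀ l : List (Fin n × Fin n × Bool), (score S (l.map up) : ℝ) =
      (l.map fun p => (tb V p.1 (σ p.2.1) p.2.2 : ℝ) - tb V p.1 (σ p.1) (ρ p.1)).sum +
        H * l.length := by
    intro l
    induction l with
    | nil => simp [score]
    | cons p l ih =>
      have e : tb S p.1 p.2.1 p.2.2 + tb V p.1 (σ p.1) (ρ p.1) =
          tb V p.1 (σ p.2.1) p.2.2 + H := by
        rw [hS, tb_tab, if_pos ⟨p.1.2, p.2.1.2⟩, (h _).1, (h _).1, (h _).2]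
        have := hV p.1 (σ p.1) (ρ p.1)
        cases p.2.2 <;> simp only [cond_true, cond_false] <;> omega
      have e' : (tb S p.1 p.2.1 p.2.2 : ℝ) + tb V p.1 (σ p.1) (ρ p.1) =
          tb V p.1 (σ p.2.1) p.2.2 + H := by exact_mod_cast e
      simp only [score, List.map_cons, List.sum_cons, List.length_cons, up] at ih ⊢
      push_cast at ih ⊢
      linarith
  by_cases h0 : find n N H A S = []
  · rw [h0]
    refine ⟨σ, ρ, rot_nil h, fun _ => Or.inl rfl, Nat.le_add_right _ _,
      Or.inr ⟨rfl, rfl, fun σ'' ρ'' h1 h2 => ?_⟩⟩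
    have key := sum_nonpos_of_orbits (σ⁻¹ * σ'')
      (fun x => (tb V x (σ'' x) (ρ'' x) : ℝ) - tb V x (σ x) (ρ x)) (fun x => by
      set τ : Equiv.Perm (Fin n) := σ⁻¹ * σ'' with hτ
      have hτ' : ∀ y, σ (τ y) = σ'' y := fun y => σ.apply_symm_apply _
      have hi := Function.iterate_injOn_Iio_minimalPeriod (f := τ) (x := x)
      have hp := (Function.isPeriodicPt_minimalPeriod τ x).eq
      have hL : Function.minimalPeriod τ x ≤ n := by
        simpa using Function.minimalPeriod_le_card (f := τ) (x := x)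
      generalize Function.minimalPeriod τ x = L at hi hp hL
      by_contra hc
      have hlen : (orb τ ρ'' x L).length = L := by simp [orb]
      refine find_complete (S := S) (fun i j b => ?_) n ((orb τ ρ'' x L).map up) x
        (by rw [List.length_map, hlen]; exact hL) le_rfl ?_ ?_ ?_ ?_ h0
      · rw [hS, tb_tab]
        have := hV i (mate st j) b
        split_ifs
        · cases b <;> simp only [cond_true, cond_false] <;> omega
        · exact Nat.zero_le _
      · rw [ch_up]
        have := ch_orb τ ρ'' x L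
        rwa [hp] at this
      · intro p hp'
        obtain ⟨p', hp'', rfl⟩ := List.mem_map.1 hp'
        obtain ⟨i, -, rfl⟩ := List.mem_map.1 hp''
        refine ⟨Fin.is_lt _, Fin.is_lt _, ?_⟩
        simp only [up]
        rw [hA', Function.iterate_succ_apply', hτ']
        exact h1 _
      · by_cases hL1 : L ≤ 1
        · exact List.countP_le_length.trans (by rw [List.length_map, hlen]; omega)
        refine le_trans ?_ h2
        have e : reds ((orb τ ρ'' x L).map up) = #{i ∈ range L | ρ'' (τ^[i] x)} := by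
          rw [reds, orb, List.map_map, List.countP_map, List.countP_eq_length_filter,
            ← List.toFinset_card_of_nodup (List.nodup_range.filter _)]
          congr 1
          ext i
          simp [up]
        rw [e]
        refine Finset.card_le_card_of_injOn (fun i => τ^[i] x) (fun i hi' => ?_)
          (hi.mono fun i hi' => mem_range.1 (mem_filter.1 hi').1)
        have h3 := mem_filter.1 hi'
        have h4 := mem_range.1 h3.1
        refine mem_filter.2 ⟨mem_univ _, h3.2, fun e' => ?_⟩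
        rw [← hτ', σ.injective.eq_iff, ← Function.iterate_succ_apply' τ] at e'
        by_cases h5 : i + 1 < L
        · have := hi h5 h4 e'
          omega
        · rw [show i.succ = L by omega, hp] at e'
          have := hi (show 0 < L by omega) h4 e'
          omega
      · have e := hS' (orb τ ρ'' x L)
        have e' : ((orb τ ρ'' x L).map fun p => (tb V p.1 (σ p.2.1) p.2.2 : ℝ) -
            tb V p.1 (σ p.1) (ρ p.1)).sum = ∑ i ∈ range L,
            ((tb V (τ^[i] x) (σ'' (τ^[i] x)) (ρ'' (τ^[i] x)) : ℝ) -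
              tb V (τ^[i] x) (σ (τ^[i] x)) (ρ (τ^[i] x))) := by
          rw [orb, List.map_map, ← List.sum_toFinset _ List.nodup_range, List.toFinset_range]
          simp only [Function.comp_apply, Function.iterate_succ_apply', hτ']
        rw [e'] at e
        rw [List.length_map]
        have : (H : ℝ) * (orb τ ρ'' x L).length < score S ((orb τ ρ'' x L).map up) := by
          linarith [not_le.1 hc]
        exact_mod_cast this)
    rw [Finset.sum_sub_distrib, sub_nonpos] at key
    unfold val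
    exact_mod_cast key
  obtain ⟨s, h1, h2, h3, h4, h5⟩ := find_sound.resolve_left h0
  obtain ⟨l, hl⟩ := exists_lift (n := n) _ fun p hp => ⟨(h2 p hp).1, (h2 p hp).2.1⟩
  rw [← hl] at h1 h2 h3 h4 h5 ⊢
  rw [fst_up] at h3
  have h6 := List.Nodup.of_map _ h3
  obtain ⟨σ', ρ', e1, e2, e3⟩ := rot_spec h (l := l) (by
    rcases l with _ | ⟨p, l⟩
    · exact Or.inl rfl
    · refine Or.inr ⟨p.1, (ch_up _ _ _).1 ?_⟩
      have : s = p.1 := h1.1.symm
      rwa [this] at h1) h6
  refine ⟨σ', ρ', e1, fun x => ?_, ?_, Or.inl ?_⟩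
  · by_cases hx : x ∈ l.map Prod.fst
    · obtain ⟨p, hp, rfl⟩ := List.mem_map.1 hx
      rw [(e2 p hp).1, ← hA']
      exact Or.inr (h2 _ (List.mem_map_of_mem hp)).2.2
    · exact Or.inl (e3 x hx).1
  · refine le_trans (Finset.card_le_card (t := univ.filter (fun x => ρ x) ∪
      ((l.filter fun p => p.2.2).map Prod.fst).toFinset) fun x hx => ?_)
      ((Finset.card_union_le _ _).trans (Nat.add_le_add_left
        ((List.toFinset_card_le _).trans (le_trans ?_ h4)) _))
    · simp only [mem_filter, mem_univ, true_and, mem_union, List.mem_toFinset] at hx ⊢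
      by_cases hx' : x ∈ l.map Prod.fst
      · obtain ⟨p, hp, rfl⟩ := List.mem_map.1 hx'
        exact Or.inr (List.mem_map_of_mem (List.mem_filter.2 ⟨hp, (e2 p hp).2 ▸ hx⟩))
      · exact Or.inl ((e3 x hx').2 ▸ hx)
    · rw [List.length_map, reds, List.countP_map, List.countP_eq_length_filter]
      exact le_rfl
  · have e4 := sum_list Prod.fst l h6
      fun x => (tb V x (σ' x) (ρ' x) : ℝ) - tb V x (σ x) (ρ x)
    have e5 : ∀ x : Fin n, (if x ∈ l.map Prod.fst then
        (tb V x (σ' x) (ρ' x) : ℝ) - tb V x (σ x) (ρ x) else 0) =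
        (tb V x (σ' x) (ρ' x) : ℝ) - tb V x (σ x) (ρ x) := fun x => by
      split_ifs with hx
      · rfl
      · rw [(e3 x hx).1, (e3 x hx).2, sub_self]
    simp only [e5] at e4
    rw [Finset.sum_sub_distrib, List.map_congr_left (g := fun p =>
      (tb V p.1 (σ p.2.1) p.2.2 : ℝ) - tb V p.1 (σ p.1) (ρ p.1))
      fun p hp => by rw [(e2 p hp).1, (e2 p hp).2]] at e4
    have e6 := hS' l
    rw [List.length_map] at h5
    have e7 : (H : ℝ) * l.length < score S (l.map up) := by exact_mod_cast h5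
    have e8 : ∑ x : Fin n, (tb V x (σ x) (ρ x) : ℝ) < ∑ x : Fin n, (tb V x (σ' x) (ρ' x) : ℝ) := by
      linarith
    unfold val
    exact_mod_cast e8

section pf
variable {α : Type} [Enc α]

@[fun_prop] theorem pf_mate {st : α → St} {x : α → ℕ} (hs : PF st) (hx : PF x) :
    PF fun a => mate (st a) (x a) := by
  unfold mate
  fun_prop

@[fun_prop] theorem pf_lab {st : α → St} {x : α → ℕ} (hs : PF st) (hx : PF x) :
    PF fun a => lab (st a) (x a) := by
  unfold lab
  fun_prop

@[fun_prop] theorem pf_look {l : α → Arcs} {x : α → ℕ} {b : α → Bool} (hl : PF l) (hx : PF x)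
    (hb : PF b) : PF fun a => look (l a) (x a) (b a) := by
  unfold look
  fun_prop

@[fun_prop] theorem pf_rot {n : α → ℕ} {st : α → St} {l : α → Arcs} (hn : PF n) (hs : PF st)
    (hl : PF l) : PF fun a => rot (n a) (st a) (l a) := by
  unfold rot
  fun_prop

@[fun_prop] theorem pf_step {n N H : α → ℕ} {E : α → List (List Bool)}
    {V : α → List (List (ℕ × ℕ))} {st : α → St} (hn : PF n) (hN : PF N) (hH : PF H) (hE : PF E)
    (hV : PF V) (hs : PF st) : PF fun a => step (n a) (N a) (H a) (E a) (V a) (st a) := by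
  unfold step tab
  fun_prop

/-- Iterating a map whose values are rotated states. -/
theorem pf_iter {n k : α → ℕ} {i : α → St} {f : α → St → St} (hn : PF n) (hk : PF k) (hi : PF i)
    (hf : PF fun p : α × St => f p.1 p.2) (h : ∀ a st, ∃ st' l, f a st = rot (n a) st' l) :
    PF fun a => (f a)^[k a] (i a) := by
  refine PF.iterate hk hi hf ?_
  obtain ⟨p, hp⟩ := hn.size
  obtain ⟨r, hr⟩ := hi.size
  refine ⟨r + p * (2 * (2 * p + 2) + 1), fun a j _ => ?_⟩
  have h1 := hp a _ le_rfl
  rw [len_nat] at h1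
  simp only [eval_add, eval_mul, eval_ofNat, eval_one]
  rcases j with _ | j
  · exact (hr a _ le_rfl).trans (Nat.le_add_right _ _)
  · rw [Function.iterate_succ_apply']
    obtain ⟨st', l, e⟩ := h a ((f a)^[j] (i a))
    rw [e]
    exact (len_rot _ _).trans (le_trans (Nat.mul_le_mul h1 (by omega)) (Nat.le_add_left _ _))

end pf

end Pool.Agent.Lib.MP_be0860_lc
end

-- part Pool.Agent.Lib.MP_be0860_lc.Phases
section

/-!
The three phases: finding a perfect matching, climbing towards a target, fixing the cardinality.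
-/

set_option autoImplicit false

namespace Pool.Agent.Lib.MP_be0860_lc

open Pool.Agent.Shared.PolyTime Finset

/-- Lookup in a table of numbers. -/
def ent (W : List (List ℕ)) (i j : ℕ) : ℕ := (W.getD i []).getD j 0

/-- A permutation with as many edges as possible. -/
def pm (n : ℕ) (E : List (List Bool)) : St :=
  (step n 1 1 (tab n fun _ _ => true) (tab n fun u y => (cond (entry E u y) 1 0, 0)))^[n]
    ((List.range n).map fun x => (x, false))

/-- The state is an unlabelled perfect matching. -/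
def full (n : ℕ) (E : List (List Bool)) (st : St) : Bool :=
  (List.range n).all fun x => entry E x (mate st x) && !(lab st x)

/-- The number of red vertices. -/
def cnt (n : ℕ) (st : St) : ℕ := (List.range n).countP fun x => lab st x

/-- The weight of the red edges. -/
def wgt (n : ℕ) (W : List (List ℕ)) (st : St) : ℕ :=
  ((List.range n).map fun x => cond (lab st x) (ent W x (mate st x)) 0).sum

/-- A step towards the target `(k, V)`. -/
def climbStep (n N k B V : ℕ) (E : List (List Bool)) (W : List (List ℕ)) (st : St) : St :=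
  cond (Nat.blt (cnt n st) k && Nat.blt (wgt n W st) V)
    (step n N (V + k * B) E (tab n fun u y => (V - wgt n W st, (k - cnt n st) * ent W u y)) st)
    (rot n st [])

/-- A step towards cardinality `k`. -/
def fixStep (n k : ℕ) (W : List (List ℕ)) (st : St) : St :=
  rot n st (cond (Nat.blt k (cnt n st))
    ((((List.range n).filter fun x => lab st x &&
      Nat.ble (cnt n st * ent W x (mate st x)) (wgt n W st)).take 1).map fun x => (x, x, false))
    (cond (Nat.blt (cnt n st) k)
      ((((List.range n).filter fun x => !(lab st x)).take 1).map fun x => (x, x, true)) []))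

variable {n : ℕ} {st : St} {σ : Equiv.Perm (Fin n)} {ρ : Fin n → Bool}

theorem sum_range_eq (f : ℕ → ℕ) : ((List.range n).map f).sum = ∑ x : Fin n, f x := by
  rw [Fin.sum_univ_eq_sum_range, ← List.sum_toFinset _ List.nodup_range, List.toFinset_range]

theorem cnt_eq (h : Rep st σ ρ) : cnt n st = #{x | ρ x} := by
  have e : ∀ l : List ℕ, l.countP (fun x => lab st x) =
      (l.map fun x => if lab st x then 1 else 0).sum := by
    intro l
    induction l with
    | nil => rfl
    | cons a l ih => rw [List.countP_cons, ih, List.map_cons, List.sum_cons, add_comm]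
  rw [cnt, Finset.card_filter, e, sum_range_eq]
  exact Finset.sum_congr rfl fun x _ => by rw [(h x).2]

theorem wgt_eq (W : List (List ℕ)) (h : Rep st σ ρ) :
    wgt n W st = wt (fun x y : Fin n => ent W x y) σ ρ := by
  rw [wgt, sum_range_eq, wt]
  exact Finset.sum_congr rfl fun x _ => by rw [(h x).1, (h x).2]; cases ρ x <;> rfl

theorem full_iff (E : List (List Bool)) (h : Rep st σ ρ) :
    full n E st = true ↔ ∀ x : Fin n, entry E x (σ x) = true ∧ ρ x = false := by
  simp only [full, List.all_eq_true, List.mem_range, Bool.and_eq_true, Bool.not_eq_true']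
  exact ⟨fun h1 x => by rw [← (h x).1, ← (h x).2]; exact h1 x x.2,
    fun h1 x hx => by rw [(h ⟨x, hx⟩).1, (h ⟨x, hx⟩).2]; exact h1 ⟨x, hx⟩⟩

theorem pm_spec (n : ℕ) (E : List (List Bool)) : ∃ (σ : Equiv.Perm (Fin n)) (ρ : Fin n → Bool),
    Rep (pm n E) σ ρ ∧ ((∃ s : Equiv.Perm (Fin n), ∀ x : Fin n, entry E x (s x) = true) →
      full n E (pm n E) = true) := by
  set V : List (List (ℕ × ℕ)) := tab n fun u y => (cond (entry E u y) 1 0, 0) with hV
  have hV1 : ∀ i j b, tb V i j b ≤ 1 := by
    intro i j b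
    rw [hV, tb_tab]
    split_ifs
    · cases b <;> cases entry E i j <;> simp
    · exact Nat.zero_le _
  have hV2 : ∀ (i j : Fin n) b, tb V i j b = 1 ↔ entry E i j = true ∧ b = false := by
    intro i j b
    rw [hV, tb_tab, if_pos ⟨i.2, j.2⟩]
    cases b <;> cases entry E i j <;> simp
  have key : ∀ j, ∃ (σ : Equiv.Perm (Fin n)) (ρ : Fin n → Bool),
      Rep ((step n 1 1 (tab n fun _ _ => true) V)^[j] ((List.range n).map fun x => (x, false)))
        σ ρ ∧ ((∃ s : Equiv.Perm (Fin n), ∀ x : Fin n, entry E x (s x) = true) →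
        min j n ≤ val V σ ρ) := by
    intro j
    induction j with
    | zero => exact ⟨1, fun _ => false, fun x => by
        simp [mate, lab, List.getD_eq_getElem?_getD], fun _ => by simp⟩
    | succ j ih =>
      obtain ⟨σ, ρ, h1, h2⟩ := ih
      obtain ⟨σ', ρ', h3, -, -, h4⟩ := step_spec (tab n fun _ _ => true) hV1 le_rfl h1
      rw [Function.iterate_succ_apply']
      refine ⟨σ', ρ', h3, fun hs => ?_⟩
      rcases h4 with h4 | ⟨rfl, rfl, h4⟩
      · have := h2 hs
        omega
      · obtain ⟨s, hs⟩ := hs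
        have h5 := h4 s (fun _ => false) (fun x => by rw [entry_tab]) (by simp)
        have h6 : val V s (fun _ => false) = n := by
          rw [val, Finset.sum_congr rfl fun x _ => (hV2 x (s x) false).2 ⟨hs x, rfl⟩]
          simp
        omega
  obtain ⟨σ, ρ, h1, h2⟩ := key n
  refine ⟨σ, ρ, h1, fun hs => (full_iff E h1).2 fun x => (hV2 _ _ _).1 ?_⟩
  have h3 := h2 hs
  by_contra h4
  have h5 : val V σ ρ < ∑ _x : Fin n, 1 :=
    Finset.sum_lt_sum (fun y _ => hV1 _ _ _) ⟨x, mem_univ _, lt_of_le_of_ne (hV1 _ _ _) h4⟩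
  simp at h5 h3
  omega

omit st σ ρ in
theorem sum_nv {α : Type} [Fintype α] (w : α → α → ℕ) (a b : ℝ) (σ : Equiv.Perm α)
    (ρ : α → Bool) : ∑ x, nv w a b x (σ x) (ρ x) =
      a * wt w σ ρ + b * (Fintype.card α - (#{x | ρ x} : ℕ)) := by
  rw [wt, Finset.card_filter, ← Finset.card_univ, Finset.card_eq_sum_ones]
  push_cast
  rw [← Finset.sum_sub_distrib, Finset.mul_sum, Finset.mul_sum, ← Finset.sum_add_distrib]
  refine Finset.sum_congr rfl fun x _ => ?_
  cases ρ x <;> simp [nv]

section climb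
variable {N k B V : ℕ} {E : List (List Bool)} {W : List (List ℕ)}

theorem climbStep_spec (hW : ∀ i j, ent W i j ≤ B) (hN : 1 ≤ N) (h : Rep st σ ρ)
    (hE : ∀ x : Fin n, entry E x (σ x) = true) {r w : ℕ} (hr : r = #{x | ρ x})
    (hw : w = wt (fun x y : Fin n => ent W x y) σ ρ) :
    ∃ (σ' : Equiv.Perm (Fin n)) (ρ' : Fin n → Bool), Rep (climbStep n N k B V E W st) σ' ρ' ∧
      (∀ x : Fin n, entry E x (σ' x) = true) ∧ (¬ (r < k ∧ w < V) → σ' = σ ∧ ρ' = ρ) ∧
      (r < k → w < V → ¬ Stuck (fun x y : Fin n => entry E x y = true)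
        (fun x y : Fin n => ent W x y) ((k : ℝ) - r) ((V : ℝ) - w) N σ ρ →
        #{x | ρ' x} ≤ r + N ∧ ((V : ℝ) - wt (fun x y : Fin n => ent W x y) σ' ρ') * (k - r) <
          (V - w) * (k - (#{x | ρ' x} : ℕ))) := by
  unfold climbStep
  rw [cnt_eq h, wgt_eq W h, ← hr, ← hw]
  by_cases hc : r < k ∧ w < V
  swap
  · have : (Nat.blt r k && Nat.blt w V) = false := by
      rw [Bool.eq_false_iff]; simpa [Nat.blt_eq] using hc
    rw [this]
    exact ⟨σ, ρ, rot_nil h, hE, fun _ => ⟨rfl, rfl⟩, fun h1 h2 => absurd ⟨h1, h2⟩ hc⟩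
  have : (Nat.blt r k && Nat.blt w V) = true := by simpa [Nat.blt_eq] using hc
  rw [this, cond_true]
  set T : List (List (ℕ × ℕ)) := tab n fun u y => (V - w, (k - r) * ent W u y) with hT
  have hval : ∀ (σ : Equiv.Perm (Fin n)) (ρ : Fin n → Bool), (val T σ ρ : ℝ) =
      ∑ x, nv (fun x y : Fin n => ent W x y) ((k : ℝ) - r) ((V : ℝ) - w) x (σ x) (ρ x) := by
    intro σ ρ
    rw [val]
    push_cast
    refine Finset.sum_congr rfl fun x _ => ?_
    rw [hT, tb_tab, if_pos ⟨x.2, (σ x).2⟩]
    cases ρ x <;> simp [nv, Nat.cast_sub hc.1.le, Nat.cast_sub hc.2.le]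
  obtain ⟨σ', ρ', h1, h2, h3, h4⟩ := step_spec (N := N) (H := V + k * B) E (V := T)
    (fun i j b => by
      rw [hT, tb_tab]
      have := Nat.mul_le_mul (Nat.sub_le k r) (hW i j)
      split_ifs
      · cases b <;> simp only [cond_true, cond_false] <;> omega
      · exact Nat.zero_le _) hN h
  refine ⟨σ', ρ', h1, fun x => ?_, fun h5 => absurd hc h5, fun _ _ hst => ⟨hr ▸ h3, ?_⟩⟩
  · rcases h2 x with h5 | h5
    · rw [h5]; exact hE x
    · exact h5
  · rcases h4 with h4 | ⟨-, -, h4⟩
    · have h5 : (val T σ ρ : ℝ) < val T σ' ρ' := by exact_mod_cast h4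
      rw [hval, hval, sum_nv, sum_nv, ← hr, ← hw] at h5
      linarith
    · refine absurd (fun σ'' ρ'' e1 e2 => ?_) hst
      rw [← hval, ← hval]
      exact_mod_cast h4 σ'' ρ'' e1 e2

/-- The slope towards the target. -/
noncomputable def slope (k V : ℕ) (p : ℕ × ℕ) : ℝ := ((V : ℝ) - p.2) / ((k : ℝ) - p.1)

open Classical in
theorem climb_spec (hW : ∀ i j, ent W i j ≤ B) (hN : 1 ≤ N) (h : Rep st σ ρ)
    (hE : ∀ x : Fin n, entry E x (σ x) = true) (j : ℕ) :
    ∃ (σ' : Equiv.Perm (Fin n)) (ρ' : Fin n → Bool),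
      Rep ((climbStep n N k B V E W)^[j] st) σ' ρ' ∧ (∀ x : Fin n, entry E x (σ' x) = true) ∧
      (#{x | ρ x} < k → (∀ (σ : Equiv.Perm (Fin n)) (ρ : Fin n → Bool),
        (∀ x : Fin n, entry E x (σ x) = true) → #{x | ρ x} < k →
        wt (fun x y : Fin n => ent W x y) σ ρ < V →
        ¬ Stuck (fun x y : Fin n => entry E x y = true) (fun x y : Fin n => ent W x y)
          ((k : ℝ) - (#{x | ρ x} : ℕ)) ((V : ℝ) - wt (fun x y : Fin n => ent W x y) σ ρ) N σ ρ) →
        (V ≤ wt (fun x y : Fin n => ent W x y) σ' ρ' ∧ #{x | ρ' x} < k + N) ∨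
        (#{x | ρ' x} < k ∧ wt (fun x y : Fin n => ent W x y) σ' ρ' < V ∧
          #{p ∈ range k ×ˢ range V | slope k V p <
            slope k V (#{x | ρ' x}, wt (fun x y : Fin n => ent W x y) σ' ρ')} + j ≤ k * V)) := by
  induction j with
  | zero =>
    refine ⟨σ, ρ, h, hE, fun h1 _ => ?_⟩
    by_cases h2 : wt (fun x y : Fin n => ent W x y) σ ρ < V
    · exact Or.inr ⟨h1, h2, (Finset.card_filter_le _ _).trans (by simp)⟩
    · exact Or.inl ⟨not_lt.1 h2, by omega⟩
  | succ j ih =>
    obtain ⟨σ₁, ρ₁, h1, h2, h3⟩ := ih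
    obtain ⟨σ₂, ρ₂, h4, h5, h6, h7⟩ := climbStep_spec (k := k) (V := V) hW hN h1 h2 rfl rfl
    rw [Function.iterate_succ_apply']
    refine ⟨σ₂, ρ₂, h4, h5, fun e1 e2 => ?_⟩
    rcases h3 e1 e2 with h3 | ⟨e3, e4, e5⟩
    · obtain ⟨rfl, rfl⟩ := h6 (by omega)
      exact Or.inl h3
    obtain ⟨e6, e7⟩ := h7 e3 e4 (e2 σ₁ ρ₁ h2 e3 e4)
    generalize wt (fun x y : Fin n => ent W x y) σ₁ ρ₁ = w₁ at *
    generalize wt (fun x y : Fin n => ent W x y) σ₂ ρ₂ = w₂ at *
    generalize #{x | ρ₁ x} = r₁ at *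
    generalize #{x | ρ₂ x} = r₂ at *
    have f1 : (0 : ℝ) < k - r₁ := sub_pos.2 (by exact_mod_cast e3)
    have f2 : (0 : ℝ) < V - w₁ := sub_pos.2 (by exact_mod_cast e4)
    by_cases e8 : w₂ < V
    swap
    · exact Or.inl ⟨not_lt.1 e8, by omega⟩
    have f3 : (0 : ℝ) < V - w₂ := sub_pos.2 (by exact_mod_cast e8)
    have f4 : (0 : ℝ) < k - r₂ := by
      by_contra f5
      nlinarith
    have e9 : r₂ < k := by exact_mod_cast sub_pos.1 f4
    have f5 : slope k V (r₂, w₂) < slope k V (r₁, w₁) := by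
      rw [slope, slope, div_lt_div_iff₀ f4 f1]
      exact e7
    refine Or.inr ⟨e9, e8, le_trans ?_ e5⟩
    rw [add_comm j, ← add_assoc, Nat.add_le_add_iff_right, Nat.succ_le_iff]
    refine Finset.card_lt_card ⟨fun p hp => ?_, fun hsub => ?_⟩
    · rw [mem_filter] at hp ⊢
      exact ⟨hp.1, hp.2.trans f5⟩
    · have := hsub (x := (r₂, w₂)) (mem_filter.2 ⟨by simp [e8, e9], f5⟩)
      exact lt_irrefl _ (mem_filter.1 this).2

end climb

theorem rot_loop (h : Rep st σ ρ) (x : Fin n) (b : Bool) :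
    Rep (rot n st [((x : ℕ), (x : ℕ), b)]) σ (Function.update ρ x b) := by
  obtain ⟨σ', ρ', h1, h2, h3⟩ := rot_spec h (l := [(x, x, b)]) (Or.inr ⟨x, rfl, rfl⟩) (by simp)
  intro y
  by_cases hy : y = x
  · subst hy
    have := h2 (y, y, b) (by simp)
    rw [Function.update_self]
    exact ⟨(h1 y).1.trans (congrArg _ this.1), (h1 y).2.trans this.2⟩
  · have := h3 y (by simpa using hy)
    rw [Function.update_of_ne hy, ← this.1, ← this.2]
    exact h1 y

theorem update_true {x : Fin n} (hx : ρ x = false) (w : Fin n → Fin n → ℕ) :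
    #{y | Function.update ρ x true y} = #{y | ρ y} + 1 ∧
      wt w σ (Function.update ρ x true) = wt w σ ρ + w x (σ x) := by
  have e : ∀ f : Fin n → ℕ, ∑ y, (if Function.update ρ x true y then f y else 0) =
      ∑ y, (if ρ y then f y else 0) + f x := by
    intro f
    rw [← Finset.add_sum_erase _ _ (mem_univ x), ← Finset.add_sum_erase _ _ (mem_univ x),
      Finset.sum_congr rfl fun y hy => by rw [Function.update_of_ne (mem_erase.1 hy).1]]
    simp [hx, add_comm]
  exact ⟨by rw [Finset.card_filter, Finset.card_filter, e], e _⟩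

theorem take_filter {p : ℕ → Bool} (h : ∃ x : Fin n, p x = true) :
    ∃ x : Fin n, p x = true ∧ ((List.range n).filter p).take 1 = [(x : ℕ)] := by
  obtain ⟨x, hx⟩ := h
  obtain ⟨y, l, e⟩ := List.exists_cons_of_ne_nil
    (List.ne_nil_of_mem (List.mem_filter.2 ⟨List.mem_range.2 x.2, hx⟩))
  have : y ∈ (List.range n).filter p := by rw [e]; simp
  rw [List.mem_filter, List.mem_range] at this
  exact ⟨⟨y, this.1⟩, this.2, by rw [e]; rfl⟩

theorem fix_spec {k : ℕ} (hk : k ≤ n) (W : List (List ℕ)) (h : Rep st σ ρ) (j : ℕ) :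
    ∃ ρ' : Fin n → Bool, Rep ((fixStep n k W)^[j] st) σ ρ' ∧
      (#{x | ρ' x} - k ≤ n - j ∧ k - #{x | ρ' x} ≤ n - j) ∧
      ∀ K V : ℕ, V * max #{x | ρ x} k ≤ K * wt (fun x y : Fin n => ent W x y) σ ρ →
        V * max #{x | ρ' x} k ≤ K * wt (fun x y : Fin n => ent W x y) σ ρ' := by
  have hc : ∀ ρ : Fin n → Bool, #{x | ρ x} ≤ n := fun ρ =>
    (Finset.card_filter_le _ _).trans (by simp)
  induction j with
  | zero => exact ⟨ρ, h, by have := hc ρ; omega, fun _ _ h => h⟩
  | succ j ih =>
    obtain ⟨ρ₁, h1, h2, h3⟩ := ih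
    rw [Function.iterate_succ_apply']
    generalize (fixStep n k W)^[j] st = st₁ at h1
    unfold fixStep
    rw [cnt_eq h1, wgt_eq W h1]
    rcases lt_trichotomy k #{x | ρ₁ x} with hlt | heq | hgt
    · rw [Nat.blt_eq.mpr hlt, cond_true]
      obtain ⟨x, e1, e2⟩ := take_filter (n := n) (p := fun x => lab st₁ x &&
        Nat.ble (#{x | ρ₁ x} * ent W x (mate st₁ x)) (wt (fun x y : Fin n => ent W x y) σ ρ₁)) (by
        obtain ⟨x, e1, e2⟩ := Finset.exists_le_of_sum_le (s := univ.filter fun x : Fin n => ρ₁ x)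
          (f := fun x : Fin n => #{x | ρ₁ x} * ent W x (σ x))
          (g := fun _ => wt (fun x y : Fin n => ent W x y) σ ρ₁)
          (Finset.card_pos.1 (by omega)) (by
            rw [← Finset.mul_sum, Finset.sum_const, smul_eq_mul, wt, Finset.sum_filter])
        exact ⟨x, by simpa [(h1 x).1, (h1 x).2] using ⟨(mem_filter.1 e1).2, e2⟩⟩)
      rw [e2]
      simp only [Bool.and_eq_true, Nat.ble_eq, (h1 x).1, (h1 x).2] at e1
      obtain ⟨e3, e4⟩ := update_true (σ := σ) (ρ := Function.update ρ₁ x false) (x := x) (by simp)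
        fun x y : Fin n => ent W x y
      rw [Function.update_idem, Function.update_eq_self_iff.2 e1.1.symm] at e3 e4
      refine ⟨_, rot_loop h1 x false, by omega, fun K V e => ?_⟩
      have e5 := h3 K V e
      have e6 := e1.2
      rw [max_eq_left hlt.le] at e5
      rw [max_eq_left (by omega)]
      rw [e3, e4] at e5 e6
      generalize #{y | Function.update ρ₁ x false y} = r at *
      generalize wt (fun x y : Fin n => ent W x y) σ (Function.update ρ₁ x false) = w at *
      generalize ent W x (σ x) = c at *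
      have e7 : r * c ≤ w := by rw [Nat.add_mul] at e6; omega
      refine Nat.le_of_mul_le_mul_right (c := r + 1) ?_ (by omega)
      calc V * r * (r + 1) = V * (r + 1) * r := by ring
        _ ≤ K * (w + c) * r := Nat.mul_le_mul_right r e5
        _ = K * (w * r + r * c) := by ring
        _ ≤ K * (w * r + w) := Nat.mul_le_mul_left K (by omega)
        _ = K * w * (r + 1) := by ring
    · have e1 : Nat.blt k #{x | ρ₁ x} = false := by
        rw [Bool.eq_false_iff]; simp [Nat.blt_eq, heq]
      have e2 : Nat.blt #{x | ρ₁ x} k = false := by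
        rw [Bool.eq_false_iff]; simp [Nat.blt_eq, heq]
      rw [e1, e2]
      exact ⟨ρ₁, rot_nil h1, by omega, h3⟩
    · have e0 : Nat.blt k #{x | ρ₁ x} = false := by
        rw [Bool.eq_false_iff]; simp [Nat.blt_eq, hgt.le]
      rw [e0, Nat.blt_eq.mpr hgt, cond_false, cond_true]
      obtain ⟨x, e1, e2⟩ := take_filter (n := n) (p := fun x => !(lab st₁ x)) (by
        by_contra hno
        push Not at hno
        have : (univ.filter fun x => ρ₁ x) = univ :=
          Finset.filter_true_of_mem fun x _ => by simpa [(h1 x).2] using hno x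
        rw [this] at hgt
        simp at hgt
        omega)
      rw [e2]
      obtain ⟨e3, e4⟩ := update_true (σ := σ) (ρ := ρ₁) (x := x) (by simpa [(h1 x).2] using e1)
        fun x y : Fin n => ent W x y
      refine ⟨_, rot_loop h1 x true, by omega, fun K V e => ?_⟩
      have e5 := h3 K V e
      rw [max_eq_right hgt.le] at e5
      rw [max_eq_right (by omega)]
      exact e5.trans (Nat.mul_le_mul_left _ (by omega))

end Pool.Agent.Lib.MP_be0860_lc
end

-- part Pool.Agent.Lib.MP_be0860_lc.Best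
section

/-!
Trying all small sets of forced edges and all targets, for small integer weights.
-/

set_option autoImplicit false

namespace Pool.Agent.Lib.MP_be0860_lc

open Pool.Agent.Shared.PolyTime Finset Enc

/-- All pairs. -/
def prs (n : ℕ) : List (ℕ × ℕ) := (List.range n).flatMap fun i => (List.range n).map fun j => (i, j)

/-- All lists of at most `c` pairs. -/
def tup (n : ℕ) : ℕ → List (List (ℕ × ℕ))
  | 0 => [[]]
  | c + 1 => [] :: (prs n).flatMap fun x => (tup n c).map fun t => x :: t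

/-- The edges left after forcing a list of edges. -/
def forceT (n : ℕ) (E : List (List Bool)) (F : List (ℕ × ℕ)) : List (List Bool) :=
  tab n fun u v => entry E u v && F.all fun z => (u == z.1) == (v == z.2)

/-- Existence of a perfect matching. -/
def hasPM (n : ℕ) (E : List (List Bool)) : Bool := full n E (pm n E)

/-- The three phases. -/
def run (n N k B V : ℕ) (E : List (List Bool)) (W : List (List ℕ)) : St :=
  (fixStep n k W)^[n] ((climbStep n N k B V E W)^[k * V + 1] (pm n E))

/-- All candidates. -/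
def cands (t n N k B : ℕ) (E : List (List Bool)) (W : List (List ℕ)) : List St :=
  (tup n t).flatMap fun F => cond (hasPM n (forceT n E F))
    ((List.range (k * B + 1)).map fun V => run n N k B V (forceT n E F) W) []

/-- The heaviest member of a list of states. -/
def heaviest (n : ℕ) (W : List (List ℕ)) (C : List St) : St :=
  (C.filter fun c => C.all fun c' => Nat.ble (wgt n W c') (wgt n W c)).headD []

theorem mem_prs {n : ℕ} {p : ℕ × ℕ} : p ∈ prs n ↔ p.1 < n ∧ p.2 < n := by
  obtain ⟨i, j⟩ := p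
  simp [prs]

theorem mem_tup (n c : ℕ) : ∀ D : List (ℕ × ℕ), D.length ≤ c → (∀ x ∈ D, x ∈ prs n) →
    D ∈ tup n c := by
  induction c with
  | zero => intro D h _; simp [tup, List.length_eq_zero_iff.1 (Nat.le_zero.1 h)]
  | succ c ih =>
    rintro (_ | ⟨x, D⟩) h h'
    · simp [tup]
    · refine List.mem_cons_of_mem _ (List.mem_flatMap.2 ⟨x, h' x (by simp), List.mem_map.2
        ⟨D, ih D (by simpa using h) fun y hy => h' y (by simp [hy]), rfl⟩⟩)

variable {n : ℕ}

theorem entry_forceT (E : List (List Bool)) (F : List (ℕ × ℕ)) (u v : Fin n) :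
    entry (forceT n E F) u v = true ↔ entry E u v = true ∧ ∀ z ∈ F, ((u : ℕ) = z.1 ↔ (v : ℕ) = z.2) := by
  rw [forceT, entry_tab, Bool.and_eq_true, List.all_eq_true]
  refine and_congr Iff.rfl (forall₂_congr fun z _ => ?_)
  rw [beq_iff_eq, Bool.eq_iff_iff, beq_iff_eq, beq_iff_eq]

theorem hasPM_iff (E : List (List Bool)) :
    hasPM n E = true ↔ ∃ s : Equiv.Perm (Fin n), ∀ x : Fin n, entry E x (s x) = true := by
  obtain ⟨σ, ρ, h1, h2⟩ := pm_spec n E
  exact ⟨fun h => ⟨σ, fun x => ((full_iff E h1).1 h x).1⟩, h2⟩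

theorem heaviest_spec (W : List (List ℕ)) {C : List St} (h : C ≠ []) :
    heaviest n W C ∈ C ∧ ∀ c ∈ C, wgt n W c ≤ wgt n W (heaviest n W C) := by
  obtain ⟨c, h1, h2⟩ := Finset.exists_max_image C.toFinset (wgt n W) (by simpa using h)
  obtain ⟨y, l, e⟩ := List.exists_cons_of_ne_nil (List.ne_nil_of_mem
    (List.mem_filter.2 ⟨List.mem_toFinset.1 h1, List.all_eq_true.2 fun c' hc' =>
      Nat.ble_eq.mpr (h2 c' (List.mem_toFinset.2 hc'))⟩ :
        c ∈ C.filter fun c => C.all fun c' => Nat.ble (wgt n W c') (wgt n W c)))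
  have h3 : y ∈ C.filter fun c => C.all fun c' => Nat.ble (wgt n W c') (wgt n W c) := by
    rw [e]; simp
  rw [heaviest, e, List.headD_cons]
  rw [List.mem_filter, List.all_eq_true] at h3
  exact ⟨h3.1, fun c' hc' => Nat.ble_eq.mp (h3.2 c' hc')⟩

variable {N k B : ℕ} {E : List (List Bool)} {W : List (List ℕ)}

theorem run_spec (V : ℕ) (hW : ∀ i j, ent W i j ≤ B) (hN : 1 ≤ N) (hk : k ≤ n)
    (h : hasPM n E = true) : ∃ (σ : Equiv.Perm (Fin n)) (ρ : Fin n → Bool),
      Rep (run n N k B V E W) σ ρ ∧ (∀ x : Fin n, entry E x (σ x) = true) ∧ #{x | ρ x} = k ∧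
      (0 < k → (∀ (σ : Equiv.Perm (Fin n)) (ρ : Fin n → Bool),
        (∀ x : Fin n, entry E x (σ x) = true) → #{x | ρ x} < k →
        wt (fun x y : Fin n => ent W x y) σ ρ < V →
        ¬ Stuck (fun x y : Fin n => entry E x y = true) (fun x y : Fin n => ent W x y)
          ((k : ℝ) - (#{x | ρ x} : ℕ)) ((V : ℝ) - wt (fun x y : Fin n => ent W x y) σ ρ) N σ ρ) →
        V * k ≤ (k + N - 1) * wt (fun x y : Fin n => ent W x y) σ ρ) := by
  obtain ⟨σ₀, ρ₀, h1, -⟩ := pm_spec n E
  have h2 := (full_iff E h1).1 h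
  obtain ⟨σ, ρ₁, h3, h4, h5⟩ := climb_spec (N := N) (k := k) (V := V) hW hN h1
    (fun x => (h2 x).1) (k * V + 1)
  obtain ⟨ρ, h6, h7, h8⟩ := fix_spec hk W h3 n
  refine ⟨σ, ρ, h6, h4, by omega, fun e1 e2 => ?_⟩
  rcases h5 (by simpa [(h2 _).2] using e1) e2 with h5 | h5
  · have := h8 (k + N - 1) V (by
      rw [mul_comm]; exact Nat.mul_le_mul (max_le (by omega) (by omega)) h5.1)
    exact le_trans (Nat.mul_le_mul_left _ (le_max_right _ _)) this
  · omega

theorem best_spec {q : ℕ} (hq : 13 ≤ q) (hW : ∀ i j, ent W i j ≤ B) (hk : k ≤ n)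
    (h : hasPM n E = true) : ∃ (σ : Equiv.Perm (Fin n)) (ρ : Fin n → Bool),
      Rep (heaviest n W (cands (5 * q ^ 6) n (3 * k / q + 1) k B E W)) σ ρ ∧
      (∀ x : Fin n, entry E x (σ x) = true) ∧ #{x | ρ x} = k ∧
      ∀ (s : Equiv.Perm (Fin n)) (R : Fin n → Bool), (∀ x : Fin n, entry E x (s x) = true) →
        #{x | R x} = k → (q - 13) * wt (fun x y : Fin n => ent W x y) s R ≤
          (q + 3) * wt (fun x y : Fin n => ent W x y) σ ρ + q := by
  set N := 3 * k / q + 1 with hN
  have hN1 : 1 ≤ N := Nat.le_add_left _ _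
  have hmem : ∀ F ∈ tup n (5 * q ^ 6), hasPM n (forceT n E F) = true → ∀ V ≤ k * B,
      run n N k B V (forceT n E F) W ∈ cands (5 * q ^ 6) n N k B E W := by
    intro F hF h1 V hV
    refine List.mem_flatMap.2 ⟨F, hF, ?_⟩
    rw [h1]
    exact List.mem_map.2 ⟨V, List.mem_range.2 (by omega), rfl⟩
  obtain ⟨h1, h2⟩ := heaviest_spec (n := n) W (List.ne_nil_of_mem (hmem []
    (mem_tup _ _ _ (by simp) (by simp)) (by
      obtain ⟨s, hs⟩ := (hasPM_iff E).1 h
      exact (hasPM_iff _).2 ⟨s, fun x => (entry_forceT _ _ _ _).2 ⟨hs x, by simp⟩⟩) 0 (by simp)))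
  obtain ⟨F₀, -, h3⟩ := List.mem_flatMap.1 h1
  cases h4 : hasPM n (forceT n E F₀)
  · simp [h4] at h3
  rw [h4] at h3
  obtain ⟨V₀, -, h5⟩ := List.mem_map.1 h3
  obtain ⟨σ, ρ, h6, h7, h8, -⟩ := run_spec V₀ hW hN1 hk h4
  rw [h5] at h6
  refine ⟨σ, ρ, h6, fun x => ((entry_forceT _ _ _ _).1 (h7 x)).1, h8, fun s R hs hR => ?_⟩
  set w : Fin n → Fin n → ℕ := fun x y => ent W x y with hw
  rcases Nat.eq_zero_or_pos (wt w s R) with hO | hO
  · rw [hO]; simp
  have hOk : wt w s R ≤ k * B := by
    rw [wt, ← hR, ← Finset.sum_filter, ← smul_eq_mul]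
    exact Finset.sum_le_card_nsmul _ _ _ fun x _ => hW _ _
  have hk0 : 0 < k := Nat.pos_of_ne_zero fun e => by rw [e] at hOk; omega
  have hq0 : 0 < q := by omega
  obtain ⟨F, e1, e2⟩ := exists_force (w := w) (s := s) (R := R)
    (E := fun x y : Fin n => entry E x y = true) (N := N) (q := q) hs hO (by omega) (hR ▸ hk0)
    (by rw [hR, hN]; exact (Nat.lt_mul_div_succ _ hq0).le)
  set Fl : List (ℕ × ℕ) := F.toList.map fun z : Fin n => ((z : ℕ), (s z : ℕ)) with hFl
  have e3 : (fun x y : Fin n => entry (forceT n E Fl) x y = true) =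
      force s (fun x y : Fin n => entry E x y = true) F := by
    funext x y
    rw [entry_forceT, force, hFl]
    simp [Fin.val_inj]
  have e4 : hasPM n (forceT n E Fl) = true :=
    (hasPM_iff _).2 ⟨s, fun x => by
      have := force_self (E := fun x y : Fin n => entry E x y = true) hs F x
      rwa [← e3] at this⟩
  set V := (q - 13) * wt w s R / q with hV
  have hV1 : q * V ≤ (q - 13) * wt w s R := Nat.mul_div_le _ _
  have hV2 : (q - 13) * wt w s R < q * (V + 1) := Nat.lt_mul_div_succ _ hq0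
  have hV3 : q * V + 13 * wt w s R ≤ q * wt w s R := by
    rw [Nat.sub_mul] at hV1
    have := Nat.mul_le_mul_right (wt w s R) hq
    omega
  have hV4 : V ≤ wt w s R := Nat.le_of_mul_le_mul_left (by omega) hq0
  obtain ⟨σ', ρ', e5, -, -, e6⟩ := run_spec V hW hN1 hk e4
  have e7 := h2 _ (hmem Fl (mem_tup _ _ _ (by simpa [hFl] using e1) fun z hz => by
    obtain ⟨y, -, rfl⟩ := List.mem_map.1 hz
    exact mem_prs.2 ⟨y.2, (s y).2⟩) e4 V (by omega))
  rw [wgt_eq W e5, wgt_eq W h6, ← hw] at e7
  rw [← hw] at e6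
  have e8 := e6 hk0 fun σ₁ ρ₁ f1 f2 f3 f4 => by
    rw [e3] at f4
    have f5 : (0 : ℝ) < k - (#{x | ρ₁ x} : ℕ) := sub_pos.2 (by exact_mod_cast f2)
    have f6 : (0 : ℝ) < V - wt w σ₁ ρ₁ := sub_pos.2 (by exact_mod_cast f3)
    have f7 := e2 σ₁ ρ₁ _ _ (fun x => by rw [← e3]; exact f1 x) (by omega) f5.le f6.le f4
    rw [sum_nv, sum_nv, hR] at f7
    have f8 : (q : ℝ) * V + 13 * wt w s R ≤ q * wt w s R := by exact_mod_cast hV3
    have f9 : (0 : ℝ) < wt w s R := by exact_mod_cast hO
    nlinarith [mul_pos f5 f9, mul_le_mul_of_nonneg_left f8 f5.le]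
  have e9 : q * (k + N - 1) ≤ (q + 3) * k := by
    have := Nat.mul_div_le (3 * k) q
    rw [hN, ← add_assoc, Nat.add_sub_cancel, Nat.mul_add, Nat.add_mul]
    omega
  have e10 : q * V ≤ (q + 3) * wt w σ' ρ' := by
    refine Nat.le_of_mul_le_mul_right ?_ hk0
    calc q * V * k = q * (V * k) := by ring
      _ ≤ q * ((k + N - 1) * wt w σ' ρ') := Nat.mul_le_mul_left _ e8
      _ = q * (k + N - 1) * wt w σ' ρ' := by ring
      _ ≤ (q + 3) * k * wt w σ' ρ' := Nat.mul_le_mul_right _ e9
      _ = (q + 3) * wt w σ' ρ' * k := by ring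
  have e11 := Nat.mul_le_mul_left (q + 3) e7
  rw [Nat.mul_add] at hV2
  omega

section pf
variable {α : Type} [Enc α]

@[fun_prop] theorem pf_prs {n : α → ℕ} (hn : PF n) : PF fun a => prs (n a) := by
  unfold prs
  fun_prop

theorem pf_tup' (c : ℕ) : PF fun N => tup N c := by
  induction c with
  | zero => exact PF.const _
  | succ c ih =>
    exact PF.cons (PF.const _) (PF.flatMap (f := fun N x => (tup N c).map fun t => x :: t)
      (pf_prs PF.id') (PF.map (f := fun (q : ℕ × ℕ × ℕ) t => q.2 :: t) (ih.comp PF.id'.fst)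
        (by fun_prop)))

@[fun_prop] theorem pf_tup {n : α → ℕ} (c : ℕ) (hn : PF n) : PF fun a => tup (n a) c :=
  (pf_tup' c).comp hn

@[fun_prop] theorem pf_ent {W : α → List (List ℕ)} {i j : α → ℕ} (hW : PF W) (hi : PF i)
    (hj : PF j) : PF fun a => ent (W a) (i a) (j a) := by
  unfold ent
  fun_prop

@[fun_prop] theorem pf_forceT {n : α → ℕ} {E : α → List (List Bool)} {F : α → List (ℕ × ℕ)}
    (hn : PF n) (hE : PF E) (hF : PF F) : PF fun a => forceT (n a) (E a) (F a) := by
  unfold forceT tab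
  fun_prop

@[fun_prop] theorem pf_pm {n : α → ℕ} {E : α → List (List Bool)} (hn : PF n) (hE : PF E) :
    PF fun a => pm (n a) (E a) := by
  refine pf_iter (f := fun a => step (n a) 1 1 (tab (n a) fun _ _ => true)
    (tab (n a) fun u y => (cond (entry (E a) u y) 1 0, 0))) hn hn (by fun_prop) ?_
    fun _ _ => ⟨_, _, rfl⟩
  unfold tab
  fun_prop

@[fun_prop] theorem pf_hasPM {n : α → ℕ} {E : α → List (List Bool)} (hn : PF n) (hE : PF E) :
    PF fun a => hasPM (n a) (E a) := by
  unfold hasPM full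
  fun_prop

@[fun_prop] theorem pf_cnt {n : α → ℕ} {st : α → St} (hn : PF n) (hs : PF st) :
    PF fun a => cnt (n a) (st a) := by
  unfold cnt
  fun_prop

@[fun_prop] theorem pf_wgt {n : α → ℕ} {W : α → List (List ℕ)} {st : α → St} (hn : PF n)
    (hW : PF W) (hs : PF st) : PF fun a => wgt (n a) (W a) (st a) := by
  unfold wgt
  fun_prop

@[fun_prop] theorem pf_run {n N k B V : α → ℕ} {E : α → List (List Bool)} {W : α → List (List ℕ)}
    (hn : PF n) (hN : PF N) (hk : PF k) (hB : PF B) (hV : PF V) (hE : PF E) (hW : PF W) :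
    PF fun a => run (n a) (N a) (k a) (B a) (V a) (E a) (W a) := by
  refine pf_iter (f := fun a => fixStep (n a) (k a) (W a)) hn hn
    (pf_iter (f := fun a => climbStep (n a) (N a) (k a) (B a) (V a) (E a) (W a)) hn (by fun_prop)
      (by fun_prop) ?_ fun a st => ?_) ?_ fun _ _ => ⟨_, _, rfl⟩
  · unfold climbStep tab
    fun_prop
  · unfold climbStep
    cases (Nat.blt (cnt (n a) st) (k a) && Nat.blt (wgt (n a) (W a) st) (V a))
    · exact ⟨_, _, rfl⟩
    · exact ⟨_, _, rfl⟩
  · unfold fixStep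
    fun_prop

@[fun_prop] theorem pf_cands (t : ℕ) {n N k B : α → ℕ} {E : α → List (List Bool)}
    {W : α → List (List ℕ)} (hn : PF n) (hN : PF N) (hk : PF k) (hB : PF B) (hE : PF E)
    (hW : PF W) : PF fun a => cands t (n a) (N a) (k a) (B a) (E a) (W a) := by
  unfold cands
  fun_prop

@[fun_prop] theorem pf_heaviest {n : α → ℕ} {W : α → List (List ℕ)} {C : α → List St} (hn : PF n)
    (hW : PF W) (hC : PF C) : PF fun a => heaviest (n a) (W a) (C a) := by
  unfold heaviest
  fun_prop

end pf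

end Pool.Agent.Lib.MP_be0860_lc
end
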