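import Pool.Agent.Lib.MP_be0860_lc.QMath
import Pool.Agent.Lib.MP_be0860_lc.Best
import Pool.Agent.Shared.TM2PF.OfTM

/-! The reduction to staircase graphs: polynomial time. -/

set_option autoImplicit false

namespace Pool.Agent.Lib.MP_be0860_lc

open Pool.Agent.Shared.PolyTime Finset Enc Polynomial

/-- adjacency, sign, numerator, denominator -/
abbrev Cell : Type := Bool × Bool × Big × Big

/-- typed form of an instance -/
abbrev Dat : Type := ℕ × ℕ × ℕ × List (List Cell)

/-- a rational number as sign, numerator, denominator -/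
def tri (q : ℚ) : Bool × Big × Big := (decide (q < 0), ⟨q.num.natAbs⟩, ⟨q.den⟩)

/-- typed form of an instance -/
def QInst.dat (I : QInst) : Dat :=
  (I.a, I.b, I.k, List.ofFn fun i => List.ofFn fun j => (I.adj i j, tri (I.w i j)))

theorem encList_map' {β γ : Type} (e : γ → List Bool) (f : β → γ) (l : List β) :
    encList e (l.map f) = encList (fun b => e (f b)) l := by
  induction l with
  | nil => rfl
  | cons a l ih => simp only [List.map_cons, encList, ih]

theorem qcode_eq (I : QInst) : I.code = enc I.dat := by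
  rw [QInst.code, QInst.dat, enc_prod, enc_prod, enc_prod]
  have : (List.ofFn fun i => List.ofFn fun j => ((I.adj i j, tri (I.w i j)) : Cell)) =
      (List.ofFn fun i => List.ofFn fun j => (I.adj i j, I.w i j)).map
        (List.map fun c : Bool × ℚ => (c.1, tri c.2)) := by
    simp only [List.map_ofFn, Function.comp_def]
  rw [this, enc_list, encList_map']
  simp only [enc_list, encList_map']
  rfl

instance encQInst : Enc QInst := ⟨QInst.code⟩

theorem pf_dat : PF QInst.dat := PF.transfer PF.id' _ QInst.dat qcode_eq fun _ => rfl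

/-- entry of the table -/
def cell (T : List (List Cell)) (i j : ℕ) : Cell := (T.getD i []).getD j (false, tri 0)

/-- adjacency on natural numbers -/
def QInst.A (I : QInst) (i j : ℕ) : Bool :=
  if h : i < I.a ∧ j < I.b then I.adj ⟨i, h.1⟩ ⟨j, h.2⟩ else false

/-- weights on natural numbers -/
def QInst.om (I : QInst) (i j : ℕ) : ℚ :=
  if h : i < I.a ∧ j < I.b then I.w ⟨i, h.1⟩ ⟨j, h.2⟩ else 0

theorem cell_dat (I : QInst) (i j : ℕ) : cell I.dat.2.2.2 i j = (I.A i j, tri (I.om i j)) := by
  unfold cell QInst.dat QInst.A QInst.om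
  by_cases hi : i < I.a
  · by_cases hj : j < I.b
    · simp [hi, hj, List.getD_eq_getElem?_getD]
    · simp [hi, hj, List.getD_eq_getElem?_getD]
  · simp [hi, List.getD_eq_getElem?_getD]

/-- the old weight -/
def bc (n : ℕ) (T : List (List Cell)) (i j : ℕ) : Bool × Big × Big :=
  cond (Nat.blt i n && Nat.blt j n && (cell T i j).1) (cell T i j).2 (tri 0)

theorem bc_dat (I : QInst) (n i j : ℕ) :
    bc n I.dat.2.2.2 i j = tri (bonus n I.A I.om i j) := by
  unfold bc bonus
  rw [cell_dat]
  cases (Nat.blt i n && Nat.blt j n && I.A i j) <;> rfl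

/-- sum of binary numbers -/
def sumBig (l : List Big) : ℕ := (l.map Big.val).sum

/-- the bound for the old weights -/
def bigT (n : ℕ) (T : List (List Cell)) : ℕ :=
  sumBig ((List.range n).flatMap fun i => (List.range n).map fun j => (bc n T i j).2.1)

theorem bigT_dat (I : QInst) (n : ℕ) : bigT n I.dat.2.2.2 = bigS n I.A I.om := by
  unfold bigT bigS sumBig
  simp only [bc_dat, List.map_flatMap, List.map_map]
  rw [List.flatMap_def, List.sum_flatten, List.map_map]
  rfl

/-- the new cell -/
def newCell (n : ℕ) (T : List (List Cell)) (W i j : ℕ) : Cell :=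
  (Nat.ble j (i + n), false,
    ⟨cond (bc n T i j).1
      (W * qscore n (fun x y => (cell T x y).1) i j * (bc n T i j).2.2.val - (bc n T i j).2.1.val)
      (W * qscore n (fun x y => (cell T x y).1) i j * (bc n T i j).2.2.val + (bc n T i j).2.1.val)⟩,
    (bc n T i j).2.2)

/-- the reduction on typed data -/
def redT (x : Dat) : Dat :=
  (x.1 + x.1, x.1 + x.1, x.1 + min x.2.2.1 x.1, (List.range (x.1 + x.1)).map fun i =>
    (List.range (x.1 + x.1)).map fun j => newCell x.1 x.2.2.2 (2 * bigT x.1 x.2.2.2 + 1) i j)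

/-- the reduction -/
def red (I : QInst) : QInst := stair I.a I.k I.A I.om

theorem tri_add (q : ℚ) (m : ℕ) (h : 0 ≤ q + m) : tri (q + m) = (false,
    ⟨cond (tri q).1 (m * (tri q).2.2.val - (tri q).2.1.val)
      (m * (tri q).2.2.val + (tri q).2.1.val)⟩, (tri q).2.2) := by
  have hd : (q + m).den = q.den := Rat.add_natCast_den q m
  have hn : (q + m).num = q.num + m * q.den := by
    have h1 := Rat.mul_den_eq_num (q + m)
    have h2 := Rat.mul_den_eq_num q
    rw [hd, add_mul, h2] at h1
    exact_mod_cast h1.symm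
  have h0 : 0 ≤ q.num + m * q.den := hn ▸ Rat.num_nonneg.2 h
  simp only [tri, hd, hn, decide_eq_false (not_lt.2 h), Prod.mk.injEq, true_and, and_true,
    Big.mk.injEq]
  rw [← Nat.cast_mul] at h0 ⊢
  generalize m * q.den = c at h0 ⊢
  by_cases hq : q < 0
  · have := Rat.num_neg.2 hq
    simp only [hq, decide_true, cond_true]; omega
  · have := Rat.num_nonneg.2 (not_lt.1 hq)
    simp only [hq, decide_false, cond_false]; omega

theorem ofFn_range {β : Type} (N : ℕ) (f : ℕ → β) :
    (List.ofFn fun i : Fin N => f i) = (List.range N).map f :=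
  List.ext_getElem (by simp) fun i _ _ => by simp

theorem dat_red (I : QInst) : (red I).dat = redT I.dat := by
  have hA : (fun x y => (cell I.dat.2.2.2 x y).1) = I.A := by
    funext x y; rw [cell_dat]
  refine Prod.ext rfl (Prod.ext rfl (Prod.ext rfl ?_))
  change (List.ofFn fun i : Fin (I.a + I.a) => List.ofFn fun j : Fin (I.a + I.a) =>
    ((Nat.ble j (i + I.a), tri (bonus I.a I.A I.om i j +
      ((2 * bigS I.a I.A I.om + 1) * qscore I.a I.A i j : ℕ))) : Cell)) =
    (List.range (I.a + I.a)).map fun i => (List.range (I.a + I.a)).map fun j =>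
      newCell I.a I.dat.2.2.2 (2 * bigT I.a I.dat.2.2.2 + 1) i j
  rw [← ofFn_range]
  refine congrArg List.ofFn (funext fun i => ?_)
  rw [← ofFn_range]
  refine congrArg List.ofFn (funext fun j => ?_)
  rw [tri_add _ _ (stair_nonneg _ _ _ _ _), newCell, hA, bc_dat, bigT_dat]

section pf
variable {α : Type} [Enc α]

@[fun_prop] theorem pf_cell {T : α → List (List Cell)} {i j : α → ℕ} (hT : PF T) (hi : PF i)
    (hj : PF j) : PF fun a => cell (T a) (i a) (j a) := by
  unfold cell; fun_prop

@[fun_prop] theorem pf_bc {T : α → List (List Cell)} {n i j : α → ℕ} (hn : PF n) (hT : PF T)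
    (hi : PF i) (hj : PF j) : PF fun a => bc (n a) (T a) (i a) (j a) := by
  unfold bc; fun_prop

theorem pb_sumBig {l : α → List Big} (hl : PF l) : PB fun a => sumBig (l a) := by
  obtain ⟨p, hp⟩ := hl.size
  have h := PF.foldl_add (st := fun (_ : α) (acc : Big) (c : Big) => (⟨acc.val + c.val⟩ : Big)) hl
    (PF.const (⟨0⟩ : Big)) (by fun_prop) ⟨p + 1, fun a b c hc => by
      have h1 := (len_le_of_mem hc).trans (hp a _ le_rfl)
      have h2 := size_add_le b.val c.val
      have e1 : (enc b).length = Nat.size b.val := len_big _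
      have e2 : (enc c).length = Nat.size c.val := len_big _
      rw [len_big, eval_add, eval_one]
      omega⟩
  refine h.of_eq fun a => ?_
  have key : ∀ (m : List Big) (x : ℕ), m.foldl (fun (acc : Big) (c : Big) =>
      (⟨acc.val + c.val⟩ : Big)) ⟨x⟩ = ⟨x + sumBig m⟩ := by
    intro m
    induction m with
    | nil => simp [sumBig]
    | cons b m ih => intro x; simp [ih, sumBig, add_assoc]
  simpa using key (l a) 0

@[fun_prop] theorem pb_bigT {T : α → List (List Cell)} {n : α → ℕ} (hn : PF n) (hT : PF T) :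
    PB fun a => bigT (n a) (T a) := by
  unfold bigT
  exact pb_sumBig (by fun_prop)

@[fun_prop] theorem pf_qscore {T : α → List (List Cell)} {n i j : α → ℕ} (hn : PF n) (hT : PF T)
    (hi : PF i) (hj : PF j) :
    PF fun a => qscore (n a) (fun x y => (cell (T a) x y).1) (i a) (j a) := by
  unfold qscore allowed posU posV; fun_prop

theorem pf_newCell {T : α → List (List Cell)} {n W i j : α → ℕ} (hn : PF n) (hT : PF T)
    (hW : PB W) (hi : PF i) (hj : PF j) : PF fun a => newCell (n a) (T a) (W a) (i a) (j a) := by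
  have h1 : PB fun a => W a * qscore (n a) (fun x y => (cell (T a) x y).1) (i a) (j a) *
      (bc (n a) (T a) (i a) (j a)).2.2.val :=
    (hW.mul (PB.ofPF (pf_qscore hn hT hi hj))).mul (PB.val (by fun_prop))
  have h2 : PB fun a => (bc (n a) (T a) (i a) (j a)).2.1.val := PB.val (by fun_prop)
  unfold newCell
  exact PF.pair (by fun_prop) (PF.pair (PF.const _) (PF.pair
    (PB.mk (PB.cond' (by fun_prop) (h1.sub h2) (h1.add h2))) (by fun_prop)))

end pf

theorem pf_redT : PF redT := by
  unfold redT
  refine PF.pair (by fun_prop) (PF.pair (by fun_prop) (PF.pair (by fun_prop)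
    (PF.map (by fun_prop) (PF.map (by fun_prop) (pf_newCell (by fun_prop) (by fun_prop) ?_
      (by fun_prop) (by fun_prop))))))
  exact ((PB.const 2).mul (pb_bigT (by fun_prop) (by fun_prop))).add (PB.const 1)

theorem pf_red : PF red :=
  PF.transfer pf_redT red QInst.dat qcode_eq fun I => (qcode_eq _).trans (by rw [dat_red])

/-- the algorithm for all instances, from an algorithm for staircase instances -/
def viaStair (f : QInst → Bool × List (ℕ × ℕ)) (I : QInst) : Bool × List (ℕ × ℕ) :=
  (I.dat.1 == I.dat.2.1 && hasPM I.dat.1 (I.dat.2.2.2.map fun r => r.map fun c => c.1),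
    (f (red I)).2.filter fun p => Nat.blt p.1 I.dat.1 && Nat.blt p.2 I.dat.1)

theorem pf_viaStair {f : QInst → Bool × List (ℕ × ℕ)} (hf : PF f) : PF (viaStair f) := by
  have h : PF fun q : Dat × Bool × List (ℕ × ℕ) =>
      (q.1.1 == q.1.2.1 && hasPM q.1.1 (q.1.2.2.2.map fun r => r.map fun c => c.1),
        q.2.2.filter fun p => Nat.blt p.1 q.1.1 && Nat.blt p.2 q.1.1) := by fun_prop
  exact h.comp (PF.pair pf_dat (hf.comp pf_red))

theorem viaStair_correct {f : QInst → Bool × List (ℕ × ℕ)} (hf : ∀ I, Stair I → I.Correct (f I))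
    (I : QInst) : I.Correct (viaStair f I) := by
  by_cases hab : I.a = I.b
  swap
  · have : (viaStair f I).1 = false := by simp [viaStair, QInst.dat, hab]
    unfold QInst.Correct
    rw [this]
    refine ⟨⟨fun h => absurd h (by simp), fun ⟨P, hP⟩ => ?_⟩, fun h => absurd h (by simp)⟩
    obtain ⟨s, -⟩ := qperfect_perm hP
    exact absurd (by simpa using Fintype.card_congr s) hab
  obtain ⟨n, b, adj, w, k, hk⟩ := I
  obtain rfl : n = b := hab
  have h1 : (viaStair f ⟨n, n, adj, w, k, hk⟩).1 = true ↔
      ∃ s : Equiv.Perm (Fin n), ∀ x, adj x (s x) = true := by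
    simp [viaStair, QInst.dat, hasPM_iff, entry, List.getD_eq_getElem?_getD]
  have h2 : (viaStair f ⟨n, n, adj, w, k, hk⟩).1 = true ↔
      ∃ P, (QInst.mk n n adj w k hk).IsPerfect P := by
    refine h1.trans ⟨fun ⟨s, hs⟩ => ⟨_, qperm_perfect (I := ⟨n, n, adj, w, k, hk⟩) s hs⟩,
      fun ⟨P, hP⟩ => ?_⟩
    obtain ⟨s, hs⟩ := qperfect_perm hP
    exact ⟨s, fun x => hP.1 (x, s x) ((hs _).2 rfl)⟩
  refine ⟨h2, fun h => ?_⟩
  exact stair_correct hk _ _ (fun i j => by simp [QInst.A]) (fun i j => by simp [QInst.om])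
    (h2.1 h) _ (hf _ (stair_Stair n k (QInst.mk n n adj w k hk).A (QInst.mk n n adj w k hk).om))

theorem stair_iff : PolySolvable Stair ↔ PolySolvable fun _ => True := by
  refine ⟨fun ⟨f, h1, h2⟩ => ⟨viaStair f, ?_, fun I _ => viaStair_correct h2 I⟩,
    fun ⟨f, h1, h2⟩ => ⟨f, h1, fun I _ => h2 I trivial⟩⟩
  exact PF.tm2 (pf_viaStair (PF.of_tm2 h1)) _ _ _ id (fun _ => rfl) fun _ => rfl

end Pool.Agent.Lib.MP_be0860_lc
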