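import Mathlib
import Pool.Agent.Shared.PolyTime.Enc

/-!
The exact problem: maximum-weight `k`-element matchings that extend to a perfect matching of a
bipartite graph, with arbitrary rational weights written in binary.
-/

set_option autoImplicit false

namespace Pool.Agent.Lib.MP_be0860_lc

open Pool.Agent.Shared.PolyTime

/-- An instance: a bipartite graph with sides `Fin a` and `Fin b`, rational weights and the
number `k`. -/
structure QInst : Type where
  a : ℕ
  b : ℕ
  adj : Fin a → Fin b → Bool
  w : Fin a → Fin b → ℚ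
  k : ℕ
  hk : 2 * k ≤ a + b

/-- The input as a bit string; a weight is written as sign, numerator and denominator in binary. -/
def QInst.code (I : QInst) : List Bool :=
  encPair (encNat I.a) (encPair (encNat I.b) (encPair (encNat I.k)
    (encList (encList fun c : Bool × ℚ => encPair [c.1] (encPair [decide (c.2 < 0)]
        (encPair (Nat.bits c.2.num.natAbs) (Nat.bits c.2.den))))
      (List.ofFn fun i => List.ofFn fun j => (I.adj i j, I.w i j)))))

/-- The output, a flag and a list of edges, as a bit string. -/
def qOutCode (o : Bool × List (ℕ × ℕ)) : List Bool :=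
  encPair [o.1] (encList (fun p : ℕ × ℕ => encPair (encNat p.1) (encNat p.2)) o.2)

/-- Perfect matchings: sets of pairwise disjoint edges covering all vertices. -/
def QInst.IsPerfect (I : QInst) (P : Finset (Fin I.a × Fin I.b)) : Prop :=
  (∀ e ∈ P, I.adj e.1 e.2 = true) ∧ (∀ e ∈ P, ∀ f ∈ P, e ≠ f → e.1 ≠ f.1 ∧ e.2 ≠ f.2) ∧
    (∀ x, ∃ e ∈ P, e.1 = x) ∧ ∀ y, ∃ e ∈ P, e.2 = y

/-- Feasible solutions: `k`-element subsets of perfect matchings. -/
def QInst.Feasible (I : QInst) (M : Finset (Fin I.a × Fin I.b)) : Prop :=
  M.card = I.k ∧ ∃ P, I.IsPerfect P ∧ M ⊆ P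

/-- The total weight. -/
def QInst.weight (I : QInst) (M : Finset (Fin I.a × Fin I.b)) : ℚ := ∑ e ∈ M, I.w e.1 e.2

/-- `o` is a correct output on `I`: the flag tells whether there is a perfect matching, and if so
the list enumerates a feasible solution of maximum weight. -/
def QInst.Correct (I : QInst) (o : Bool × List (ℕ × ℕ)) : Prop :=
  (o.1 = true ↔ ∃ P, I.IsPerfect P) ∧
    (o.1 = true → ∃ M, I.Feasible M ∧ o.2.toFinset = M.image (fun e => ((e.1 : ℕ), (e.2 : ℕ))) ∧
      ∀ M', I.Feasible M' → I.weight M' ≤ I.weight M)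

/-- A deterministic polynomial-time algorithm is correct on all instances in the class `C`. -/
def PolySolvable (C : QInst → Prop) : Prop :=
  ∃ f : QInst → Bool × List (ℕ × ℕ),
    Nonempty (Turing.TM2ComputableInPolyTime QInst.code qOutCode f) ∧
      ∀ I, C I → I.Correct (f I)

/-- Staircase instances: both sides have `2n` vertices, `i` is adjacent to `j` iff `j ≤ i + n`
(a chain graph), and the weights are nonnegative. -/
def Stair (I : QInst) : Prop :=
  ∃ n, I.a = 2 * n ∧ I.b = 2 * n ∧ (∀ i j, I.adj i j = true ↔ (j : ℕ) ≤ i + n) ∧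
    ∀ i j, 0 ≤ I.w i j

end Pool.Agent.Lib.MP_be0860_lc
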