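import Pool.Agent.Lib.MP_be0860_lc.QDefs

/-! The reduction to staircase graphs: combinatorial part. -/

set_option autoImplicit false

namespace Pool.Agent.Lib.MP_be0860_lc

open Finset

theorem qperfect_perm {I : QInst} {P : Finset (Fin I.a × Fin I.b)} (h : I.IsPerfect P) :
    ∃ s : Fin I.a ≃ Fin I.b, ∀ e, e ∈ P ↔ e.2 = s e.1 := by
  obtain ⟨-, h2, h3, h4⟩ := h
  choose f hf1 hf2 using h3
  have h5 : ∀ e ∈ P, e = f e.1 := fun e he => by
    by_contra h
    exact (h2 e he _ (hf1 _) h).1 (hf2 _).symm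
  refine ⟨Equiv.ofBijective (fun x => (f x).2) ⟨fun x y e => ?_, fun y => ?_⟩, fun e => ⟨fun he =>
    congrArg Prod.snd (h5 e he), fun he => ?_⟩⟩
  · by_contra h
    exact (h2 _ (hf1 x) _ (hf1 y) fun e' => h (by rw [← hf2 x, e', hf2])).2 e
  · obtain ⟨e, he, rfl⟩ := h4 y
    exact ⟨e.1, (congrArg Prod.snd (h5 e he)).symm⟩
  · rw [show e = f e.1 from Prod.ext (hf2 _).symm he]
    exact hf1 _

theorem qperm_perfect {I : QInst} (s : Fin I.a ≃ Fin I.b) (h : ∀ x, I.adj x (s x) = true) :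
    I.IsPerfect (univ.image fun x => (x, s x)) := by
  refine ⟨?_, ?_, fun x => ⟨(x, s x), by simp, rfl⟩, fun y => ⟨(s.symm y, y), by simp, rfl⟩⟩
  · simpa using h
  · simp

theorem feasible_iff {I : QInst} {M : Finset (Fin I.a × Fin I.b)} : I.Feasible M ↔
    ∃ (s : Fin I.a ≃ Fin I.b) (R : Finset (Fin I.a)), (∀ x, I.adj x (s x) = true) ∧
      R.card = I.k ∧ M = R.image fun x => (x, s x) := by
  constructor
  · rintro ⟨e1, P, e2, e3⟩
    obtain ⟨s, hs⟩ := qperfect_perm e2
    have e4 : M = (univ.filter fun x => (x, s x) ∈ M).image fun x => (x, s x) := by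
      ext e
      simp only [mem_image, mem_filter, mem_univ, true_and]
      refine ⟨fun he => ?_, by rintro ⟨x, hx, rfl⟩; exact hx⟩
      have : e = (e.1, s e.1) := Prod.ext rfl ((hs e).1 (e3 he))
      exact ⟨e.1, this ▸ he, this.symm⟩
    refine ⟨s, _, fun x => e2.1 (x, s x) ((hs _).2 rfl), ?_, e4⟩
    rw [← Finset.card_image_of_injective _ (f := fun x => (x, s x))
      (fun x y e => congrArg Prod.fst e), ← e4, e1]
  · rintro ⟨s, R, h1, h2, rfl⟩
    exact ⟨by rw [Finset.card_image_of_injective _ fun x y e => congrArg Prod.fst e, h2], _,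
      qperm_perfect s h1, Finset.image_subset_image (subset_univ _)⟩

theorem weight_image {I : QInst} (s : Fin I.a ≃ Fin I.b) (R : Finset (Fin I.a)) :
    I.weight (R.image fun x => (x, s x)) = ∑ x ∈ R, I.w x (s x) := by
  rw [QInst.weight, Finset.sum_image fun _ _ _ _ e => congrArg Prod.fst e]

/-- position of a row -/
def posU (n i : ℕ) : ℕ := cond (Nat.blt i n) (i + 1) (n + 1)

/-- position of a column -/
def posV (n j : ℕ) : ℕ := cond (Nat.blt j n) 0 (j - n + 1)

/-- the useful edges -/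
def allowed (n : ℕ) (A : ℕ → ℕ → Bool) (i j : ℕ) : Bool :=
  cond (Nat.blt i n) (Nat.blt j n && A i j) (cond (Nat.blt j n) (A (i - n) j) (i == j))

/-- the integral part of the new weight -/
def qscore (n : ℕ) (A : ℕ → ℕ → Bool) (i j : ℕ) : ℕ :=
  posU n i - posV n j + cond (allowed n A i j) 1 0

/-- the old weight -/
def bonus (n : ℕ) (A : ℕ → ℕ → Bool) (ω : ℕ → ℕ → ℚ) (i j : ℕ) : ℚ :=
  cond (Nat.blt i n && Nat.blt j n && A i j) (ω i j) 0

/-- bound for the old weights -/
def bigS (n : ℕ) (A : ℕ → ℕ → Bool) (ω : ℕ → ℕ → ℚ) : ℕ :=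
  ∑ i ∈ range n, ∑ j ∈ range n, (bonus n A ω i j).num.natAbs

theorem blt_true {i n : ℕ} (h : i < n) : Nat.blt i n = true := by simpa using h
theorem blt_false {i n : ℕ} (h : n ≤ i) : Nat.blt i n = false := by
  rw [Bool.eq_false_iff]; simpa using h

theorem abs_le_natAbs (q : ℚ) : |q| ≤ q.num.natAbs := by
  have h1 : (1 : ℚ) ≤ q.den := by exact_mod_cast q.pos
  have h2 : |q| * q.den = q.num.natAbs := by
    rw [Nat.cast_natAbs, Int.cast_abs, ← Rat.mul_den_eq_num, abs_mul,
      abs_of_nonneg (show (0 : ℚ) ≤ q.den by positivity)]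
  nlinarith [abs_nonneg q]

theorem abs_sum_bonus {n N : ℕ} (A : ℕ → ℕ → Bool) (ω : ℕ → ℕ → ℚ) (s : Fin N → Fin N)
    (R : Finset (Fin N)) : |∑ x ∈ R, bonus n A ω x (s x)| ≤ bigS n A ω := by
  refine (Finset.abs_sum_le_sum_abs _ _).trans ?_
  have h1 : ∑ x ∈ R, |bonus n A ω x (s x)| =
      ∑ x ∈ R.filter (fun x : Fin N => (x : ℕ) < n ∧ (s x : ℕ) < n), |bonus n A ω x (s x)| := by
    rw [Finset.sum_filter]
    refine Finset.sum_congr rfl fun x _ => ?_
    split_ifs with h
    · rfl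
    · rcases not_and_or.1 h with h | h
      · simp [bonus, blt_false (not_lt.1 h)]
      · simp [bonus, blt_false (not_lt.1 h)]
  rw [h1, bigS, ← Finset.sum_product', Nat.cast_sum,
    ← Finset.sum_image (g := fun x : Fin N => ((x : ℕ), (s x : ℕ)))
      (f := fun p : ℕ × ℕ => |bonus n A ω p.1 p.2|)
      (fun x _ y _ e => Fin.ext (congrArg Prod.fst e))]
  refine (Finset.sum_le_sum_of_subset_of_nonneg (t := range n ×ˢ range n) ?_
    fun _ _ _ => abs_nonneg _).trans (Finset.sum_le_sum fun p _ => abs_le_natAbs _)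
  intro p hp
  obtain ⟨x, hx, rfl⟩ := mem_image.1 hp
  simpa using (mem_filter.1 hx).2

theorem abs_bonus_le {n : ℕ} (A : ℕ → ℕ → Bool) (ω : ℕ → ℕ → ℚ) (i j : ℕ) :
    |bonus n A ω i j| ≤ bigS n A ω := by
  have := abs_sum_bonus (n := n) A ω (N := max i j + 1) (fun _ => ⟨j, by omega⟩) {⟨i, by omega⟩}
  simpa using this

/-- the staircase instance -/
def stair (n k : ℕ) (A : ℕ → ℕ → Bool) (ω : ℕ → ℕ → ℚ) : QInst :=
  ⟨n + n, n + n, fun i j => Nat.ble j (i + n),
    fun i j => bonus n A ω i j + ((2 * bigS n A ω + 1) * qscore n A i j : ℕ),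
    n + min k n, by omega⟩

theorem qscore_pos {n : ℕ} {A : ℕ → ℕ → Bool} {ω : ℕ → ℕ → ℚ} {i j : ℕ}
    (h : bonus n A ω i j ≠ 0) : 1 ≤ qscore n A i j := by
  unfold bonus at h
  cases hc : (Nat.blt i n && Nat.blt j n && A i j)
  · simp [hc] at h
  · simp only [Bool.and_eq_true] at hc
    simp [qscore, allowed, hc.1.1, hc.1.2, hc.2]

theorem stair_nonneg (n : ℕ) (A : ℕ → ℕ → Bool) (ω : ℕ → ℕ → ℚ) (i j : ℕ) :
    0 ≤ bonus n A ω i j + ((2 * bigS n A ω + 1) * qscore n A i j : ℕ) := by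
  by_cases h : bonus n A ω i j = 0
  · rw [h]; positivity
  · have h1 : (1 : ℚ) ≤ qscore n A i j := by exact_mod_cast qscore_pos h
    have h2 := (abs_le.1 (abs_bonus_le (n := n) A ω i j)).1
    have h3 : (0 : ℚ) ≤ bigS n A ω := by positivity
    push_cast
    nlinarith

theorem stair_Stair (n k : ℕ) (A : ℕ → ℕ → Bool) (ω : ℕ → ℕ → ℚ) : Stair (stair n k A ω) :=
  ⟨n, (two_mul n).symm, (two_mul n).symm, fun i j => by simp [stair],
    fun i j => stair_nonneg n A ω i j⟩

theorem sum_len {n : ℕ} (s : Fin (n + n) ≃ Fin (n + n)) (hs : ∀ x, (s x : ℕ) ≤ x + n) :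
    ∑ x : Fin (n + n), (posU n x - posV n (s x)) = n * (n + 1) := by
  have h1 : ∀ x : Fin (n + n), posV n (s x) ≤ posU n x := fun x => by
    have := hs x
    have := (s x).2
    unfold posU posV
    rcases lt_or_ge (x : ℕ) n with h | h <;> rcases lt_or_ge (s x : ℕ) n with h' | h' <;>
      simp only [blt_true, blt_false, h, h', cond_true, cond_false] <;> omega
  have h2 : ∑ x : Fin (n + n), (posU n x - posV n (s x)) + ∑ x : Fin (n + n), posV n (s x) =
      ∑ x : Fin (n + n), posU n x := by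
    rw [← Finset.sum_add_distrib]
    exact Finset.sum_congr rfl fun x _ => Nat.sub_add_cancel (h1 x)
  rw [Equiv.sum_comp s (fun y : Fin (n + n) => posV n y),
    Fin.sum_univ_add (fun y : Fin (n + n) => posV n y),
    Fin.sum_univ_add (fun y : Fin (n + n) => posU n y)] at h2
  have e1 : ∀ i : Fin n, posV n (Fin.castAdd n i) = 0 := fun i => by simp [posV, blt_true i.2]
  have e2 : ∀ i : Fin n, posV n (Fin.natAdd n i) = i + 1 := fun i => by simp [posV, blt_false]
  have e3 : ∀ i : Fin n, posU n (Fin.castAdd n i) = i + 1 := fun i => by simp [posU, blt_true i.2]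
  have e4 : ∀ i : Fin n, posU n (Fin.natAdd n i) = n + 1 := fun i => by simp [posU, blt_false]
  simp only [e1, e2, e3, e4, sum_const, card_univ, Fintype.card_fin, smul_eq_mul] at h2
  omega

theorem weight_stair {n k : ℕ} (A : ℕ → ℕ → Bool) (ω : ℕ → ℕ → ℚ)
    (s : Fin (n + n) ≃ Fin (n + n)) (R : Finset (Fin (n + n))) :
    (stair n k A ω).weight (R.image fun x => (x, s x)) = ∑ x ∈ R, bonus n A ω x (s x) +
      (2 * bigS n A ω + 1) * (∑ x ∈ R, qscore n A x (s x) : ℕ) := by
  refine (weight_image (I := stair n k A ω) s R).trans ?_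
  change ∑ x ∈ R, (bonus n A ω x (s x) +
    (((2 * bigS n A ω + 1) * qscore n A x (s x) : ℕ) : ℚ)) = _
  rw [Finset.sum_add_distrib]
  push_cast
  rw [Finset.mul_sum]

theorem qscore_le {n : ℕ} (A : ℕ → ℕ → Bool) (s : Fin (n + n) ≃ Fin (n + n))
    (hs : ∀ x, (s x : ℕ) ≤ x + n) (R : Finset (Fin (n + n))) :
    ∑ x ∈ R, qscore n A x (s x) + ∑ x ∈ Rᶜ, (posU n x - posV n (s x)) +
      (R.filter fun x : Fin (n + n) => allowed n A x (s x) = false).card =
      n * (n + 1) + R.card := by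
  rw [← sum_len s hs, ← Finset.sum_add_sum_compl R, Finset.card_filter, Finset.card_eq_sum_ones R]
  have : ∑ x ∈ R, qscore n A x (s x) + ∑ x ∈ R, (if allowed n A x (s x) = false then 1 else 0) =
      ∑ x ∈ R, (posU n x - posV n (s x)) + ∑ x ∈ R, 1 := by
    rw [← Finset.sum_add_distrib, ← Finset.sum_add_distrib]
    refine Finset.sum_congr rfl fun x _ => ?_
    unfold qscore
    cases allowed n A x (s x) <;> simp
  omega

section
variable {n : ℕ} (A : ℕ → ℕ → Bool) (ω : ℕ → ℕ → ℚ)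

theorem sum_bonus_left (s : Fin (n + n) → Fin (n + n)) (R : Finset (Fin (n + n)))
    (t : Fin n → Fin n) (Q : Finset (Fin n)) (h1 : ∀ i, Fin.castAdd n i ∈ R ↔ i ∈ Q)
    (h2 : ∀ i ∈ Q, s (Fin.castAdd n i) = Fin.castAdd n (t i)) (h3 : ∀ i : Fin n, A i (t i) = true) :
    ∑ x ∈ R, bonus n A ω x (s x) = ∑ i ∈ Q, ω i (t i) := by
  rw [← Finset.sum_ite_mem_eq, ← Finset.sum_ite_mem_eq Q, Fin.sum_univ_add]
  have e1 : ∀ i : Fin n, bonus n A ω (Fin.natAdd n i) (s (Fin.natAdd n i)) = 0 := fun i => by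
    simp [bonus, blt_false]
  simp only [e1, ite_self, sum_const_zero, add_zero, h1]
  refine Finset.sum_congr rfl fun i _ => ?_
  split_ifs with h
  · rw [h2 i h]
    simp [bonus, blt_true i.2, blt_true (t i).2, h3]
  · rfl

theorem card_left (R : Finset (Fin (n + n))) (Q : Finset (Fin n))
    (h1 : ∀ i, Fin.castAdd n i ∈ R ↔ i ∈ Q) (h2 : ∀ i, Fin.natAdd n i ∈ R) :
    R.card = n + Q.card := by
  rw [Finset.card_eq_sum_ones R, Finset.card_eq_sum_ones Q, ← Finset.sum_ite_mem_eq,
    ← Finset.sum_ite_mem_eq Q, Fin.sum_univ_add]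
  simp only [h1, h2, if_true, sum_const, card_univ, Fintype.card_fin, smul_eq_mul, mul_one]
  omega

/-- From a solution of the old instance to a solution of the staircase instance. -/
theorem lift_sol (t : Fin n ≃ Fin n) (ht : ∀ i : Fin n, A i (t i) = true) (Q : Finset (Fin n)) :
    ∃ (s : Fin (n + n) ≃ Fin (n + n)) (R : Finset (Fin (n + n))), (∀ x, (s x : ℕ) ≤ x + n) ∧
      R.card = n + Q.card ∧ ∑ x ∈ R, qscore n A x (s x) = n * (n + 1) + R.card ∧
      ∑ x ∈ R, bonus n A ω x (s x) = ∑ i ∈ Q, ω i (t i) := by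
  let f : Fin (n + n) → Fin (n + n) := Fin.addCases
    (fun i => if i ∈ Q then Fin.castAdd n (t i) else Fin.natAdd n i)
    (fun i => if i ∈ Q then Fin.natAdd n i else Fin.castAdd n (t i))
  have fl : ∀ i, f (Fin.castAdd n i) = if i ∈ Q then Fin.castAdd n (t i) else Fin.natAdd n i :=
    fun i => Fin.addCases_left i
  have fr : ∀ i, f (Fin.natAdd n i) = if i ∈ Q then Fin.natAdd n i else Fin.castAdd n (t i) :=
    fun i => Fin.addCases_right i
  have hsurj : Function.Surjective f := fun y => by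
    refine Fin.addCases (fun j => ?_) (fun j => ?_) y
    · by_cases h : t.symm j ∈ Q
      · exact ⟨Fin.castAdd n (t.symm j), by rw [fl, if_pos h, t.apply_symm_apply]⟩
      · exact ⟨Fin.natAdd n (t.symm j), by rw [fr, if_neg h, t.apply_symm_apply]⟩
    · by_cases h : j ∈ Q
      · exact ⟨Fin.natAdd n j, by rw [fr, if_pos h]⟩
      · exact ⟨Fin.castAdd n j, by rw [fl, if_neg h]⟩
  let s := Equiv.ofBijective f (Finite.surjective_iff_bijective.1 hsurj)
  let R : Finset (Fin (n + n)) :=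
    univ.filter fun x => ∀ i, x = Fin.castAdd n i → i ∈ Q
  have hR1 : ∀ i, Fin.castAdd n i ∈ R ↔ i ∈ Q := fun i => by simp [R]
  have hR2 : ∀ i, Fin.natAdd n i ∈ R := fun i => by
    simp only [R, mem_filter, mem_univ, true_and]
    intro j e
    have := congrArg Fin.val e
    simp only [Fin.val_natAdd, Fin.val_castAdd] at this
    omega
  have hs : ∀ x, (s x : ℕ) ≤ x + n := fun x => by
    change (f x : ℕ) ≤ _
    refine Fin.addCases (fun i => ?_) (fun i => ?_) x
    · rw [fl]
      have := (t i).2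
      split_ifs <;> simp only [Fin.val_natAdd, Fin.val_castAdd] <;> omega
    · have := (f (Fin.natAdd n i)).2
      simp only [Fin.val_natAdd]; omega
  refine ⟨s, R, hs, card_left R Q hR1 hR2, ?_, sum_bonus_left A ω s R t Q hR1 (fun i hi => ?_) ht⟩
  · have h := qscore_le A s hs R
    have h1 : ∑ x ∈ Rᶜ, (posU n x - posV n (s x)) = 0 := Finset.sum_eq_zero fun x hx => by
      revert hx
      change _ → posU n x - posV n (f x) = 0
      refine Fin.addCases (fun i hi => ?_) (fun i hi => ?_) x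
      · rw [fl, if_neg (fun h => mem_compl.1 hi ((hR1 i).2 h))]
        simp [posU, posV, blt_true i.2, blt_false]
      · exact absurd (hR2 i) (mem_compl.1 hi)
    have h2 : (R.filter fun x : Fin (n + n) => allowed n A x (s x) = false) = ∅ :=
      Finset.filter_eq_empty_iff.2 fun x hx => by
        revert hx
        change _ → ¬ allowed n A x (f x) = false
        refine Fin.addCases (fun i hi => ?_) (fun i _ => ?_) x
        · rw [fl, if_pos ((hR1 i).1 hi)]
          simp [allowed, blt_true i.2, blt_true (t i).2, ht]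
        · rw [fr]
          split_ifs
          · simp [allowed, blt_false]
          · simp [allowed, blt_false, blt_true (t i).2, ht]
    rw [h1, h2] at h
    simpa using h
  · change f _ = _
    rw [fl, if_pos hi]

/-- From a solution of full score of the staircase instance to a solution of the old instance. -/
theorem drop_sol (s : Fin (n + n) ≃ Fin (n + n)) (hs : ∀ x, (s x : ℕ) ≤ x + n)
    (R : Finset (Fin (n + n))) (h : n * (n + 1) + R.card ≤ ∑ x ∈ R, qscore n A x (s x)) :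
    ∃ (t : Fin n ≃ Fin n) (Q : Finset (Fin n)), (∀ i : Fin n, A i (t i) = true) ∧ R.card = n + Q.card ∧
      ∑ x ∈ R, bonus n A ω x (s x) = ∑ i ∈ Q, ω i (t i) ∧
      ∀ p : ℕ × ℕ, (∃ i ∈ Q, ((i : ℕ), (t i : ℕ)) = p) ↔
        (∃ x ∈ R, ((x : ℕ), (s x : ℕ)) = p) ∧ p.1 < n ∧ p.2 < n := by
  have h0 := qscore_le A s hs R
  have h1 : ∀ x, x ∉ R → posU n x - posV n (s x) = 0 := fun x hx =>
    Finset.sum_eq_zero_iff.1 (show ∑ x ∈ Rᶜ, (posU n x - posV n (s x)) = 0 by omega) x
      (mem_compl.2 hx)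
  have h2 : ∀ x ∈ R, allowed n A x (s x) = true := fun x hx => by
    have := Finset.filter_eq_empty_iff.1 (Finset.card_eq_zero.1
      (show (R.filter fun x : Fin (n + n) => allowed n A x (s x) = false).card = 0 by omega)) hx
    simpa using this
  have hR2 : ∀ i, Fin.natAdd n i ∈ R := fun i => by
    by_contra hx
    have h3 := h1 _ hx
    have := (s (Fin.natAdd n i)).2
    unfold posU posV at h3
    rcases lt_or_ge (s (Fin.natAdd n i) : ℕ) n with h' | h' <;>
      simp only [Fin.val_natAdd, blt_true, blt_false, h', Nat.le_add_right, cond_true,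
        cond_false] at h3 <;> omega
  have hl : ∀ i : Fin n, Fin.castAdd n i ∈ R → (s (Fin.castAdd n i) : ℕ) < n ∧
      A i (s (Fin.castAdd n i)) = true := fun i hi => by
    simpa [allowed, blt_true i.2] using h2 _ hi
  have hl' : ∀ i : Fin n, Fin.castAdd n i ∉ R → s (Fin.castAdd n i) = Fin.natAdd n i :=
    fun i hi => by
      have h3 := h1 _ hi
      have h4 := hs (Fin.castAdd n i)
      apply Fin.ext
      unfold posU posV at h3
      rcases lt_or_ge (s (Fin.castAdd n i) : ℕ) n with h' | h' <;>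
        simp only [Fin.val_natAdd, Fin.val_castAdd, blt_true, blt_false, h', i.2, cond_true,
          cond_false] at h3 h4 ⊢ <;> omega
  have hr : ∀ i : Fin n, Fin.castAdd n i ∉ R → (s (Fin.natAdd n i) : ℕ) < n ∧
      A i (s (Fin.natAdd n i)) = true := fun i hi => by
    have h3 := h2 _ (hR2 i)
    rcases lt_or_ge (s (Fin.natAdd n i) : ℕ) n with h' | h'
    · simp only [allowed, Fin.val_natAdd, blt_false (Nat.le_add_right n i), blt_true h',
        cond_true, cond_false, Nat.add_sub_cancel_left] at h3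
      exact ⟨h', h3⟩
    · simp only [allowed, Fin.val_natAdd, blt_false (Nat.le_add_right n i), blt_false h',
        cond_false, beq_iff_eq] at h3
      have h4 : n + i = s (Fin.natAdd n i) := h3
      have h5 : s (Fin.natAdd n i) = s (Fin.castAdd n i) := by
        rw [hl' i hi]; exact Fin.ext h4.symm
      have := congrArg Fin.val (s.injective h5)
      simp only [Fin.val_natAdd, Fin.val_castAdd] at this
      have := i.2
      omega
  let src : Fin n → Fin (n + n) := fun i =>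
    if Fin.castAdd n i ∈ R then Fin.castAdd n i else Fin.natAdd n i
  have hsrc : ∀ i, (s (src i) : ℕ) < n ∧ A i (s (src i)) = true := fun i => by
    simp only [src]
    split_ifs with hi
    · exact hl i hi
    · exact hr i hi
  let g : Fin n → Fin n := fun i => ⟨s (src i), (hsrc i).1⟩
  have hg : Function.Injective g := fun i j e => by
    have e' : (s (src i) : ℕ) = s (src j) := congrArg (fun z : Fin n => (z : ℕ)) e
    have h3 := congrArg Fin.val (s.injective (Fin.ext e'))
    have := i.2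
    have := j.2
    apply Fin.ext
    simp only [src] at h3
    split_ifs at h3 <;> simp only [Fin.val_natAdd, Fin.val_castAdd] at h3 <;> omega
  let t := Equiv.ofBijective g (Finite.injective_iff_bijective.1 hg)
  let Q : Finset (Fin n) := univ.filter fun i => Fin.castAdd n i ∈ R
  have hR1 : ∀ i, Fin.castAdd n i ∈ R ↔ i ∈ Q := fun i => by simp [Q]
  have hQ : ∀ i ∈ Q, s (Fin.castAdd n i) = Fin.castAdd n (t i) := fun i hi => by
    apply Fin.ext
    change _ = (s (src i) : ℕ)
    simp only [src, if_pos ((hR1 i).2 hi)]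
  refine ⟨t, Q, fun i => (hsrc i).2, card_left R Q hR1 hR2,
    sum_bonus_left A ω s R t Q hR1 hQ fun i => (hsrc i).2, fun p => ⟨?_, ?_⟩⟩
  · rintro ⟨i, hi, rfl⟩
    exact ⟨⟨_, (hR1 i).2 hi, by rw [hQ i hi]; rfl⟩, i.2, (t i).2⟩
  · rintro ⟨⟨x, hx, rfl⟩, h3, -⟩
    have e : x = Fin.castAdd n ⟨x, h3⟩ := Fin.ext rfl
    have hi : (⟨x, h3⟩ : Fin n) ∈ Q := (hR1 _).1 (e ▸ hx)
    refine ⟨⟨x, h3⟩, hi, Prod.ext rfl ?_⟩
    have := congrArg Fin.val (hQ _ hi)
    rw [← e] at this
    exact this.symm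

end

/-- Correctness of the reduction. -/
theorem stair_correct {n k : ℕ} {adj : Fin n → Fin n → Bool} {w : Fin n → Fin n → ℚ}
    (hk : 2 * k ≤ n + n) (A : ℕ → ℕ → Bool) (ω : ℕ → ℕ → ℚ)
    (hA : ∀ i j : Fin n, A i j = adj i j) (hω : ∀ i j : Fin n, ω i j = w i j)
    (hP : ∃ P, (QInst.mk n n adj w k hk).IsPerfect P) (o : Bool × List (ℕ × ℕ))
    (ho : (stair n k A ω).Correct o) :
    ∃ M, (QInst.mk n n adj w k hk).Feasible M ∧
      (o.2.filter fun p => Nat.blt p.1 n && Nat.blt p.2 n).toFinset =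
        M.image (fun e => ((e.1 : ℕ), (e.2 : ℕ))) ∧
      ∀ M', (QInst.mk n n adj w k hk).Feasible M' →
        (QInst.mk n n adj w k hk).weight M' ≤ (QInst.mk n n adj w k hk).weight M := by
  have hkn : min k n = k := by omega
  obtain ⟨M₁, hM₁, hl, hopt⟩ := ho.2 (ho.1.2 ⟨_, qperm_perfect (I := stair n k A ω)
    (Equiv.refl _) fun x => Nat.ble_eq_true_of_le (Nat.le_add_right _ _)⟩)
  obtain ⟨s, R, hs, hR, e⟩ : ∃ (s : Fin (n + n) ≃ Fin (n + n)) (R : Finset (Fin (n + n))),
      (∀ x : Fin (n + n), Nat.ble (s x) (x + n) = true) ∧ R.card = n + min k n ∧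
        M₁ = R.image fun x => (x, s x) := feasible_iff.1 hM₁
  subst e
  have hs' : ∀ x, (s x : ℕ) ≤ x + n := fun x => by simpa using hs x
  have key : ∀ (t : Fin n ≃ Fin n), (∀ i : Fin n, A i (t i) = true) → ∀ Q : Finset (Fin n), Q.card = k →
      ∑ i ∈ Q, ω i (t i) + (2 * bigS n A ω + 1) * ((n * (n + 1) + R.card : ℕ) : ℚ) ≤
        ∑ x ∈ R, bonus n A ω x (s x) +
          (2 * bigS n A ω + 1) * (∑ x ∈ R, qscore n A x (s x) : ℕ) ∧
        -(bigS n A ω : ℚ) ≤ ∑ i ∈ Q, ω i (t i) := fun t ht Q hQ => by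
    obtain ⟨s₀, R₀, a1, a2, a3, a4⟩ := lift_sol A ω t ht Q
    have := hopt _ ((feasible_iff (I := stair n k A ω)).2 ⟨s₀, R₀,
      fun x => Nat.ble_eq_true_of_le (a1 x), by change R₀.card = n + min k n; omega, rfl⟩)
    replace this := ((weight_stair (k := k) A ω s₀ R₀).symm.trans_le this).trans_eq
      (weight_stair (k := k) A ω s R)
    rw [a3, a4, show R₀.card = R.card by omega] at this
    exact ⟨this, a4 ▸ (abs_le.1 (abs_sum_bonus A ω s₀ R₀)).1⟩
  obtain ⟨P, hP⟩ := hP
  obtain ⟨t₀, ht₀⟩ : ∃ s : Fin n ≃ Fin n, ∀ e : Fin n × Fin n, e ∈ P ↔ e.2 = s e.1 :=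
    qperfect_perm hP
  obtain ⟨Q₀, -, hQ₀⟩ := Finset.exists_subset_card_eq (s := (univ : Finset (Fin n))) (n := k)
    (by simp; omega)
  obtain ⟨b1, b2⟩ := key t₀ (fun i => (hA _ _).trans (hP.1 (i, t₀ i) ((ht₀ _).2 rfl))) Q₀ hQ₀
  have b3 := (abs_le.1 (abs_sum_bonus (n := n) A ω s R)).2
  have hfull : n * (n + 1) + R.card ≤ ∑ x ∈ R, qscore n A x (s x) := by
    by_contra hlt
    have : ((∑ x ∈ R, qscore n A x (s x) : ℕ) : ℚ) + 1 ≤ (n * (n + 1) + R.card : ℕ) := by
      exact_mod_cast Nat.succ_le_of_lt (not_le.1 hlt)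
    have h3 : (0 : ℚ) ≤ bigS n A ω := by positivity
    nlinarith
  have heq : ∑ x ∈ R, qscore n A x (s x) = n * (n + 1) + R.card :=
    le_antisymm (by have := qscore_le A s hs' R; omega) hfull
  obtain ⟨t, Q, c1, c2, c3, c4⟩ := drop_sol A ω s hs' R hfull
  refine ⟨Q.image fun x => (x, t x), (feasible_iff (I := QInst.mk n n adj w k hk)).2
    ⟨t, Q, fun i => (hA _ _).symm.trans (c1 i), by change Q.card = k; omega, rfl⟩, ?_, ?_⟩
  · ext p
    have hl' : o.2.toFinset = (R.image fun x => (x, s x)).image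
      (fun e : Fin (n + n) × Fin (n + n) => ((e.1 : ℕ), (e.2 : ℕ))) := hl
    have h5 := Finset.ext_iff.1 hl' p
    simp only [List.mem_toFinset, Finset.image_image, mem_image, Function.comp_apply] at h5
    simp only [List.mem_toFinset, List.mem_filter, h5, Finset.image_image, mem_image,
      Function.comp_apply, c4, Bool.and_eq_true, Nat.blt_eq]
  · intro M' hM'
    obtain ⟨t', Q', d1, d2, e⟩ : ∃ (s : Fin n ≃ Fin n) (R : Finset (Fin n)),
      (∀ x : Fin n, adj x (s x) = true) ∧ R.card = k ∧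
        M' = R.image fun x => (x, s x) := (feasible_iff (I := QInst.mk n n adj w k hk)).1 hM'
    subst e
    have := (key t' (fun i => (hA _ _).trans (d1 i)) Q' d2).1
    rw [heq, c3] at this
    rw [weight_image (I := QInst.mk n n adj w k hk), weight_image (I := QInst.mk n n adj w k hk)]
    simp only [← hω]
    linarith

end Pool.Agent.Lib.MP_be0860_lc
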